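import Pool.Agent.H91S.CfgP

set_option autoImplicit false

/-!
Piece BASE (helper61): four vertices.
-/

namespace Pool.Agent.H91S

open Finset
open Pool.Agent.Helper879.ECD (cn)
open Pool.Agent.N411.EC (TEC Cr Jn third_edge cr_single cr_of_jn exists_jn_of_cr cn_eq)

namespace CB

/-- the first end of the six edges of the complete graph on `0, 1, 2, 3` -/
def P : Fin 6 → Fin 4 := ![0, 0, 0, 1, 1, 2]
/-- the second end -/
def Q : Fin 6 → Fin 4 := ![1, 2, 3, 2, 3, 3]
/-- the colours: `ru, rv, rt, uv, ut, vt` -/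
def K : Fin 6 → Option (Fin 4) := ![some 0, some 3, some 2, some 2, some 1, none]

/-- crossing -/
def C4 (X : Finset (Fin 4)) (i : Fin 6) : Bool := (decide (P i ∈ X)) != (decide (Q i ∈ X))

theorem c_rem : ∀ (κ : Fin 4) (X : Finset (Fin 4)), X.Nonempty → X ≠ univ →
    ∃ i j : Fin 6, i ≠ j ∧ (C4 X i = true ∧ K i ≠ some κ) ∧ (C4 X j = true ∧ K j ≠ some κ) := by
  decide +kernel

theorem c_con : ∀ Y : Finset (Fin 4), Y.Nonempty → 0 ∉ Y → (∃ w, w ∉ Y ∧ w ≠ 0) →
    ∃ i : Fin 6, K i ≠ none ∧ C4 Y i = true ∧ C4 {0} i = false := by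
  decide +kernel

theorem c_root : ∀ i : Fin 6, C4 {0} i = true → K i ≠ none := by decide +kernel

theorem c_u : ∀ i : Fin 6, C4 {1} i = true → i ≠ 0 → i = 3 ∨ K i = some 1 := by decide +kernel

theorem c_v : ∀ i j : Fin 6, C4 {2} i = true → C4 {2} j = true → i ≠ j → i ≠ 3 → j ≠ 3 →
    K i = some 1 → K j = none := by decide +kernel

theorem c_cut : ∀ X : Finset (Fin 4), 1 ∈ X → 0 ∉ X → X ≠ {1} →
    ∃ i j : Fin 6, i ≠ j ∧ (C4 X i = true ∧ K i ≠ some 1 ∧ i ≠ 0) ∧
      (C4 X j = true ∧ K j ≠ some 1 ∧ j ≠ 0) := by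
  decide +kernel

variable {W E : Type} [Fintype W] [DecidableEq W] [Fintype E] [DecidableEq E] {a b : E → W}

/-- in a cubic graph with four vertices all pairs are joined -/
theorem joined (hc : Cub a b) (hcard : Fintype.card W = 4) {x y : W} (hxy : x ≠ y) :
    ∃ e, Jn a b e x y := by
  classical
  have h1 : ∀ e : {e : E // Cr a b {x} e}, ∃ w, w ≠ x ∧ Jn a b e.1 x w := fun e => other e.2
  choose o ho1 ho2 using h1
  have hinj : Function.Injective fun e => (⟨o e, ho1 e⟩ : {w : W // w ≠ x}) := by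
    intro e f hef
    have h2 : o e = o f := congrArg Subtype.val hef
    apply Subtype.ext
    refine no_par hc (by omega) (ho1 e).symm (ho2 e) ?_
    rw [h2]; exact ho2 f
  have hb : Function.Bijective fun e => (⟨o e, ho1 e⟩ : {w : W // w ≠ x}) := by
    rw [Fintype.bijective_iff_injective_and_card]
    refine ⟨hinj, ?_⟩
    rw [Fintype.card_subtype_compl (fun w => w = x), Fintype.card_subtype_eq, hcard,
      Fintype.card_subtype, ← cn_eq, hc.deg x]
  obtain ⟨e, he⟩ := hb.2 ⟨y, hxy.symm⟩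
  have h3 : o e = y := congrArg Subtype.val he
  exact ⟨e.1, h3 ▸ ho2 e⟩

end CB

open CB in
theorem t_BASE : S_BASE := by
  intro W E _ _ _ _ a b hc hcard r u v e g he hg hru hrv huv
  classical
  have h3 : 3 ≤ Fintype.card W := by omega
  -- the fourth vertex
  obtain ⟨t, ht⟩ : ∃ t, t ∉ ({r, u, v} : Finset W) := by
    by_contra hcon
    push Not at hcon
    have h4 : (univ : Finset W) ⊆ {r, u, v} := fun x _ => hcon x
    have h5 := Finset.card_le_card h4
    rw [Finset.card_univ, hcard] at h5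
    have h6 : ({r, u, v} : Finset W).card ≤ 3 := Finset.card_le_three
    omega
  simp only [Finset.mem_insert, Finset.mem_singleton, not_or] at ht
  obtain ⟨htr, htu, htv⟩ := ht
  let ψ : Fin 4 → W := ![r, u, v, t]
  have hψinj : Function.Injective ψ := by
    intro i j hij
    fin_cases i <;> fin_cases j <;> simp [ψ] at hij ⊢
    · exact absurd hij hru
    · exact absurd hij hrv
    · exact absurd hij.symm htr
    · exact absurd hij.symm hru
    · exact absurd hij huv
    · exact absurd hij.symm htu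
    · exact absurd hij.symm hrv
    · exact absurd hij.symm huv
    · exact absurd hij.symm htv
    · exact absurd hij htr
    · exact absurd hij htu
    · exact absurd hij htv
  have hψbij : Function.Bijective ψ := by
    rw [Fintype.bijective_iff_injective_and_card]
    exact ⟨hψinj, by rw [hcard, Fintype.card_fin]⟩
  have hPQ : ∀ i : Fin 6, P i ≠ Q i := by decide
  have hall : ∀ i : Fin 6, ∃ x : E, Jn a b x (ψ (P i)) (ψ (Q i)) := fun i =>
    joined hc hcard fun h => hPQ i (hψinj h)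
  choose ε hε using hall
  have hεinj : Function.Injective ε := by
    intro i j hij
    have h4 := (hε i).pair (hij ▸ hε j)
    have h5 : ∀ i j : Fin 6, (P i = P j ∧ Q i = Q j) ∨ (P i = Q j ∧ Q i = P j) → i = j := by
      decide
    apply h5
    rcases h4 with ⟨h, h'⟩ | ⟨h, h'⟩
    · exact Or.inl ⟨hψinj h, hψinj h'⟩
    · exact Or.inr ⟨hψinj h, hψinj h'⟩
  have hsurj : ∀ (x : E) (X : Finset W), Cr a b X x → ∃ i, x = ε i := by
    intro x X hx
    obtain ⟨y, z, hy, hz, hj⟩ := exists_jn_of_cr hx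
    obtain ⟨y', rfl⟩ := hψbij.2 y
    obtain ⟨z', rfl⟩ := hψbij.2 z
    have hne : y' ≠ z' := by rintro rfl; exact hz hy
    have h5 : ∀ y z : Fin 4, y ≠ z → ∃ i : Fin 6, (P i = y ∧ Q i = z) ∨ (P i = z ∧ Q i = y) := by
      decide
    obtain ⟨i, ⟨h1, h2⟩ | ⟨h1, h2⟩⟩ := h5 y' z' hne
    · exact ⟨i, no_par hc h3 (fun h => hne (hψinj h)) hj (by rw [← h1, ← h2]; exact hε i)⟩
    · exact ⟨i, no_par hc h3 (fun h => hne (hψinj h)) hj (by rw [← h1, ← h2]; exact (hε i).symm)⟩
  have he0 : e = ε 0 := no_par hc h3 hru he (hε 0)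
  let col : E → Option (Fin 4) := fun x => if h : ∃ i, x = ε i then K h.choose else none
  have hcol : ∀ i, col (ε i) = K i := by
    intro i
    have h : ∃ j, ε i = ε j := ⟨i, rfl⟩
    show (if h : ∃ j, ε i = ε j then K h.choose else none) = K i
    rw [dif_pos h]
    congr 1
    exact (hεinj h.choose_spec).symm
  -- the sets
  let F : Finset W → Finset (Fin 4) := fun X => univ.filter fun i => ψ i ∈ X
  have hF : ∀ X i, i ∈ F X ↔ ψ i ∈ X := by
    intro X i
    simp [F]
  have hCr : ∀ X i, Cr a b X (ε i) ↔ C4 (F X) i = true := by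
    intro X i
    rw [(hε i).cr]
    unfold C4
    rw [← hF, ← hF]
    by_cases h1 : P i ∈ F X <;> by_cases h2 : Q i ∈ F X <;> simp [h1, h2]
  have hFne : ∀ X : Finset W, X.Nonempty → (F X).Nonempty := by
    rintro X ⟨x, hx⟩
    obtain ⟨i, rfl⟩ := hψbij.2 x
    exact ⟨i, (hF X i).2 hx⟩
  have hFun : ∀ X : Finset W, X ≠ univ → F X ≠ univ := by
    intro X hX h
    apply hX
    rw [Finset.eq_univ_iff_forall] at h ⊢
    intro x
    obtain ⟨i, rfl⟩ := hψbij.2 x
    exact (hF X i).1 (h i)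
  have hFs : ∀ i, F {ψ i} = {i} := by
    intro i
    ext j
    rw [hF, Finset.mem_singleton, Finset.mem_singleton, hψinj.eq_iff]
  have hcut : ∀ X : Finset W, u ∈ X → r ∉ X → X ≠ {u} →
      Two (fun x => Cr a b X x ∧ col x ≠ some 1 ∧ x ≠ e) := by
    intro X hu hr hX
    obtain ⟨i, j, hij, ⟨hi1, hi2, hi3⟩, ⟨hj1, hj2, hj3⟩⟩ := c_cut (F X) ((hF X 1).2 hu)
      (fun h => hr ((hF X 0).1 h)) (by
        intro h
        apply hX
        ext x
        obtain ⟨i, rfl⟩ := hψbij.2 x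
        rw [← hF, h, Finset.mem_singleton, Finset.mem_singleton, show u = ψ 1 from rfl,
          hψinj.eq_iff])
    refine ⟨ε i, ε j, fun h => hij (hεinj h), ⟨(hCr X i).2 hi1, ?_, ?_⟩, ⟨(hCr X j).2 hj1, ?_, ?_⟩⟩
    · rw [hcol]; exact hi2
    · rw [he0]; exact fun h => hi3 (hεinj h)
    · rw [hcol]; exact hj2
    · rw [he0]; exact fun h => hj3 (hεinj h)
  refine ⟨1, col, {
    good := {
      rem := ?_
      con := ?_
      root := ?_ }
    root_ne := ?_
    at_u := ?_
    at_v := ?_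
    cut := ?_
    cut4 := fun _ => hcut }⟩
  · intro κ X h1 h2
    obtain ⟨i, j, hij, ⟨hi1, hi2⟩, ⟨hj1, hj2⟩⟩ := c_rem κ (F X) (hFne X h1) (hFun X h2)
    refine ⟨ε i, ε j, fun h => hij (hεinj h), ⟨(hCr X i).2 hi1, ?_⟩, ⟨(hCr X j).2 hj1, ?_⟩⟩
    · rw [hcol]; exact hi2
    · rw [hcol]; exact hj2
  · intro Y h1 h2 ⟨w, hw1, hw2⟩
    obtain ⟨w', rfl⟩ := hψbij.2 w
    obtain ⟨i, hi1, hi2, hi3⟩ := c_con (F Y) (hFne Y h1) (fun h => h2 ((hF Y 0).1 h))
      ⟨w', fun h => hw1 ((hF Y w').1 h), fun h => hw2 (by rw [h]; rfl)⟩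
    refine ⟨ε i, by rw [hcol]; exact hi1, (hCr Y i).2 hi2, ?_⟩
    rw [show r = ψ 0 from rfl, hCr, hFs, hi3]
    simp
  · intro x hx
    obtain ⟨i, rfl⟩ := hsurj x _ hx
    rw [hcol]
    apply c_root
    rw [← hFs 0, ← hCr]
    exact hx
  · rw [he0, hcol]
    decide
  · intro x hx hxe
    obtain ⟨i, rfl⟩ := hsurj x _ hx
    have h4 : C4 {1} i = true := by
      rw [← hFs 1, ← hCr]; exact hx
    rcases c_u i h4 (fun h => hxe (by rw [h, he0])) with rfl | h5
    · exact Or.inl (hε 3)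
    · right; rw [hcol]; exact h5
  · intro x y hx hy hxy hxu hyu hcx
    obtain ⟨i, rfl⟩ := hsurj x _ hx
    obtain ⟨j, rfl⟩ := hsurj y _ hy
    rw [hcol] at hcx ⊢
    have h4 : C4 {2} i = true := by
      rw [← hFs 2, ← hCr]; exact hx
    have h5 : C4 {2} j = true := by
      rw [← hFs 2, ← hCr]; exact hy
    refine c_v i j h4 h5 (fun h => hxy (by rw [h])) ?_ ?_ hcx
    · rintro rfl; exact hxu (hε 3)
    · rintro rfl; exact hyu (hε 3)
  · intro X hu hr hX
    apply hcut X hu hr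
    rintro rfl
    exact hX (by simp)

end Pool.Agent.H91S
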