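import Pool.Agent.H91S.Stm
import Pool.Agent.N411.EC.EarL

set_option autoImplicit false

/-!
Pieces CFG and BASE (helper61).
-/

namespace Pool.Agent.H91S

open Finset
open Pool.Agent.Helper879.ECD (cn)
open Pool.Agent.N411.EC (TEC Cr Jn third_edge cr_single cr_of_jn exists_jn_of_cr cn_eq)

namespace CB

variable {W E : Type} [Fintype W] [DecidableEq W] [Fintype E] [DecidableEq E] {a b : E → W}

/-- an edge at a vertex has another end -/
theorem other {v : W} {x : E} (h : Cr a b {v} x) : ∃ w, w ≠ v ∧ Jn a b x v w := by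
  obtain ⟨u, w, hu, hw, hj⟩ := exists_jn_of_cr h
  rw [Finset.mem_singleton] at hu hw
  exact ⟨w, hw, hu ▸ hj⟩

/-- an edge which crosses `X` and is at the vertex `v ∈ X` -/
theorem cr_at {X : Finset W} {x : E} (h : Cr a b X x) : ∃ v ∈ X, Cr a b {v} x := by
  obtain ⟨u, w, hu, hw, hj⟩ := exists_jn_of_cr h
  exact ⟨u, hu, cr_single hj (fun h' => hw (h' ▸ hu))⟩

theorem ncr_of {X : Finset W} {x : E} {u w : W} (h : Jn a b x u w) (hu : u ∈ X) (hw : w ∈ X) :
    ¬ Cr a b X x := by
  rw [h.cr]; tauto

/-- no parallel edges -/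
theorem no_par (hc : Cub a b) (hcard : 3 ≤ Fintype.card W) {x y : W} (hxy : x ≠ y) {e f : E}
    (he : Jn a b e x y) (hf : Jn a b f x y) : e = f := by
  by_contra hef
  obtain ⟨h1, -, -, -, hh1⟩ := third_edge (hc.deg x) (cr_single he hxy) (cr_single hf hxy) hef
  obtain ⟨h2, -, -, -, hh2⟩ := third_edge (hc.deg y) (cr_single he.symm hxy.symm)
    (cr_single hf.symm hxy.symm) hef
  refine hc.tec.no_two (X := {x, y}) ⟨x, by simp⟩ ?_ h1 h2 ?_
  · intro h
    have h3 : ({x, y} : Finset W).card = Fintype.card W := by rw [h, Finset.card_univ]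
    rw [Finset.card_pair hxy] at h3
    omega
  · intro g hg
    have hge : g ≠ e := fun h => ncr_of he (by simp) (by simp) (h ▸ hg)
    have hgf : g ≠ f := fun h => ncr_of hf (by simp) (by simp) (h ▸ hg)
    obtain ⟨v, hv, hgv⟩ := cr_at hg
    rw [Finset.mem_insert, Finset.mem_singleton] at hv
    rcases hv with rfl | rfl
    · rcases hh1 g hgv with h | h | h
      · exact absurd h hge
      · exact absurd h hgf
      · exact Or.inl h
    · rcases hh2 g hgv with h | h | h
      · exact absurd h hge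
      · exact absurd h hgf
      · exact Or.inr h

/-- no triangles -/
theorem no_tri (hc : Cub a b) (hn : NoCut a b) (hcard : 5 ≤ Fintype.card W) {x y z : W}
    (hxy : x ≠ y) (hyz : y ≠ z) (hxz : x ≠ z) {e f g : E}
    (he : Jn a b e x y) (hf : Jn a b f y z) (hg : Jn a b g x z) : False := by
  have hef : e ≠ f := by
    rintro rfl
    rcases he.pair hf with ⟨h, -⟩ | ⟨h, -⟩
    · exact hxy h
    · exact hxz h
  have heg : e ≠ g := by
    rintro rfl
    exact hyz (he.right_unique hg)
  have hfg : f ≠ g := by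
    rintro rfl
    rcases hf.pair hg with ⟨h, -⟩ | ⟨h, -⟩
    · exact hxy h.symm
    · exact hyz h
  obtain ⟨h1, -, -, -, hh1⟩ := third_edge (hc.deg x) (cr_single he hxy) (cr_single hg hxz) heg
  obtain ⟨h2, -, -, -, hh2⟩ := third_edge (hc.deg y) (cr_single he.symm hxy.symm)
    (cr_single hf hyz) hef
  obtain ⟨h3, -, -, -, hh3⟩ := third_edge (hc.deg z) (cr_single hf.symm hyz.symm)
    (cr_single hg.symm hxz.symm) hfg
  have hcT : ({x, y, z} : Finset W).card = 3 := Finset.card_eq_three.2 ⟨x, y, z, hxy, hxz, hyz, rfl⟩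
  have h4 := hn {x, y, z} (by omega) (by rw [Finset.card_compl, hcT]; omega)
  rw [cn_eq] at h4
  have h5 : univ.filter (fun e => Cr a b {x, y, z} e) ⊆ {h1, h2, h3} := by
    intro k hk
    rw [Finset.mem_filter] at hk
    have hke : k ≠ e := fun h => ncr_of he (by simp) (by simp) (h ▸ hk.2)
    have hkf : k ≠ f := fun h => ncr_of hf (by simp) (by simp) (h ▸ hk.2)
    have hkg : k ≠ g := fun h => ncr_of hg (by simp) (by simp) (h ▸ hk.2)
    obtain ⟨v, hv, hgv⟩ := cr_at hk.2
    simp only [Finset.mem_insert, Finset.mem_singleton] at hv ⊢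
    rcases hv with rfl | rfl | rfl
    · rcases hh1 k hgv with h | h | h
      · exact absurd h hke
      · exact absurd h hkg
      · exact Or.inl h
    · rcases hh2 k hgv with h | h | h
      · exact absurd h hke
      · exact absurd h hkf
      · exact Or.inr (Or.inl h)
    · rcases hh3 k hgv with h | h | h
      · exact absurd h hkf
      · exact absurd h hkg
      · exact Or.inr (Or.inr h)
  have h6 := Finset.card_le_card h5
  have h7 : ({h1, h2, h3} : Finset E).card ≤ 3 := Finset.card_le_three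
  omega

end CB

theorem t_CFG : S_CFG := by
  intro W E _ _ _ _ a b hc hn hcard r u v e g he hg hru hrv huv
  have h3 : 3 ≤ Fintype.card W := by omega
  have heg : e ≠ g := by
    rintro rfl
    rcases he.pair hg with ⟨h, -⟩ | ⟨h, -⟩
    · exact hru h
    · exact hrv h
  obtain ⟨h, hh, hhe, hhg, heu⟩ := third_edge (hc.deg u) (cr_single he.symm hru.symm)
    (cr_single hg huv) heg
  obtain ⟨s, hsu, hj⟩ := CB.other hh
  have hsr : s ≠ r := by
    rintro rfl
    exact hhe (CB.no_par hc h3 hru.symm hj he.symm)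
  have hsv : s ≠ v := by
    rintro rfl
    exact hhg (CB.no_par hc h3 huv hj hg)
  -- the edges at `v`
  have hgv : Cr a b {v} g := cr_single hg.symm huv.symm
  obtain ⟨hc1, hc1v, hc1g⟩ : ∃ x, Cr a b {v} x ∧ x ≠ g := by
    by_contra hcon
    push Not at hcon
    have h4 := hc.deg v
    rw [cn_eq] at h4
    have h5 : univ.filter (fun e => Cr a b {v} e) ⊆ {g} := by
      intro x hx
      rw [Finset.mem_filter] at hx
      rw [Finset.mem_singleton]
      exact hcon x hx.2
    have h6 := Finset.card_le_card h5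
    rw [Finset.card_singleton] at h6
    omega
  obtain ⟨hd, hdv, hdg, hdc, hev⟩ := third_edge (hc.deg v) hgv hc1v hc1g.symm
  obtain ⟨c, hcv, hjc⟩ := CB.other hc1v
  obtain ⟨d, hdv', hjd⟩ := CB.other hdv
  have hcu : c ≠ u := by
    rintro rfl
    exact hc1g (CB.no_par hc h3 huv.symm hjc hg.symm)
  have hdu : d ≠ u := by
    rintro rfl
    exact hdg (CB.no_par hc h3 huv.symm hjd hg.symm)
  have hcd : c ≠ d := by
    rintro rfl
    exact hdc (CB.no_par hc h3 hcv.symm hjd hjc)
  have hrc : r ≠ c := by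
    rintro rfl
    exact CB.no_tri hc hn hcard hru huv hrv he hg hjc.symm
  have hrd : r ≠ d := by
    rintro rfl
    exact CB.no_tri hc hn hcard hru huv hrv he hg hjd.symm
  have hsc : s ≠ c := by
    rintro rfl
    exact CB.no_tri hc hn hcard huv hsv.symm hsu.symm hg hjc hj
  have hsd : s ≠ d := by
    rintro rfl
    exact CB.no_tri hc hn hcard huv hsv.symm hsu.symm hg hjd hj
  exact ⟨s, c, d, h, hc1, hd, {
    je := he, jg := hg, jh := hj, jc := hjc, jd := hjd, ru := hru, rv := hrv, rs := hsr.symm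
    rc := hrc, rd := hrd, uv := huv, us := hsu.symm, uc := hcu.symm, ud := hdu.symm
    vs := hsv.symm, vc := hcv.symm, vd := hdv'.symm, sc := hsc, sd := hsd, cd := hcd
    eu := heu, ev := hev }⟩

end Pool.Agent.H91S
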