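import Pool.Agent.H91S.Stm

set_option autoImplicit false
set_option linter.unusedSectionVars false

/-!
COL7. From good colourings of the cubic 3-edge-connected graphs with at least three vertices to
colourings of all 3-edge-connected graphs with seven removable colours.
-/

namespace Pool.Agent.H91S

open Finset
open Pool.Agent.Helper879.ECD (cn)
open Pool.Agent.N411.EC

variable {W E : Type} [DecidableEq W] [Fintype W] [DecidableEq E] [Fintype E] {a b : E → W}

/-- the edges without one of the four colours have a connected complement -/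
lemma Good.coloured {r : W} {col : E → Option (Fin 4)} (hg : Good a b r col)
    (hd : ∀ v, cn a b univ {v} = 3) (X : Finset W) (h1 : X.Nonempty) (h2 : X ≠ univ) :
    ∃ e, col e ≠ none ∧ Cr a b X e := by
  classical
  have key : ∀ Y : Finset W, Y.Nonempty → r ∉ Y → ∃ e, col e ≠ none ∧ Cr a b Y e := by
    intro Y hY hr
    by_cases h : ∃ w, w ∉ Y ∧ w ≠ r
    · obtain ⟨x, hx1, hx2, -⟩ := hg.con Y hY hr h
      exact ⟨x, hx1, hx2⟩
    · push Not at h
      have hdr := hd r
      rw [cn_eq] at hdr
      obtain ⟨e, he⟩ := Finset.card_pos.1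
        (show 0 < (univ.filter (fun e => Cr a b {r} e)).card by omega)
      rw [Finset.mem_filter] at he
      refine ⟨e, hg.root e he.2, ?_⟩
      have hYr : Y = ({r} : Finset W)ᶜ := by
        ext w
        rw [Finset.mem_compl, Finset.mem_singleton]
        constructor
        · rintro hw rfl
          exact hr hw
        · intro hw
          by_contra hw2
          exact hw (h w hw2)
      rw [hYr, cr_compl]
      exact he.2
  by_cases hr : r ∈ X
  · obtain ⟨e, he1, he2⟩ := key Xᶜ (by
      rw [Finset.nonempty_iff_ne_empty]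
      intro h
      exact h2 (by rw [← compl_compl X, h, Finset.compl_empty]))
      (fun h => (Finset.mem_compl.1 h) hr)
    exact ⟨e, he1, cr_compl.1 he2⟩
  · exact key X h1 hr

/-- the graph with two vertices and three edges between them -/
lemma col_two (hd : ∀ v, cn a b univ {v} = 3) (hW : Fintype.card W ≤ 2) :
    Col (Fin 4 ⊕ Fin 3) a b := by
  classical
  by_cases hW0 : ∃ x y : W, x ≠ y
  · obtain ⟨x, y, hxy⟩ := hW0
    have hall : ∀ w, w = x ∨ w = y := by
      intro w
      by_contra h
      push Not at h
      have h1 : ({w, x, y} : Finset W).card = 3 := by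
        rw [Finset.card_insert_of_notMem (by simp [h.1, h.2]), Finset.card_pair hxy]
      have h2 := Finset.card_le_univ ({w, x, y} : Finset W)
      omega
    have hF := hd x
    rw [cn_eq] at hF
    set F := univ.filter (fun e => Cr a b {x} e) with hFd
    let φ : F ≃ Fin 3 := F.equivFinOfCardEq hF
    have hcr : ∀ B : Finset W, B.Nonempty → B ≠ univ → ∀ e ∈ F, Cr a b B e := by
      intro B hB hB2 e he
      rw [hFd, Finset.mem_filter] at he
      have hBx : B = {x} ∨ B = ({x} : Finset W)ᶜ := by
        by_cases hx : x ∈ B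
        · left
          have hy : y ∉ B := by
            intro hy
            apply hB2
            ext w
            rcases hall w with rfl | rfl <;> simp [hx, hy]
          ext w
          rcases hall w with rfl | rfl
          · simp [hx]
          · simp [hy, hxy.symm]
        · right
          have hy : y ∈ B := by
            obtain ⟨w, hw⟩ := hB
            rcases hall w with rfl | rfl
            · exact absurd hw hx
            · exact hw
          ext w
          rcases hall w with rfl | rfl
          · simp [hx]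
          · simp [hy, hxy.symm]
      rcases hBx with rfl | rfl
      · exact he.2
      · exact cr_compl.2 he.2
    refine ⟨fun e => if h : e ∈ F then Sum.inr (φ ⟨e, h⟩) else Sum.inl 0, ?_⟩
    intro γ B hB hB2
    obtain ⟨i, j, hij, hi, hj⟩ : ∃ i j : Fin 3, i ≠ j ∧ (Sum.inr i : Fin 4 ⊕ Fin 3) ≠ γ ∧
        (Sum.inr j : Fin 4 ⊕ Fin 3) ≠ γ := by
      revert γ
      decide
    refine ⟨(φ.symm i).1, (φ.symm j).1, ?_, ?_, ?_, ?_, ?_⟩
    · intro h
      exact hij (φ.symm.injective (Subtype.ext h))
    · dsimp only
      rw [dif_pos (φ.symm i).2]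
      simpa using hi
    · dsimp only
      rw [dif_pos (φ.symm j).2]
      simpa using hj
    · exact hcr B hB hB2 _ (φ.symm i).2
    · exact hcr B hB hB2 _ (φ.symm j).2
  · push Not at hW0
    refine ⟨fun _ => Sum.inl 0, fun γ B hB hB2 => ?_⟩
    exfalso
    apply hB2
    obtain ⟨x, hx⟩ := hB
    ext y
    simp only [Finset.mem_univ, iff_true]
    rw [hW0 y x]; exact hx

/-- cubic graphs -/
lemma seven_cubic (h : ∀ (W E : Type) [Fintype W] [DecidableEq W] [Fintype E] [DecidableEq E]
    (a b : E → W), Cub a b → 3 ≤ Fintype.card W → ∀ r, ∃ col, Good a b r col)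
    (h3 : TEC a b) (hd : ∀ v, cn a b univ {v} = 3) : Col (Fin 4 ⊕ Fin 3) a b := by
  classical
  by_cases hW : Fintype.card W ≤ 2
  · exact col_two hd hW
  · push Not at hW
    obtain ⟨r⟩ : Nonempty W := by
      rw [← Fintype.card_pos_iff]
      omega
    obtain ⟨col, hg⟩ := h W E a b ⟨h3, hd⟩ hW r
    obtain ⟨c, hc⟩ := three_colour h3 (univ.filter (fun e => col e = none)) (by
      intro X h1 h2
      obtain ⟨e, he1, he2⟩ := hg.coloured hd X h1 h2
      exact ⟨e, fun h => he1 (Finset.mem_filter.1 h).2, he2⟩)
    let f : E → Fin 4 ⊕ Fin 3 := fun e => match col e with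
      | some κ => Sum.inl κ
      | none => Sum.inr (c e)
    have hf1 : ∀ e κ, col e ≠ some κ → f e ≠ Sum.inl κ := by
      intro e κ he
      show (match col e with
        | some κ => Sum.inl κ
        | none => Sum.inr (c e) : Fin 4 ⊕ Fin 3) ≠ Sum.inl κ
      cases hce : col e with
      | none => simp
      | some κ' =>
        intro h4
        apply he
        rw [hce, Sum.inl.inj h4]
    have hf2 : ∀ e γ, (e ∈ univ.filter (fun e => col e = none) → c e ≠ γ) → f e ≠ Sum.inr γ := by
      intro e γ he
      show (match col e with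
        | some κ => Sum.inl κ
        | none => Sum.inr (c e) : Fin 4 ⊕ Fin 3) ≠ Sum.inr γ
      cases hce : col e with
      | none =>
        intro h4
        exact he (Finset.mem_filter.2 ⟨Finset.mem_univ _, hce⟩) (Sum.inr.inj h4)
      | some κ' => simp
    refine ⟨f, ?_⟩
    intro γ X h1 h2
    rcases γ with κ | γ
    · obtain ⟨x, y, hxy, ⟨hx1, hx2⟩, hy1, hy2⟩ := hg.rem κ X h1 h2
      exact ⟨x, y, hxy, hf1 x κ hx2, hf1 y κ hy2, hx1, hy1⟩
    · obtain ⟨x, y, hxy, hx, hy, hx1, hy1⟩ := hc γ X h1 h2
      exact ⟨x, y, hxy, hf2 x γ hx, hf2 y γ hy, hx1, hy1⟩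

theorem t_COL7 : S_COL7 := by
  intro h W E _ _ _ _ a b h3
  classical
  by_cases hW : ∃ x y : W, x ≠ y
  · refine col_of_cubic _ (fun a b h3 hd => seven_cubic h h3 hd) _ a b h3 ?_ rfl
    intro v
    apply h3 {v} ⟨v, Finset.mem_singleton_self v⟩
    intro h
    obtain ⟨x, y, hxy⟩ := hW
    have h1 : x ∈ ({v} : Finset W) := by rw [h]; exact Finset.mem_univ _
    have h2 : y ∈ ({v} : Finset W) := by rw [h]; exact Finset.mem_univ _
    rw [Finset.mem_singleton] at h1 h2
    exact hxy (h1.trans h2.symm)
  · push Not at hW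
    refine ⟨fun _ => Sum.inl 0, fun γ B hB hB2 => ?_⟩
    exfalso
    apply hB2
    obtain ⟨x, hx⟩ := hB
    ext y
    simp only [Finset.mem_univ, iff_true]
    rw [hW y x]; exact hx

end Pool.Agent.H91S
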