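import Pool.Agent.H91S.Stm

set_option autoImplicit false
set_option linter.unusedSectionVars false

/-!
CTR. Contraction of one side of a 3-cut gives a cubic 3-edge-connected graph.
-/

namespace Pool.Agent.H91S

open Finset
open Pool.Agent.Helper879.ECD (cn)
open Pool.Agent.N411.EC

variable {W E : Type} [DecidableEq W] [Fintype W] [Fintype E] {a b : E → W}

omit [Fintype W] [Fintype E] in
lemma ctr_in {X : Finset W} {w : W} (h : w ∈ X) : ctr X w = none := dif_pos h

omit [Fintype W] [Fintype E] in
lemma ctr_out {X : Finset W} {w : W} (h : w ∉ X) : ctr X w = some ⟨w, h⟩ := dif_neg h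

omit [Fintype W] [Fintype E] in
lemma ctr_surj {X : Finset W} (hX : X.Nonempty) (y : Option {w : W // w ∉ X}) :
    ∃ w, ctr X w = y := by
  cases y with
  | none =>
    obtain ⟨w, hw⟩ := hX
    exact ⟨w, ctr_in hw⟩
  | some w => exact ⟨w.1, ctr_out w.2⟩

/-- preimages of cuts -/
lemma ctr_cn (X : Finset W) (Y : Finset (Option {w : W // w ∉ X})) (Z : Finset W)
    (hZ : ∀ w, w ∈ Z ↔ ctr X w ∈ Y) :
    cn (fun x => ctr X (a x)) (fun x => ctr X (b x)) univ Y = cn a b univ Z := by
  unfold cn
  congr 1
  ext e
  rw [Finset.mem_filter, Finset.mem_filter, hZ, hZ]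

theorem t_CTR : S_CTR := by
  intro W E _ _ _ _ a b hc X hX h3
  classical
  refine ⟨⟨?_, ?_⟩, ?_⟩
  · intro Y hY hY2
    have h := ctr_cn (a := a) (b := b) X Y (univ.filter (fun w => ctr X w ∈ Y)) (by intro w; simp)
    rw [h]
    apply hc.tec
    · obtain ⟨y, hy⟩ := hY
      obtain ⟨w, hw⟩ := ctr_surj hX y
      exact ⟨w, by rw [Finset.mem_filter, hw]; exact ⟨Finset.mem_univ _, hy⟩⟩
    · intro h2
      apply hY2
      ext y
      simp only [Finset.mem_univ, iff_true]
      obtain ⟨w, hw⟩ := ctr_surj hX y
      have h4 : w ∈ univ.filter (fun w => ctr X w ∈ Y) := by rw [h2]; exact Finset.mem_univ _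
      rw [Finset.mem_filter, hw] at h4
      exact h4.2
  · intro y
    cases y with
    | none =>
      rw [ctr_cn (a := a) (b := b) X {none} X]
      · exact h3
      · intro w
        rw [Finset.mem_singleton]
        constructor
        · intro hw; exact ctr_in hw
        · intro hw
          by_contra h4
          rw [ctr_out h4] at hw
          exact absurd hw (by simp)
    | some v =>
      rw [ctr_cn (a := a) (b := b) X {some v} {v.1}]
      · exact hc.deg v.1
      · intro w
        rw [Finset.mem_singleton, Finset.mem_singleton]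
        constructor
        · rintro rfl; exact ctr_out v.2
        · intro hw
          by_cases h4 : w ∈ X
          · rw [ctr_in h4] at hw
            exact absurd hw (by simp)
          · rw [ctr_out h4] at hw
            exact congrArg Subtype.val (Option.some.inj hw)
  · rw [Fintype.card_option]
    congr 1
    rw [Fintype.card_subtype]
    congr 1
    ext w
    rw [Finset.mem_filter, Finset.mem_compl]
    simp

end Pool.Agent.H91S
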