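import Pool.Agent.N411.EC.Eight

set_option autoImplicit false

/-!
Definitions for the colouring of 3-edge-connected graphs with seven removable colours.

A graph is given by two end maps `a b : E → W`. `Cr a b X x` : the edge `x` crosses the vertex set
`X`; `Jn a b x u w` : the edge `x` joins `u` and `w`; `cn a b univ X` : the number of edges which
cross `X`; `TEC a b` : every cut has at least three edges (all three in `Pool.Agent.N411.EC.Base`).
Loops cross nothing; edges may become loops when we contract, this does no harm.
-/

namespace Pool.Agent.H91S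

open Finset
open Pool.Agent.Helper879.ECD (cn)
open Pool.Agent.N411.EC (TEC Cr Jn)

variable {W E : Type}

/-- two different edges satisfy `Q` -/
def Two (Q : E → Prop) : Prop := ∃ x y : E, x ≠ y ∧ Q x ∧ Q y

/-- cubic and 3-edge-connected -/
structure Cub [Fintype W] [DecidableEq W] [Fintype E] (a b : E → W) : Prop where
  tec : TEC a b
  deg : ∀ v, cn a b univ {v} = 3

/-- the cuts with at least two vertices on each side have at least four edges -/
def NoCut [Fintype W] [DecidableEq W] [Fintype E] (a b : E → W) : Prop :=
  ∀ X : Finset W, 2 ≤ X.card → 2 ≤ Xᶜ.card → 4 ≤ cn a b univ X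

/-- A good colouring with root `r`: four colours and the colour `none`. The deletion of any one of
the four colour classes leaves at least two edges in every cut; the edges which have one of the four
colours and which are not at `r` connect the vertices other than `r`; and the edges at `r` have
one of the four colours. -/
structure Good [Fintype W] [DecidableEq W] (a b : E → W) (r : W) (col : E → Option (Fin 4)) :
    Prop where
  rem : ∀ (κ : Fin 4) (X : Finset W), X.Nonempty → X ≠ univ →
    Two (fun x => Cr a b X x ∧ col x ≠ some κ)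
  con : ∀ Y : Finset W, Y.Nonempty → r ∉ Y → (∃ w, w ∉ Y ∧ w ≠ r) →
    ∃ x, col x ≠ none ∧ Cr a b Y x ∧ ¬ Cr a b {r} x
  root : ∀ x, Cr a b {r} x → col x ≠ none

/-- the additional property at the edge `e = ru` and the neighbour `v` of `u` -/
structure Strong [Fintype W] [DecidableEq W] (a b : E → W) (r u v : W) (e : E) (β : Fin 4)
    (col : E → Option (Fin 4)) : Prop where
  good : Good a b r col
  root_ne : col e ≠ some β
  at_u : ∀ x, Cr a b {u} x → x ≠ e → Jn a b x u v ∨ col x = some β
  at_v : ∀ x y, Cr a b {v} x → Cr a b {v} y → x ≠ y → ¬ Jn a b x u v → ¬ Jn a b y u v →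
    col x = some β → col y = none
  cut : ∀ X : Finset W, u ∈ X → r ∉ X → ¬ X ⊆ {u, v} →
    Two (fun x => Cr a b X x ∧ col x ≠ some β ∧ x ≠ e)
  cut4 : Fintype.card W = 4 → ∀ X : Finset W, u ∈ X → r ∉ X → X ≠ {u} →
    Two (fun x => Cr a b X x ∧ col x ≠ some β ∧ x ≠ e)

/-- the vertex map which contracts `X` to the vertex `none` -/
def ctr [DecidableEq W] (X : Finset W) (w : W) : Option {w : W // w ∉ X} :=
  if h : w ∈ X then none else some ⟨w, h⟩

/-- the configuration at an edge `g = uv` which will be removed: `u` has the neighbours `r, v, s`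
through the edges `e, g, h`, and `v` has the neighbours `u, c, d` through `g, hc, hd` -/
structure Cfg [DecidableEq W] (a b : E → W) (r u v s c d : W) (e g h hc hd : E) : Prop where
  je : Jn a b e r u
  jg : Jn a b g u v
  jh : Jn a b h u s
  jc : Jn a b hc v c
  jd : Jn a b hd v d
  ru : r ≠ u
  rv : r ≠ v
  rs : r ≠ s
  rc : r ≠ c
  rd : r ≠ d
  uv : u ≠ v
  us : u ≠ s
  uc : u ≠ c
  ud : u ≠ d
  vs : v ≠ s
  vc : v ≠ c
  vd : v ≠ d
  sc : s ≠ c
  sd : s ≠ d
  cd : c ≠ d
  eu : ∀ x, Cr a b {u} x → x = e ∨ x = g ∨ x = h
  ev : ∀ x, Cr a b {v} x → x = g ∨ x = hc ∨ x = hd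

/-- the vertices which remain when `u` and `v` are suppressed -/
abbrev Sup (u v : W) : Type := {w : W // w ≠ u ∧ w ≠ v}

/-- the vertex map which sends `u` to `r` and `v` to `c` (`r, c` different from `u, v`; otherwise
junk) -/
noncomputable def sup [DecidableEq W] (u v : W) (r c : Sup u v) (w : W) : Sup u v :=
  if w = u then r else if w = v then c else if h : w ≠ u ∧ w ≠ v then ⟨w, h⟩ else r

/-- an end map of the graph in which `g = uv` is deleted and `u`, `v` are suppressed: `u` is
identified with `r`, `v` with `c`, and `g` becomes a loop at `r`. So the edges `e = ru` and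
`hc = vc` become loops, the edge `h = us` becomes the edge `rs`, and `hd = vd` becomes `cd`. -/
noncomputable def supE [DecidableEq W] [DecidableEq E] (a : E → W) (u v : W) (r c : Sup u v) (g : E)
    (x : E) : Sup u v :=
  if x = g then r else sup u v r c (a x)

end Pool.Agent.H91S
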