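import Pool.Agent.H91S.Glue

set_option autoImplicit false
set_option linter.unusedSectionVars false

namespace Pool.Agent.H91S

open Finset
open Pool.Agent.Helper879.ECD (cn)
open Pool.Agent.N411.EC (TEC Cr Jn Col cr_of_jn exists_jn_of_cr cn_eq)
open Glue

theorem t_GLUE2 : S_GLUE2 := by
  intro W E _ _ _ _ a b hC X r s w hrX hsX hwX hrs hws hwr hX h3 e je β col1 col2 hS hG2 hag hsp Y
    hsY hrY hzY
  classical
  obtain ⟨z, hzX, hzY⟩ := hzY
  have hG1 := hS.good
  -- the ends of `e`
  have he_in : ¬ (a e ∈ X ∧ b e ∈ X) := by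
    rintro ⟨h1, h2⟩
    rcases je with ⟨h4, h5⟩ | ⟨h4, h5⟩
    · exact hrX (h4 ▸ h1)
    · exact hsX (h4 ▸ h1)
  have he_X : ¬ Cr a b X e := by
    rw [je.ncr]
    exact ⟨fun h => absurd h hrX, fun h => absurd h hsX⟩
  have he_w : ¬ Cr a b {w} e := by
    rw [je.ncr, Finset.mem_singleton, Finset.mem_singleton]
    exact ⟨fun h => absurd h.symm hwr, fun h => absurd h.symm hws⟩
  by_cases hA : X ⊆ Y
  · -- case 1
    have hsat : Sat X Y := sat_sup hA
    obtain ⟨x, y, hxy, ⟨hx1, hx2, hx3⟩, ⟨hy1, hy2, hy3⟩⟩ := hS.cut (Y.image (ctr X))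
      ((mem_im hsat s).2 hsY) (fun h => hrY ((mem_im hsat r).1 h)) (by
        intro h1
        have h2 := h1 ((mem_im hsat z).2 (hA hzX))
        rw [ctr_in hzX, Finset.mem_insert, Finset.mem_singleton, ctr_out hsX, ctr_out hwX] at h2
        simp at h2)
    rw [cr_im hsat] at hx1 hy1
    refine ⟨x, y, hxy, ⟨hx1, ?_, hx3⟩, ⟨hy1, ?_, hy3⟩⟩
    · rw [if_neg (not_in hsat hx1)]; exact hx2
    · rw [if_neg (not_in hsat hy1)]; exact hy2
  · -- `X` is split by `Y`
    have hZ : (Y ∩ X).Nonempty ∧ Y ∩ X ≠ X := by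
      refine ⟨⟨z, Finset.mem_inter.2 ⟨hzY, hzX⟩⟩, fun h => hA ?_⟩
      rw [← h]; exact Finset.inter_subset_left
    obtain ⟨x1, hx1a, hx1b, hx1c, hx1d⟩ := inside2 hrX h3 hG2 β Finset.inter_subset_right hZ.1 hZ.2
    have hx1e : x1 ≠ e := by rintro rfl; exact he_in ⟨hx1a, hx1b⟩
    have hin_cr : ∀ {x : E}, a x ∈ X → b x ∈ X → Cr a b (Y ∩ X) x → Cr a b Y x := by
      intro x h1 h2 h4
      unfold Cr at h4 ⊢
      rw [Finset.mem_inter, Finset.mem_inter] at h4
      intro h; apply h4; rw [h]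
      exact ⟨fun h5 => ⟨h5.1, h2⟩, fun h5 => ⟨h5.1, h1⟩⟩
    have hx1Y : Cr a b Y x1 := hin_cr hx1a hx1b hx1c
    have hX1 : (Cr a b Y x1 ∧ (if a x1 ∈ X ∧ b x1 ∈ X then col2 x1 else col1 x1) ≠ some β ∧
        x1 ≠ e) := ⟨hx1Y, by rw [if_pos ⟨hx1a, hx1b⟩]; exact hx1d, hx1e⟩
    -- second edge: any edge not inside `X`
    have hsecond : ∀ y, ¬ (a y ∈ X ∧ b y ∈ X) → Cr a b Y y → col1 y ≠ some β → y ≠ e →
        Two (fun x => Cr a b Y x ∧ (if a x ∈ X ∧ b x ∈ X then col2 x else col1 x) ≠ some β ∧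
          x ≠ e) := by
      intro y h1 h2 h4 h5
      refine ⟨x1, y, ?_, hX1, h2, ?_, h5⟩
      · rintro rfl; exact h1 ⟨hx1a, hx1b⟩
      · rw [if_neg h1]; exact h4
    by_contra hcon
    have hno : ∀ y, ¬ (a y ∈ X ∧ b y ∈ X) → Cr a b Y y → y ≠ e → col1 y = some β := by
      intro y h1 h2 h4
      by_contra h5
      exact hcon (hsecond y h1 h2 h5 h4)
    -- edges crossing `X` are not inside
    have hXin : ∀ {x : E}, Cr a b X x → ¬ (a x ∈ X ∧ b x ∈ X) := by
      rintro x h1 ⟨h2, h4⟩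
      exact h1 ⟨fun _ => h4, fun _ => h2⟩
    -- the set `Y ∪ X`
    have hsat : Sat X (Y ∪ X) := sat_sup Finset.subset_union_right
    obtain ⟨p1, p2, hp12, ⟨hp1, hp1c, hp1e⟩, ⟨hp2, hp2c, hp2e⟩⟩ := hS.cut ((Y ∪ X).image (ctr X))
      ((mem_im hsat s).2 (Finset.mem_union_left _ hsY))
      (fun h => by
        rcases Finset.mem_union.1 ((mem_im hsat r).1 h) with h1 | h1
        · exact hrY h1
        · exact hrX h1) (by
        intro h1
        have h2 := h1 ((mem_im hsat z).2 (Finset.mem_union_right _ hzX))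
        rw [ctr_in hzX, Finset.mem_insert, Finset.mem_singleton, ctr_out hsX, ctr_out hwX] at h2
        simp at h2)
    rw [cr_im hsat] at hp1 hp2
    -- shape of such edges
    have hshape : ∀ p, Cr a b (Y ∪ X) p → col1 p ≠ some β → p ≠ e →
        ∃ i o, i ∈ X ∧ i ∉ Y ∧ o ∉ X ∧ o ∉ Y ∧ Jn a b p i o := by
      intro p h1 h2 h4
      obtain ⟨i, o, hi, ho, hj⟩ := exists_jn_of_cr h1
      rw [Finset.mem_union, not_or] at ho
      have h5 : ¬ (a p ∈ X ∧ b p ∈ X) := not_in hsat h1
      have hiY : i ∉ Y := by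
        intro hiY
        exact h2 (hno p h5 (cr_of_jn hj hiY ho.1) h4)
      have hiX : i ∈ X := by
        rcases Finset.mem_union.1 hi with h6 | h6
        · exact absurd h6 hiY
        · exact h6
      exact ⟨i, o, hiX, hiY, ho.2, ho.1, hj⟩
    obtain ⟨i1, o1, hi1X, hi1Y, ho1X, ho1Y, hj1⟩ := hshape p1 hp1 hp1c hp1e
    obtain ⟨i2, o2, hi2X, hi2Y, ho2X, ho2Y, hj2⟩ := hshape p2 hp2 hp2c hp2e
    have hp1X : Cr a b X p1 := cr_of_jn hj1 hi1X ho1X
    have hp2X : Cr a b X p2 := cr_of_jn hj2 hi2X ho2X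
    -- the edge `q`
    have hS1 : Sat X (Y \ X) := sat_disj (fun w hw => (Finset.mem_sdiff.1 hw).2)
    have hS1ne : (Y \ X).Nonempty := ⟨s, Finset.mem_sdiff.2 ⟨hsY, hsX⟩⟩
    have hS1u : (Y \ X) ≠ univ := by
      intro h1
      have : r ∈ Y \ X := by rw [h1]; exact Finset.mem_univ _
      exact hrY (Finset.mem_sdiff.1 this).1
    have hq : ∃ q, Cr a b (Y \ X) q ∧ col1 q ≠ some β ∧ q ≠ e := by
      obtain ⟨x, y, hxy, hx, hy⟩ := rem_sat hG1 β hS1 hS1ne hS1u
      by_cases h1 : x = e
      · exact ⟨y, hy.1, hy.2, fun h => hxy (h1.trans h.symm)⟩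
      · exact ⟨x, hx.1, hx.2, h1⟩
    -- shape of edges crossing `Y \ X`
    have hshape2 : ∀ q, Cr a b (Y \ X) q → col1 q ≠ some β → q ≠ e →
        ∃ i o, i ∈ X ∧ i ∈ Y ∧ o ∉ X ∧ o ∈ Y ∧ Jn a b q o i := by
      intro q h1 h2 h4
      obtain ⟨o, i, ho, hi, hj⟩ := exists_jn_of_cr h1
      rw [Finset.mem_sdiff] at ho hi
      have h5 : ¬ (a q ∈ X ∧ b q ∈ X) := not_in hS1 h1
      have hiY : i ∈ Y := by
        by_contra hiY
        exact h2 (hno q h5 (cr_of_jn hj ho.1 hiY) h4)
      have hiX : i ∈ X := by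
        by_contra hiX
        exact hi ⟨hiY, hiX⟩
      exact ⟨i, o, hiX, hiY, ho.2, ho.1, hj⟩
    obtain ⟨q, hq1, hqc, hqe⟩ := hq
    obtain ⟨iq, oq, hiqX, hiqY, hoqX, hoqY, hjq⟩ := hshape2 q hq1 hqc hqe
    have hqX : Cr a b X q := cr_of_jn hjq.symm hiqX hoqX
    have hqp : ∀ {p : E} {i o : W}, Jn a b p i o → i ∈ X → o ∉ Y → o ∉ X → q ≠ p := by
      rintro p i o hj hi ho hoX rfl
      rcases hjq.pair hj with ⟨h1, -⟩ | ⟨h1, -⟩
      · exact hoqX (h1 ▸ hi)
      · exact ho (h1 ▸ hoqY)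
    have hqp1 : q ≠ p1 := hqp hj1 hi1X ho1Y ho1X
    have hqp2 : q ≠ p2 := hqp hj2 hi2X ho2Y ho2X
    -- these are all edges crossing `X`
    have hall : ∀ x, Cr a b X x → x = q ∨ x = p1 ∨ x = p2 := by
      intro x hx
      by_contra h1
      push Not at h1
      have hsub : ({x, q, p1, p2} : Finset E) ⊆ univ.filter (fun x => Cr a b X x) := by
        intro y hy
        rw [Finset.mem_insert, Finset.mem_insert, Finset.mem_insert, Finset.mem_singleton] at hy
        rw [Finset.mem_filter]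
        rcases hy with rfl | rfl | rfl | rfl
        · exact ⟨Finset.mem_univ _, hx⟩
        · exact ⟨Finset.mem_univ _, hqX⟩
        · exact ⟨Finset.mem_univ _, hp1X⟩
        · exact ⟨Finset.mem_univ _, hp2X⟩
      have hcard := Finset.card_le_card hsub
      have h3' := h3
      rw [cn_eq] at h3'
      rw [h3'] at hcard
      have h6 : ({x, q, p1, p2} : Finset E).card = 4 := by
        obtain ⟨k1, k2, k3⟩ := h1
        rw [Finset.card_insert_of_notMem, Finset.card_insert_of_notMem,
          Finset.card_insert_of_notMem, Finset.card_singleton] <;> simp [*]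
      omega
    -- `Y \ X ⊆ {s, w}`
    have hsub : ∀ v ∈ Y \ X, v = s ∨ v = w := by
      by_contra hcon2
      push Not at hcon2
      obtain ⟨v, hv, hvs, hvw⟩ := hcon2
      obtain ⟨x, y, hxy, ⟨hx1, hx2, hx3⟩, ⟨hy1, hy2, hy3⟩⟩ := hS.cut ((Y \ X).image (ctr X))
        ((mem_im hS1 s).2 (Finset.mem_sdiff.2 ⟨hsY, hsX⟩))
        (fun h => hrY (Finset.mem_sdiff.1 ((mem_im hS1 r).1 h)).1) (by
          intro h1
          have h2 := h1 ((mem_im hS1 v).2 hv)
          rw [Finset.mem_insert, Finset.mem_singleton] at h2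
          rcases h2 with h2 | h2
          · exact hvs (ctr_inj hsX h2)
          · exact hvw (ctr_inj hwX h2))
      rw [cr_im hS1] at hx1 hy1
      have key : ∀ x, Cr a b (Y \ X) x → col1 x ≠ some β → x ≠ e → x = q := by
        intro x h1 h2 h4
        obtain ⟨i, o, hi, -, ho, hoY, hj⟩ := hshape2 x h1 h2 h4
        rcases hall x (cr_of_jn hj.symm hi ho) with h5 | h5 | h5
        · exact h5
        · exfalso
          subst h5
          rcases hj.pair hj1 with ⟨h6, -⟩ | ⟨h6, -⟩
          · exact ho (h6 ▸ hi1X)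
          · exact ho1Y (h6 ▸ hoY)
        · exfalso
          subst h5
          rcases hj.pair hj2 with ⟨h6, -⟩ | ⟨h6, -⟩
          · exact ho (h6 ▸ hi2X)
          · exact ho2Y (h6 ▸ hoY)
      exact hxy ((key x hx1 hx2 hx3).trans (key y hy1 hy2 hy3).symm)
    -- the end of `q`
    have hoq : oq = w := by
      rcases hsub oq (Finset.mem_sdiff.2 ⟨hoqY, hoqX⟩) with h1 | h1
      · exfalso
        have h2 : Cr a b {s} q := by
          rw [h1] at hjq
          refine cr_of_jn hjq (Finset.mem_singleton_self s) ?_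
          rw [Finset.mem_singleton]
          rintro rfl
          exact hsX hiqX
        rcases hS.at_u q ((cr_single hsX q).2 h2) hqe with h4 | h4
        · rw [jn_ctr hsX hwX] at h4
          rcases hjq.pair h4 with ⟨-, h5⟩ | ⟨-, h5⟩
          · exact hwX (h5 ▸ hiqX)
          · exact hsX (h5 ▸ hiqX)
        · exact hqc h4
      · exact h1
    rw [hoq] at hjq hoqY hoqX
    have hqw : Cr a b {w} q := by
      refine cr_of_jn hjq (Finset.mem_singleton_self w) ?_
      rw [Finset.mem_singleton]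
      rintro rfl
      exact hwX hiqX
    have hqnj : ¬ Jn a b q s w := by
      intro h4
      rcases hjq.pair h4 with ⟨h5, -⟩ | ⟨-, h5⟩
      · exact hws h5
      · exact hsX (h5 ▸ hiqX)
    -- a third edge at `w`
    have ht : ∃ t, Cr a b {w} t ∧ t ≠ q ∧ ¬ Jn a b t s w := by
      by_contra hcon2
      push Not at hcon2
      have hdw := hC.deg w
      have hds := hC.deg s
      rw [cn_eq] at hdw hds
      -- two edges joining `s` and `w`
      have hq_mem : q ∈ univ.filter (fun x => Cr a b {w} x) :=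
        Finset.mem_filter.2 ⟨Finset.mem_univ _, hqw⟩
      have h5 : ((univ.filter (fun x => Cr a b {w} x)).erase q).card = 2 := by
        rw [Finset.card_erase_of_mem hq_mem, hdw]
      obtain ⟨j1, j2, hj12, hj⟩ := Finset.card_eq_two.1 h5
      have hj1m : j1 ∈ (univ.filter (fun x => Cr a b {w} x)).erase q := by rw [hj]; simp
      have hj2m : j2 ∈ (univ.filter (fun x => Cr a b {w} x)).erase q := by rw [hj]; simp
      rw [Finset.mem_erase, Finset.mem_filter] at hj1m hj2m
      have hJ1 := hcon2 j1 hj1m.2.2 hj1m.1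
      have hJ2 := hcon2 j2 hj2m.2.2 hj2m.1
      have hej1 : e ≠ j1 := by
        rintro rfl
        exact he_w hj1m.2.2
      have hej2 : e ≠ j2 := by
        rintro rfl
        exact he_w hj2m.2.2
      have hsubs : ({e, j1, j2} : Finset E) ⊆ univ.filter (fun x => Cr a b {s} x) := by
        intro y hy
        rw [Finset.mem_insert, Finset.mem_insert, Finset.mem_singleton] at hy
        rw [Finset.mem_filter]
        refine ⟨Finset.mem_univ _, ?_⟩
        rcases hy with rfl | rfl | rfl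
        · exact cr_of_jn je.symm (Finset.mem_singleton_self s) (by
            rw [Finset.mem_singleton]; exact hrs)
        · exact cr_of_jn hJ1 (Finset.mem_singleton_self s) (by
            rw [Finset.mem_singleton]; exact hws)
        · exact cr_of_jn hJ2 (Finset.mem_singleton_self s) (by
            rw [Finset.mem_singleton]; exact hws)
      have hc3 : ({e, j1, j2} : Finset E).card = 3 := by
        rw [Finset.card_insert_of_notMem, Finset.card_insert_of_notMem, Finset.card_singleton] <;>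
          simp [*]
      have heq := Finset.eq_of_subset_of_card_le hsubs (by rw [hc3, hds])
      refine hC.tec.no_two (X := {s, w}) ⟨s, by simp⟩ ?_ e q ?_
      · intro h6
        have : r ∈ ({s, w} : Finset W) := by rw [h6]; exact Finset.mem_univ _
        rw [Finset.mem_insert, Finset.mem_singleton] at this
        rcases this with h7 | h7
        · exact hrs h7
        · exact hwr h7.symm
      · intro x hx
        obtain ⟨i, o, hi, ho, hjx⟩ := exists_jn_of_cr hx
        rw [Finset.mem_insert, Finset.mem_singleton] at hi ho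
        push Not at ho
        have hnj : ¬ Jn a b x s w := by
          intro h6
          rcases hjx.pair h6 with ⟨-, h7⟩ | ⟨-, h7⟩
          · exact ho.2 h7
          · exact ho.1 h7
        rcases hi with hi | hi
        · left
          rw [hi] at hjx
          have h6 : x ∈ univ.filter (fun x => Cr a b {s} x) := by
            rw [Finset.mem_filter]
            exact ⟨Finset.mem_univ _, cr_of_jn hjx (Finset.mem_singleton_self s) (by
              rw [Finset.mem_singleton]; exact ho.1)⟩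
          rw [← heq, Finset.mem_insert, Finset.mem_insert, Finset.mem_singleton] at h6
          rcases h6 with h6 | h6 | h6
          · exact h6
          · exact absurd (h6 ▸ hJ1) hnj
          · exact absurd (h6 ▸ hJ2) hnj
        · right
          rw [hi] at hjx
          by_contra h6
          exact hnj (hcon2 x (cr_of_jn hjx (Finset.mem_singleton_self w) (by
            rw [Finset.mem_singleton]; exact ho.2)) h6)
    obtain ⟨t, htw, htq, htnj⟩ := ht
    have hte : t ≠ e := by rintro rfl; exact he_w htw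
    -- the other end of `t`
    obtain ⟨w', o, hw', ho, hjt⟩ := exists_jn_of_cr htw
    rw [Finset.mem_singleton] at hw' ho
    rw [hw'] at hjt
    have hos : o ≠ s := by
      rintro rfl
      exact htnj hjt.symm
    have hoX : o ∉ X := by
      intro hoX
      rcases hall t (cr_of_jn hjt.symm hoX hwX) with h1 | h1 | h1
      · exact htq h1
      · subst h1
        rcases hjt.pair hj1 with ⟨h2, -⟩ | ⟨h2, -⟩
        · exact hwX (h2 ▸ hi1X)
        · exact ho1Y (h2 ▸ hoqY)
      · subst h1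
        rcases hjt.pair hj2 with ⟨h2, -⟩ | ⟨h2, -⟩
        · exact hwX (h2 ▸ hi2X)
        · exact ho2Y (h2 ▸ hoqY)
    have hoY : o ∉ Y := by
      intro hoY
      rcases hsub o (Finset.mem_sdiff.2 ⟨hoY, hoX⟩) with h1 | h1
      · exact hos h1
      · exact ho h1
    have htin : ¬ (a t ∈ X ∧ b t ∈ X) := by
      rintro ⟨h1, h2⟩
      rcases hjt with ⟨h4, -⟩ | ⟨-, h4⟩
      · exact hwX (h4 ▸ h1)
      · exact hwX (h4 ▸ h2)
    have htβ : col1 t = some β := hno t htin (cr_of_jn hjt hoqY hoY) hte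
    have hqnone : col1 q = none := by
      refine hS.at_v t q ((cr_single hwX t).2 htw) ((cr_single hwX q).2 hqw) htq ?_ ?_ htβ
      · rw [jn_ctr hsX hwX]; exact htnj
      · rw [jn_ctr hsX hwX]; exact hqnj
    have hq2 : col2 q = some β := by
      refine hsp q hqX hqw hqnone ?_
      intro y hy
      rcases hall y hy with h1 | h1 | h1
      · rw [h1]; exact hqc
      · rw [h1]; exact hp1c
      · rw [h1]; exact hp2c
    -- two edges from the second graph
    have hs2 : Sat Xᶜ (Y ∩ X) := sat_disj (fun w hw => by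
      rw [Finset.mem_compl]; exact fun h => h (Finset.mem_inter.1 hw).2)
    have hu2 : Y ∩ X ≠ univ := by
      intro h1
      have : r ∈ Y ∩ X := by rw [h1]; exact Finset.mem_univ _
      exact hrX (Finset.mem_inter.1 this).2
    obtain ⟨y1, y2, hy12, ⟨hy1, hy1c⟩, ⟨hy2, hy2c⟩⟩ := rem_sat hG2 β hs2 hZ.1 hu2
    have key : ∀ y, Cr a b (Y ∩ X) y → col2 y ≠ some β → a y ∈ X ∧ b y ∈ X := by
      intro y h1 h2
      obtain ⟨i, o, hi, ho, hj⟩ := exists_jn_of_cr h1
      rw [Finset.mem_inter] at hi ho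
      by_cases hoX : o ∈ X
      · rcases hj with ⟨h4, h5⟩ | ⟨h4, h5⟩
        · rw [h4, h5]; exact ⟨hi.2, hoX⟩
        · rw [h4, h5]; exact ⟨hoX, hi.2⟩
      · exfalso
        rcases hall y (cr_of_jn hj hi.2 hoX) with h4 | h4 | h4
        · rw [h4] at h2; exact h2 hq2
        · subst h4
          rcases hj.pair hj1 with ⟨h5, -⟩ | ⟨h5, -⟩
          · exact hi1Y (h5 ▸ hi.1)
          · exact ho1X (h5 ▸ hi.2)
        · subst h4
          rcases hj.pair hj2 with ⟨h5, -⟩ | ⟨h5, -⟩
          · exact hi2Y (h5 ▸ hi.1)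
          · exact ho2X (h5 ▸ hi.2)
    have k1 := key y1 hy1 hy1c
    have k2 := key y2 hy2 hy2c
    apply hcon
    refine ⟨y1, y2, hy12, ⟨hin_cr k1.1 k1.2 hy1, ?_, ?_⟩, ⟨hin_cr k2.1 k2.2 hy2, ?_, ?_⟩⟩
    · rw [if_pos k1]; exact hy1c
    · rintro rfl; exact he_in k1
    · rw [if_pos k2]; exact hy2c
    · rintro rfl; exact he_in k2

end Pool.Agent.H91S
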