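import Pool.Agent.Helper87S.Main

set_option autoImplicit false
set_option linter.unusedSectionVars false

/-!
Exact good ranges of ratio `4 / 3` from a colouring of the 3-edge-connected graphs with seven
removable colours (mirror of the last two theorems of `Pool.Agent.Helper87S.Main`, helper87).
-/

namespace Pool.Agent.H91S

open Finset
open Pool.Agent.Helper879.ECD (F2 IsFlow f2_add_self f2_cases cn)
open Pool.Agent.H126R2.CDC (MGraph)
open Pool.Agent.H126R2.NC (TC InCone InLat InIntCone cone_lat_of_intCone bridgeless_of_cone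
  const_of_tc countP_sum f2_ne cr)
open Pool.Agent.TH399.CC (intCone_add intCone_sum odd_part bdry bdry_card exists_classes)
open Pool.Agent.N411.EC (TEC Col Cr cn_eq)
open Pool.Agent.N411.CV (HasCol colouring_bridgeless)
open Pool.Agent.Helper87S

section graph

variable {V E : Type} [Fintype V] [DecidableEq V] [Fintype E] [DecidableEq E]

/-- spanning 3-edge-connected subgraphs -/
theorem three_span7 (hC : HasCol (Fin 4 ⊕ Fin 3)) (G : MGraph V E) (H : Finset E) (k : ℕ) (hk : Big k) (p : E → ℕ)
    (hH : ∀ B : Finset V, B.Nonempty → B ≠ univ → 3 ≤ (bdry G H B).card)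
    (h1 : ∀ e ∈ H, 6 * k ≤ p e / 2 ∧ p e / 2 ≤ 8 * k)
    (h2 : ∀ e, e ∉ H → p e / 2 ≤ 14 * k) (hlat : InLat G p) : InIntCone G p := by
  classical
  obtain ⟨v, hv⟩ := G.exists_halves
  set a : E → V := fun e => v (e, false) with ha
  set b : E → V := fun e => v (e, true) with hb
  have hbd : ∀ B : Finset V, cn a (sb a b H) univ B = (bdry G H B).card := by
    intro B
    rw [cn_sb, Finset.univ_inter, bdry_card G v hv]
  obtain ⟨col, hcol⟩ := hC V E a (sb a b H) (by
    intro B hB hB2
    rw [hbd]
    exact hH B hB hB2)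
  apply class_cover G H (ι := Fin 4 ⊕ Fin 3)
    (fun i => univ.filter (fun e => col e = i)) 1 k hk p _ _ _ _ hlat
  · intro i B hB hB2
    rw [bdry_card G v hv]
    obtain ⟨e, f, hef, he, hf, h5, h6⟩ := hcol i B hB hB2
    have h7 : ({e, f} : Finset E) ⊆
        (H \ univ.filter (fun e => col e = i)).filter (fun e => ¬ (a e ∈ B ↔ b e ∈ B)) := by
      have h8 : ∀ e, col e ≠ i → Cr a (sb a b H) B e →
          e ∈ (H \ univ.filter (fun e => col e = i)).filter (fun e => ¬ (a e ∈ B ↔ b e ∈ B)) := by
        intro e h9 h10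
        by_cases h11 : e ∈ H
        · rw [Finset.mem_filter, Finset.mem_sdiff, Finset.mem_filter]
          refine ⟨⟨h11, fun h => h9 h.2⟩, ?_⟩
          unfold Cr sb at h10
          rw [if_pos h11] at h10
          exact h10
        · exfalso
          unfold Cr sb at h10
          rw [if_neg h11] at h10
          exact h10 Iff.rfl
      intro x hx
      rw [Finset.mem_insert, Finset.mem_singleton] at hx
      rcases hx with rfl | rfl
      · exact h8 _ he h5
      · exact h8 _ hf h6
    have h9 := Finset.card_le_card h7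
    rw [Finset.card_pair hef] at h9
    exact h9
  · intro e _
    rw [Nat.one_le_iff_ne_zero]
    have h5 : col e ∈ univ.filter (fun i => e ∈ univ.filter (fun e => col e = i)) := by simp
    exact Finset.card_ne_zero_of_mem h5
  · intro e he
    have h5 := h1 e he
    simpa using h5
  · intro e he
    have h5 := h2 e he
    simpa using h5

/-- the interval between `12 k` and `16 k + 1` is a good range -/
theorem good_range7 (hC : HasCol (Fin 4 ⊕ Fin 3)) (G : MGraph V E) (k : ℕ) (hk : Big k) (p : E → ℕ)
    (h1 : ∀ e, 12 * k ≤ p e ∧ p e ≤ 16 * k + 1) : InIntCone G p ↔ InCone G p ∧ InLat G p := by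
  classical
  refine ⟨cone_lat_of_intCone G p, ?_⟩
  rintro ⟨hcone, hlat⟩
  obtain ⟨v, hv⟩ := G.exists_halves
  have hk9 : 9 ≤ k := by
    unfold Big at hk
    omega
  have hbr := bridgeless_of_cone G p hcone (fun e => by have := h1 e; omega)
  obtain ⟨col, hcol1, hcol2⟩ := colouring_bridgeless hC (fun e => v (e, false))
    (fun e => v (e, true)) (G.no_one_cut hbr v hv)
  have h3 : ∀ γ ∈ (univ : Finset (Fin 4 ⊕ Fin 3)), InIntCone G (fun e =>
      if col e = γ then 2 * (p e / 2) - 12 * k else 2 * k) := by
    intro γ _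
    apply sharp_block G v hv (univ.filter (fun e => col e = γ)) (2 * k) hk.mod
    · intro e he f hef
      rw [Finset.mem_filter] at he ⊢
      exact ⟨Finset.mem_univ _, by rw [← hcol1 e f hef]; exact he.2⟩
    · intro X' hX' hcl B
      refine hcol2 X' γ ?_ hcl B
      intro e he
      exact (Finset.mem_filter.1 (hX' he)).2
    · intro e he
      rw [if_neg (fun h => he (Finset.mem_filter.2 ⟨Finset.mem_univ _, h⟩))]
    · intro e he
      rw [if_pos (Finset.mem_filter.1 he).2]
      exact ⟨p e / 2 - 6 * k, by omega⟩
    · intro e he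
      rw [if_pos (Finset.mem_filter.1 he).2]
      have := h1 e
      omega
    · intro e he f hef
      have h4 := (Finset.mem_filter.1 he).2
      rw [if_pos h4, if_pos ((hcol1 e f hef).symm.trans h4), const_of_tc G v hv p hcone hef]
  refine intCone_add G (intCone_sum G univ _ h3) (odd_part G p hlat) ?_
  intro e
  have h4 : ∑ γ : Fin 4 ⊕ Fin 3, (if col e = γ then 2 * (p e / 2) - 12 * k else 2 * k) +
      2 * k = (2 * (p e / 2) - 12 * k) + 14 * k := by
    have h5 : ∀ γ ∈ (univ : Finset (Fin 4 ⊕ Fin 3)),
        (if col e = γ then 2 * (p e / 2) - 12 * k else 2 * k) + (if col e = γ then 2 * k else 0) =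
        2 * k + (if col e = γ then 2 * (p e / 2) - 12 * k else 0) := by
      intro γ _
      by_cases h : col e = γ
      · simp only [h, if_true]; omega
      · simp only [h, if_false]
    have h6 := Finset.sum_congr rfl h5
    rw [Finset.sum_add_distrib, Finset.sum_add_distrib, Finset.sum_ite_eq, Finset.sum_ite_eq] at h6
    simp only [Finset.mem_univ, if_true, Finset.sum_const, Finset.card_univ, Fintype.card_sum,
      Fintype.card_fin, smul_eq_mul] at h6
    omega
  have h5 := h1 e
  have h6 := Nat.div_add_mod (p e) 2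
  show p e = ∑ γ : Fin 4 ⊕ Fin 3,
    (if col e = γ then 2 * (p e / 2) - 12 * k else 2 * k) + p e % 2
  omega

end graph

end Pool.Agent.H91S
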