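import Pool.Agent.H91S.MainP
import Pool.Agent.H91S.Glue2
import Pool.Agent.H91S.Col7
import Pool.Agent.H91S.Ratio
import Pool.Agent.H91S.Sharp7

set_option autoImplicit false

/-!
Assembly: seven removable colours.
-/

namespace Pool.Agent.H91S

open Finset
open Pool.Agent.Helper879.ECD (cn)
open Pool.Agent.N411.EC (TEC Col)
open Pool.Agent.N411.CV (HasCol)

/-- every 3-edge-connected graph has a colouring with seven removable colours -/
theorem hasCol_seven : HasCol (Fin 4 ⊕ Fin 3) :=
  fun W E _ _ _ _ a b h => t_COL7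
    (fun W E _ _ _ _ a b hc h3 r => good_exists_of t_GLUE2 W E a b hc h3 r) W E a b h

section graph

open Pool.Agent.H126R2.CDC (MGraph)
open Pool.Agent.TH399.CC (bdry bdry_card)
open Pool.Agent.N411.EC (Cr cn_eq)

variable {V E : Type} [Fintype V] [DecidableEq V] [Fintype E] [DecidableEq E]

/-- seven classes, for multigraphs -/
theorem seven_classes (G : MGraph V E)
    (h3 : ∀ B : Finset V, B.Nonempty → B ≠ Finset.univ →
      3 ≤ (Finset.univ.filter
        (fun e => (∃ x ∈ G.ends e, x ∈ B) ∧ ∃ x ∈ G.ends e, x ∉ B)).card) :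
    ∃ col : E → Fin 7, ∀ (i : Fin 7) (B : Finset V), B.Nonempty → B ≠ Finset.univ →
      2 ≤ ((Finset.univ.filter (fun e => col e ≠ i)).filter
        (fun e => (∃ x ∈ G.ends e, x ∈ B) ∧ ∃ x ∈ G.ends e, x ∉ B)).card := by
  classical
  obtain ⟨v, hv⟩ := G.exists_halves
  obtain ⟨col, hcol⟩ := hasCol_seven V E (fun e => v (e, false)) (fun e => v (e, true)) (by
    intro B hB hB2
    rw [← bdry_card G v hv]
    exact h3 B hB hB2)
  let φ : Fin 4 ⊕ Fin 3 ≃ Fin 7 := finSumFinEquiv
  refine ⟨fun e => φ (col e), ?_⟩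
  intro i B hB hB2
  have h4 := bdry_card G v hv (Finset.univ.filter (fun e => φ (col e) ≠ i)) B
  unfold bdry at h4
  rw [h4]
  obtain ⟨e, f, hef, he, hf, h5, h6⟩ := hcol (φ.symm i) B hB hB2
  have key : ∀ e, col e ≠ φ.symm i → Cr (fun e => v (e, false)) (fun e => v (e, true)) B e →
      e ∈ (Finset.univ.filter (fun e => φ (col e) ≠ i)).filter
        (fun e => ¬ (v (e, false) ∈ B ↔ v (e, true) ∈ B)) := by
    intro e h7 h8
    rw [Finset.mem_filter, Finset.mem_filter]
    refine ⟨⟨Finset.mem_univ _, ?_⟩, h8⟩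
    intro h9
    apply h7
    rw [← h9, Equiv.symm_apply_apply]
  have h7 : ({e, f} : Finset E) ⊆ (Finset.univ.filter (fun e => φ (col e) ≠ i)).filter
      (fun e => ¬ (v (e, false) ∈ B ↔ v (e, true) ∈ B)) := by
    intro x hx
    rw [Finset.mem_insert, Finset.mem_singleton] at hx
    rcases hx with rfl | rfl
    · exact key _ he h5
    · exact key _ hf h6
  have h9 := Finset.card_le_card h7
  rw [Finset.card_pair hef] at h9
  exact h9

end graph

end Pool.Agent.H91S
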