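import Pool.Agent.H91S.Stm

set_option autoImplicit false
set_option linter.unusedSectionVars false

namespace Pool.Agent.H91S.Glue

open Finset
open Pool.Agent.Helper879.ECD (cn)
open Pool.Agent.N411.EC (TEC Cr Jn Col cr_of_jn exists_jn_of_cr cn_eq)
open Pool.Agent.H91S

variable {W E : Type} [Fintype W] [DecidableEq W] [Fintype E] [DecidableEq E]
variable {a b : E → W}

lemma ctr_in {X : Finset W} {w : W} (h : w ∈ X) : ctr X w = none := dif_pos h

lemma ctr_out {X : Finset W} {w : W} (h : w ∉ X) : ctr X w = some ⟨w, h⟩ := dif_neg h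

lemma ctr_inj {X : Finset W} {w w' : W} (h : w' ∉ X) (h1 : ctr X w = ctr X w') : w = w' := by
  rw [ctr_out h] at h1
  by_cases h2 : w ∈ X
  · rw [ctr_in h2] at h1; simp at h1
  · rw [ctr_out h2] at h1
    have := Option.some.inj h1
    exact congrArg Subtype.val this

/-- saturated sets -/
def Sat (X Z : Finset W) : Prop := ∀ p ∈ X, ∀ q ∈ X, p ∈ Z → q ∈ Z

lemma mem_im {X Z : Finset W} (hs : Sat X Z) (w : W) : ctr X w ∈ Z.image (ctr X) ↔ w ∈ Z := by
  rw [Finset.mem_image]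
  constructor
  · rintro ⟨z, hz, h1⟩
    by_cases h2 : w ∈ X
    · rw [ctr_in h2] at h1
      have h3 : z ∈ X := by
        by_contra h4
        rw [ctr_out h4] at h1
        simp at h1
      exact hs z h3 w h2 hz
    · rw [← ctr_inj h2 h1]; exact hz
  · intro h; exact ⟨w, h, rfl⟩

lemma cr_im {X Z : Finset W} (hs : Sat X Z) (x : E) :
    Cr (fun x => ctr X (a x)) (fun x => ctr X (b x)) (Z.image (ctr X)) x ↔ Cr a b Z x := by
  unfold Cr
  rw [mem_im hs, mem_im hs]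

lemma im_single {X : Finset W} (p : W) : ({p} : Finset W).image (ctr X) = {ctr X p} := by simp

lemma sat_single {X : Finset W} {p : W} (h : p ∉ X) : Sat X {p} := by
  intro q hq _ _ h1
  rw [Finset.mem_singleton] at h1
  exact absurd (h1 ▸ hq) h

lemma sat_disj {X Z : Finset W} (h : ∀ w ∈ Z, w ∉ X) : Sat X Z :=
  fun p hp _ _ h1 => absurd hp (h p h1)

lemma sat_sup {X Z : Finset W} (h : X ⊆ Z) : Sat X Z := fun _ _ _ hq _ => h hq

lemma cr_single {X : Finset W} {p : W} (h : p ∉ X) (x : E) :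
    Cr (fun x => ctr X (a x)) (fun x => ctr X (b x)) {ctr X p} x ↔ Cr a b {p} x := by
  rw [← im_single, cr_im (sat_single h)]

lemma jn_ctr {X : Finset W} {p q : W} (hp : p ∉ X) (hq : q ∉ X) (x : E) :
    Jn (fun x => ctr X (a x)) (fun x => ctr X (b x)) x (ctr X p) (ctr X q) ↔ Jn a b x p q := by
  unfold Jn
  constructor
  · rintro (⟨h1, h2⟩ | ⟨h1, h2⟩)
    · exact Or.inl ⟨ctr_inj hp h1, ctr_inj hq h2⟩
    · exact Or.inr ⟨ctr_inj hq h1, ctr_inj hp h2⟩
  · rintro (⟨h1, h2⟩ | ⟨h1, h2⟩)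
    · left; simp only [h1, h2, and_self]
    · right; simp only [h1, h2, and_self]

/-- an edge crossing a saturated set is not inside `X` -/
lemma not_in {X Z : Finset W} (hs : Sat X Z) {x : E} (h : Cr a b Z x) : ¬ (a x ∈ X ∧ b x ∈ X) := by
  rintro ⟨h1, h2⟩
  exact h ⟨fun h3 => hs _ h1 _ h2 h3, fun h3 => hs _ h2 _ h1 h3⟩

lemma im_ne {X Z : Finset W} (hs : Sat X Z) (h : Z ≠ univ) : Z.image (ctr X) ≠ univ := by
  intro h1
  apply h
  ext w
  simp only [Finset.mem_univ, iff_true]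
  rw [← mem_im hs, h1]; exact Finset.mem_univ _

/-- removal property for saturated sets -/
lemma rem_sat {X : Finset W} {r' : Option {w : W // w ∉ X}} {col : E → Option (Fin 4)}
    (hG : Good (fun x => ctr X (a x)) (fun x => ctr X (b x)) r' col) (κ : Fin 4) {Z : Finset W}
    (hs : Sat X Z) (h1 : Z.Nonempty) (h2 : Z ≠ univ) : Two (fun x => Cr a b Z x ∧ col x ≠ some κ) := by
  obtain ⟨x, y, hxy, hx, hy⟩ := hG.rem κ (Z.image (ctr X)) (h1.image _) (im_ne hs h2)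
  exact ⟨x, y, hxy, ⟨(cr_im hs x).1 hx.1, hx.2⟩, ⟨(cr_im hs y).1 hy.1, hy.2⟩⟩

lemma compl_ne {X : Finset W} (h : X.Nonempty) : Xᶜ ≠ univ := by
  intro h1
  obtain ⟨w, hw⟩ := h
  have : w ∈ Xᶜ := by rw [h1]; exact Finset.mem_univ _
  exact (Finset.mem_compl.1 this) hw

/-- an edge inside `X` -/
lemma inside {X : Finset W} (h3 : cn a b univ X = 3) {col : E → Option (Fin 4)} (κ : Fin 4)
    (hrem : ∀ Z : Finset W, Z ⊆ X → Z.Nonempty → Two (fun x => Cr a b Z x ∧ col x ≠ some κ))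
    {Z : Finset W} (h1 : Z ⊆ X) (h2 : Z.Nonempty) (h4 : Z ≠ X) :
    ∃ x, a x ∈ X ∧ b x ∈ X ∧ Cr a b Z x ∧ col x ≠ some κ := by
  classical
  by_contra hcon
  push Not at hcon
  have h5 : (X \ Z).Nonempty := by
    by_contra h6
    rw [Finset.not_nonempty_iff_eq_empty, Finset.sdiff_eq_empty_iff_subset] at h6
    exact h4 (Finset.Subset.antisymm h1 h6)
  obtain ⟨x, y, hxy, ⟨hx1, hx2⟩, ⟨hy1, hy2⟩⟩ := hrem Z h1 h2
  obtain ⟨x', y', hxy', ⟨hx1', hx2'⟩, ⟨hy1', hy2'⟩⟩ := hrem (X \ Z) Finset.sdiff_subset h5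
  -- ends
  have key : ∀ x, Cr a b Z x → col x ≠ some κ → ∃ p q, p ∈ Z ∧ q ∉ X ∧ Jn a b x p q := by
    intro x h6 h7
    obtain ⟨p, q, hp, hq, hj⟩ := exists_jn_of_cr h6
    refine ⟨p, q, hp, ?_, hj⟩
    intro hqX
    have h8 : a x ∈ X ∧ b x ∈ X := by
      rcases hj with ⟨h8, h9⟩ | ⟨h8, h9⟩
      · rw [h8, h9]; exact ⟨h1 hp, hqX⟩
      · rw [h8, h9]; exact ⟨hqX, h1 hp⟩
    exact h7 (hcon x h8.1 h8.2 h6)
  have key' : ∀ x, Cr a b (X \ Z) x → col x ≠ some κ →
      ∃ p q, p ∈ X ∧ p ∉ Z ∧ q ∉ X ∧ Jn a b x p q := by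
    intro x h6 h7
    obtain ⟨p, q, hp, hq, hj⟩ := exists_jn_of_cr h6
    rw [Finset.mem_sdiff] at hp hq
    refine ⟨p, q, hp.1, hp.2, ?_, hj⟩
    intro hqX
    have hqZ : q ∈ Z := by
      by_contra h8
      exact hq ⟨hqX, h8⟩
    have h8 : a x ∈ X ∧ b x ∈ X := by
      rcases hj with ⟨h8, h9⟩ | ⟨h8, h9⟩
      · rw [h8, h9]; exact ⟨hp.1, hqX⟩
      · rw [h8, h9]; exact ⟨hqX, hp.1⟩
    exact h7 (hcon x h8.1 h8.2 (cr_of_jn hj.symm hqZ hp.2))
  have hcrX : ∀ x, (Cr a b Z x ∧ col x ≠ some κ) ∨ (Cr a b (X \ Z) x ∧ col x ≠ some κ) →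
      Cr a b X x := by
    rintro x (⟨h6, h7⟩ | ⟨h6, h7⟩)
    · obtain ⟨p, q, hp, hq, hj⟩ := key x h6 h7
      exact cr_of_jn hj (h1 hp) hq
    · obtain ⟨p, q, hp, -, hq, hj⟩ := key' x h6 h7
      exact cr_of_jn hj hp hq
  have hdis : ∀ x y, (Cr a b Z x ∧ col x ≠ some κ) → (Cr a b (X \ Z) y ∧ col y ≠ some κ) → x ≠ y := by
    rintro x y ⟨h6, h7⟩ ⟨h8, h9⟩ rfl
    obtain ⟨p, q, hp, hq, hj⟩ := key x h6 h7
    obtain ⟨p', q', hp', hpZ', hq', hj'⟩ := key' x h8 h9
    rcases hj.pair hj' with ⟨h10, -⟩ | ⟨h10, -⟩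
    · exact hpZ' (h10 ▸ hp)
    · exact hq' (h10 ▸ h1 hp)
  have hsub : ({x, y, x', y'} : Finset E) ⊆ univ.filter (fun x => Cr a b X x) := by
    intro z hz
    rw [Finset.mem_insert, Finset.mem_insert, Finset.mem_insert, Finset.mem_singleton] at hz
    rw [Finset.mem_filter]
    refine ⟨Finset.mem_univ _, hcrX z ?_⟩
    rcases hz with rfl | rfl | rfl | rfl
    · exact Or.inl ⟨hx1, hx2⟩
    · exact Or.inl ⟨hy1, hy2⟩
    · exact Or.inr ⟨hx1', hx2'⟩
    · exact Or.inr ⟨hy1', hy2'⟩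
  have hcard := Finset.card_le_card hsub
  rw [cn_eq] at h3
  rw [h3] at hcard
  have h6 : ({x, y, x', y'} : Finset E).card = 4 := by
    have e1 := hdis x x' ⟨hx1, hx2⟩ ⟨hx1', hx2'⟩
    have e2 := hdis x y' ⟨hx1, hx2⟩ ⟨hy1', hy2'⟩
    have e3 := hdis y x' ⟨hy1, hy2⟩ ⟨hx1', hx2'⟩
    have e4 := hdis y y' ⟨hy1, hy2⟩ ⟨hy1', hy2'⟩
    rw [Finset.card_insert_of_notMem, Finset.card_insert_of_notMem,
      Finset.card_insert_of_notMem, Finset.card_singleton] <;> simp [*]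
  omega

lemma cn_compl3 {X : Finset W} (h3 : cn a b univ X = 3) : cn a b univ Xᶜ = 3 := by
  rw [Pool.Agent.Helper879.ECD.cn_compl]; exact h3

section

variable {X : Finset W} {r : W} (hrX : r ∉ X) (hX : X.Nonempty) (h3 : cn a b univ X = 3)
  {col1 col2 : E → Option (Fin 4)}
  (hag : ∀ x, Cr a b X x → col1 x = none ∨ col1 x = col2 x)

/-- the edge inside `X` from the second graph -/
lemma inside2 (hrX : r ∉ X) (h3 : cn a b univ X = 3)
    (hG2 : Good (fun x => ctr Xᶜ (a x)) (fun x => ctr Xᶜ (b x)) none col2) (κ : Fin 4)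
    {Z : Finset W} (h1 : Z ⊆ X) (h2 : Z.Nonempty) (h4 : Z ≠ X) :
    ∃ x, a x ∈ X ∧ b x ∈ X ∧ Cr a b Z x ∧ col2 x ≠ some κ := by
  refine inside h3 κ (fun Z' hZ' hne => rem_sat hG2 κ (sat_disj ?_) hne ?_) h1 h2 h4
  · intro w hw
    rw [Finset.mem_compl]
    exact fun h => h (hZ' hw)
  · rintro rfl
    exact hrX (hZ' (Finset.mem_univ r))

/-- the edge outside `X` from the first graph -/
lemma inside1 {r' : Option {w : W // w ∉ X}} (hX : X.Nonempty) (h3 : cn a b univ X = 3)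
    (hG1 : Good (fun x => ctr X (a x)) (fun x => ctr X (b x)) r' col1) (κ : Fin 4)
    {Z : Finset W} (h1 : Z ⊆ Xᶜ) (h2 : Z.Nonempty) (h4 : Z ≠ Xᶜ) :
    ∃ x, a x ∉ X ∧ b x ∉ X ∧ Cr a b Z x ∧ col1 x ≠ some κ := by
  have hrem : ∀ Z' : Finset W, Z' ⊆ Xᶜ → Z'.Nonempty →
      Two (fun x => Cr a b Z' x ∧ col1 x ≠ some κ) := by
    intro Z' hZ' hne
    refine rem_sat hG1 κ (sat_disj ?_) hne ?_
    · intro w hw
      exact Finset.mem_compl.1 (hZ' hw)
    · rintro rfl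
      obtain ⟨w, hw⟩ := hX
      exact (Finset.mem_compl.1 (hZ' (Finset.mem_univ w))) hw
  obtain ⟨x, h5, h6, h7, h8⟩ := inside (X := Xᶜ) (cn_compl3 h3) κ hrem h1 h2 h4
  exact ⟨x, Finset.mem_compl.1 h5, Finset.mem_compl.1 h6, h7, h8⟩

end

end Pool.Agent.H91S.Glue

namespace Pool.Agent.H91S

open Finset
open Pool.Agent.Helper879.ECD (cn)
open Pool.Agent.N411.EC (TEC Cr Jn Col cr_of_jn exists_jn_of_cr cn_eq)
open Glue

theorem t_GLUE : S_GLUE := by
  intro W E _ _ _ _ a b X r hrX hX h3 col1 col2 hG1 hG2 hag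
  classical
  refine ⟨?_, ?_, ?_⟩
  · intro κ Z hZ1 hZ2
    by_cases hA : Sat X Z
    · obtain ⟨x, y, hxy, hx, hy⟩ := rem_sat hG1 κ hA hZ1 hZ2
      refine ⟨x, y, hxy, ⟨hx.1, ?_⟩, ⟨hy.1, ?_⟩⟩
      · rw [if_neg (not_in hA hx.1)]; exact hx.2
      · rw [if_neg (not_in hA hy.1)]; exact hy.2
    · by_cases hB : Sat Xᶜ Z
      · obtain ⟨x, y, hxy, hx, hy⟩ := rem_sat hG2 κ hB hZ1 hZ2
        have key : ∀ x, Cr a b Z x → col2 x ≠ some κ →
            (if a x ∈ X ∧ b x ∈ X then col2 x else col1 x) ≠ some κ := by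
          intro x h1 h2
          by_cases h4 : a x ∈ X ∧ b x ∈ X
          · rw [if_pos h4]; exact h2
          · rw [if_neg h4]
            have h5 : Cr a b X x := by
              by_contra h6
              unfold Cr at h6
              rw [not_not] at h6
              apply not_in hB h1
              rw [Finset.mem_compl, Finset.mem_compl]
              exact ⟨fun h => h4 ⟨h, h6.1 h⟩, fun h => h4 ⟨h6.2 h, h⟩⟩
            rcases hag x h5 with h6 | h6
            · rw [h6]; simp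
            · rw [h6]; exact h2
        exact ⟨x, y, hxy, ⟨hx.1, key x hx.1 hx.2⟩, ⟨hy.1, key y hy.1 hy.2⟩⟩
      · -- both sides are split
        have hZX : (Z ∩ X).Nonempty ∧ Z ∩ X ≠ X := by
          unfold Sat at hA
          push Not at hA
          obtain ⟨p, hp, q, hq, h1, h2⟩ := hA
          exact ⟨⟨p, Finset.mem_inter.2 ⟨h1, hp⟩⟩, fun h => h2 (by
            have : q ∈ Z ∩ X := by rw [h]; exact hq
            exact (Finset.mem_inter.1 this).1)⟩
        have hZX' : (Z ∩ Xᶜ).Nonempty ∧ Z ∩ Xᶜ ≠ Xᶜ := by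
          unfold Sat at hB
          push Not at hB
          obtain ⟨p, hp, q, hq, h1, h2⟩ := hB
          exact ⟨⟨p, Finset.mem_inter.2 ⟨h1, hp⟩⟩, fun h => h2 (by
            have : q ∈ Z ∩ Xᶜ := by rw [h]; exact hq
            exact (Finset.mem_inter.1 this).1)⟩
        obtain ⟨x, hx1, hx2, hx3, hx4⟩ := inside2 hrX h3 hG2 κ Finset.inter_subset_right hZX.1 hZX.2
        obtain ⟨y, hy1, hy2, hy3, hy4⟩ := inside1 hX h3 hG1 κ Finset.inter_subset_right hZX'.1 hZX'.2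
        refine ⟨x, y, ?_, ⟨?_, ?_⟩, ⟨?_, ?_⟩⟩
        · rintro rfl; exact hy1 hx1
        · unfold Cr at hx3 ⊢
          rw [Finset.mem_inter, Finset.mem_inter] at hx3
          intro h; apply hx3; rw [h]
          exact ⟨fun h5 => ⟨h5.1, hx2⟩, fun h5 => ⟨h5.1, hx1⟩⟩
        · rw [if_pos ⟨hx1, hx2⟩]; exact hx4
        · unfold Cr at hy3 ⊢
          rw [Finset.mem_inter, Finset.mem_inter] at hy3
          intro h; apply hy3; rw [h]
          exact ⟨fun h5 => ⟨h5.1, Finset.mem_compl.2 hy2⟩, fun h5 => ⟨h5.1, Finset.mem_compl.2 hy1⟩⟩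
        · rw [if_neg (fun h => hy1 h.1)]; exact hy4
  · -- connectivity
    intro Y hY hrY hw
    obtain ⟨w, hwY, hwr⟩ := hw
    by_cases hA : Sat X Y
    · obtain ⟨x, hx1, hx2, hx3⟩ := hG1.con (Y.image (ctr X)) (hY.image _)
        (by rw [mem_im hA]; exact hrY)
        ⟨ctr X w, by rw [mem_im hA]; exact hwY, fun h => hwr (ctr_inj hrX h)⟩
      rw [cr_im hA] at hx2
      rw [cr_single hrX] at hx3
      exact ⟨x, by rw [if_neg (not_in hA hx2)]; exact hx1, hx2, hx3⟩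
    · unfold Sat at hA
      push Not at hA
      obtain ⟨p, hp, q, hq, h1, h2⟩ := hA
      have hs : Sat Xᶜ (Y ∩ X) := sat_disj (fun w hw => by
        rw [Finset.mem_compl]; exact fun h => h (Finset.mem_inter.1 hw).2)
      have hnone : ctr Xᶜ r = none := ctr_in (Finset.mem_compl.2 hrX)
      obtain ⟨x, hx1, hx2, hx3⟩ := hG2.con ((Y ∩ X).image (ctr Xᶜ))
        (Finset.Nonempty.image ⟨p, Finset.mem_inter.2 ⟨h1, hp⟩⟩ _)
        (by rw [← hnone, mem_im hs]; exact fun h => hrX (Finset.mem_inter.1 h).2)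
        ⟨ctr Xᶜ q, by rw [mem_im hs]; exact fun h => h2 (Finset.mem_inter.1 h).1, by
          rw [ctr_out (by rw [Finset.mem_compl]; exact fun h => h hq)]; simp⟩
      rw [cr_im hs] at hx2
      have hX' : ¬ Cr a b X x := by
        intro h4
        apply hx3
        unfold Cr at h4 ⊢
        rw [Finset.mem_singleton, Finset.mem_singleton]
        intro h5
        apply h4
        have h6 : ∀ w : W, ctr Xᶜ w = none ↔ w ∉ X := by
          intro w
          constructor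
          · intro h7 h8
            rw [ctr_out (by rw [Finset.mem_compl]; exact fun h => h h8)] at h7
            simp at h7
          · intro h7; exact ctr_in (Finset.mem_compl.2 h7)
        rw [h6, h6] at h5
        exact not_iff_not.1 h5
      unfold Cr at hX'
      rw [not_not] at hX'
      have hin : a x ∈ X ∧ b x ∈ X := by
        by_cases h4 : a x ∈ X
        · exact ⟨h4, hX'.1 h4⟩
        · exfalso
          apply hx2
          rw [Finset.mem_inter, Finset.mem_inter]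
          exact ⟨fun h => absurd h.2 h4, fun h => absurd (hX'.2 h.2) h4⟩
      refine ⟨x, by rw [if_pos hin]; exact hx1, ?_, ?_⟩
      · unfold Cr at hx2 ⊢
        rw [Finset.mem_inter, Finset.mem_inter] at hx2
        intro h; apply hx2; rw [h]
        exact ⟨fun h5 => ⟨h5.1, hin.2⟩, fun h5 => ⟨h5.1, hin.1⟩⟩
      · unfold Cr
        rw [not_not, Finset.mem_singleton, Finset.mem_singleton]
        exact ⟨fun h => absurd (h ▸ hin.1) hrX, fun h => absurd (h ▸ hin.2) hrX⟩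
  · intro x hx
    have h1 := not_in (sat_single hrX) hx
    rw [if_neg h1]
    exact hG1.root x ((cr_single hrX x).2 hx)

end Pool.Agent.H91S
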