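import Pool.Agent.H91S.Stm

set_option autoImplicit false
set_option linter.unusedSectionVars false

namespace Pool.Agent.H91S.Ins

open Finset
open Pool.Agent.Helper879.ECD (cn)
open Pool.Agent.N411.EC (TEC Cr Jn Col cr_of_jn exists_jn_of_cr)
open Pool.Agent.H91S

variable {W E : Type} [Fintype W] [DecidableEq W] [Fintype E] [DecidableEq E]
variable {a b : E → W} {r u v s c d : W} {e g h hc hd : E}

/-- edges joining different pairs are different -/
lemma jn_ne {x y : E} {p q p' q' : W} (h1 : Jn a b x p q) (h2 : Jn a b y p' q')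
    (h3 : ¬ ((p = p' ∧ q = q') ∨ (p = q' ∧ q = p'))) : x ≠ y := by
  rintro rfl
  exact h3 (h1.pair h2)

/-- the restriction of a vertex set -/
def res (u v : W) (X : Finset W) : Finset (Sup u v) := univ.filter (fun w => w.1 ∈ X)

lemma mem_res {X : Finset W} {w : Sup u v} : w ∈ res u v X ↔ w.1 ∈ X := by
  simp [res]

lemma sup_u (r' c' : Sup u v) : sup u v r' c' u = r' := by simp [sup]

lemma sup_v (h : u ≠ v) (r' c' : Sup u v) : sup u v r' c' v = c' := by
  unfold sup; rw [if_neg (Ne.symm h), if_pos rfl]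

lemma sup_w {w : W} (h : w ≠ u ∧ w ≠ v) (r' c' : Sup u v) : sup u v r' c' w = ⟨w, h⟩ := by
  unfold sup; rw [if_neg h.1, if_neg h.2, dif_pos h]

section

variable (hK : Cfg a b r u v s c d e g h hc hd) {r' s' c' d' : Sup u v}
  (hr : r'.1 = r) (hs : s'.1 = s) (hc' : c'.1 = c) (hd' : d'.1 = d)

include hK in
lemma ne_facts : e ≠ g ∧ e ≠ h ∧ e ≠ hc ∧ e ≠ hd ∧ g ≠ h ∧ g ≠ hc ∧ g ≠ hd ∧ h ≠ hc ∧ h ≠ hd ∧
    hc ≠ hd := by
  obtain ⟨je, jg, jh, jc, jd, ru, rv, rs, rc, rd, uv, us, uc, ud, vs, vc, vd, sc, sd, cd, eu, ev⟩ := hK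
  refine ⟨jn_ne je jg ?_, jn_ne je jh ?_, jn_ne je jc ?_, jn_ne je jd ?_, jn_ne jg jh ?_,
    jn_ne jg jc ?_, jn_ne jg jd ?_, jn_ne jh jc ?_, jn_ne jh jd ?_, jn_ne jc jd ?_⟩ <;>
  · rintro (⟨h1, h2⟩ | ⟨h1, h2⟩) <;> simp_all

include hK hr in
/-- the edge `h` in the suppressed graph -/
lemma jn_h (hs : s'.1 = s) : Jn (supE a u v r' c' g) (supE b u v r' c' g) h r' s' := by
  have hne := ne_facts hK
  have h1 : sup u v r' c' s = s' := by
    rw [sup_w (w := s) ⟨Ne.symm hK.us, Ne.symm hK.vs⟩]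
    exact Subtype.ext hs.symm
  have h2 := sup_u r' c'
  unfold Jn supE
  rw [if_neg (Ne.symm hne.2.2.2.2.1), if_neg (Ne.symm hne.2.2.2.2.1)]
  rcases hK.jh with ⟨h3, h4⟩ | ⟨h3, h4⟩
  · left; rw [h3, h4]; exact ⟨h2, h1⟩
  · right; rw [h3, h4]; exact ⟨h1, h2⟩

include hK in
/-- the edge `hd` in the suppressed graph -/
lemma jn_hd (hd' : d'.1 = d) : Jn (supE a u v r' c' g) (supE b u v r' c' g) hd c' d' := by
  have hne := ne_facts hK
  have h1 : sup u v r' c' d = d' := by
    rw [sup_w (w := d) ⟨Ne.symm hK.ud, Ne.symm hK.vd⟩]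
    exact Subtype.ext hd'.symm
  have h2 := sup_v hK.uv r' c'
  unfold Jn supE
  rw [if_neg (Ne.symm hne.2.2.2.2.2.2.1), if_neg (Ne.symm hne.2.2.2.2.2.2.1)]
  rcases hK.jd with ⟨h3, h4⟩ | ⟨h3, h4⟩
  · left; rw [h3, h4]; exact ⟨h2, h1⟩
  · right; rw [h3, h4]; exact ⟨h1, h2⟩

/-- `g` crosses nothing -/
lemma ncr_g (X : Finset (Sup u v)) : ¬ Cr (supE a u v r' c' g) (supE b u v r' c' g) X g := by
  unfold Cr supE
  rw [if_pos rfl, if_pos rfl]; simp

include hK hr in
/-- `e` crosses nothing -/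
lemma ncr_e (X : Finset (Sup u v)) : ¬ Cr (supE a u v r' c' g) (supE b u v r' c' g) X e := by
  have hne := ne_facts hK
  have h1 : sup u v r' c' r = r' := by
    rw [sup_w (w := r) ⟨hK.ru, hK.rv⟩]
    exact Subtype.ext hr.symm
  have h2 := sup_u r' c'
  unfold Cr supE
  rw [if_neg hne.1, if_neg hne.1]
  rcases hK.je with ⟨h3, h4⟩ | ⟨h3, h4⟩
  · rw [h3, h4, h1, h2]; simp
  · rw [h3, h4, h1, h2]; simp

include hK in
/-- `hc` crosses nothing -/
lemma ncr_hc (hc' : c'.1 = c) (X : Finset (Sup u v)) :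
    ¬ Cr (supE a u v r' c' g) (supE b u v r' c' g) X hc := by
  have hne := ne_facts hK
  have h1 : sup u v r' c' c = c' := by
    rw [sup_w (w := c) ⟨Ne.symm hK.uc, Ne.symm hK.vc⟩]
    exact Subtype.ext hc'.symm
  have h2 := sup_v hK.uv r' c'
  unfold Cr supE
  rw [if_neg (Ne.symm hne.2.2.2.2.2.1), if_neg (Ne.symm hne.2.2.2.2.2.1)]
  rcases hK.jc with ⟨h3, h4⟩ | ⟨h3, h4⟩
  · rw [h3, h4, h1, h2]; simp
  · rw [h3, h4, h1, h2]; simp

include hK in
/-- the other edges -/
lemma cr_other {x : E} (h1 : x ≠ e) (h2 : x ≠ g) (h3 : x ≠ h) (h4 : x ≠ hc) (h5 : x ≠ hd)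
    (X : Finset W) :
    Cr (supE a u v r' c' g) (supE b u v r' c' g) (res u v X) x ↔ Cr a b X x := by
  have hu : ¬ Cr a b {u} x := fun h6 => by
    rcases hK.eu x h6 with h | h | h <;> contradiction
  have hv : ¬ Cr a b {v} x := fun h6 => by
    rcases hK.ev x h6 with h | h | h <;> contradiction
  unfold Cr at hu hv
  rw [not_not, Finset.mem_singleton, Finset.mem_singleton] at hu hv
  unfold Cr supE
  rw [if_neg h2, if_neg h2]
  by_cases hau : a x = u
  · have hbu := hu.1 hau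
    rw [hau, hbu]; simp
  · have hbu : b x ≠ u := fun h6 => hau (hu.2 h6)
    by_cases hav : a x = v
    · have hbv := hv.1 hav
      rw [hav, hbv]; simp
    · have hbv : b x ≠ v := fun h6 => hav (hv.2 h6)
      rw [sup_w ⟨hau, hav⟩, sup_w ⟨hbu, hbv⟩, mem_res, mem_res]

end

lemma exists_alpha (β γ : Fin 4) (φ : Option (Fin 4)) : ∃ α : Fin 4, α ≠ β ∧ α ≠ γ ∧ some α ≠ φ := by
  revert β γ φ; decide

/-- the new colouring, `ℓ` loses its colour and `k` keeps the colour `φ` of `hd` -/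
def newcol (g e l k : E) (α β : Fin 4) (φ : Option (Fin 4)) (col : E → Option (Fin 4)) (x : E) :
    Option (Fin 4) :=
  if x = g then some α else if x = e then some β else if x = l then none else if x = k then φ
    else col x

section Main

variable (hK : Cfg a b r u v s c d e g h hc hd) {r' s' c' d' : Sup u v}
  (hr : r'.1 = r) (hs : s'.1 = s) (hc' : c'.1 = c) (hd' : d'.1 = d)

include hK hr hs hc' hd' in
/-- the connectivity after the insertion -/
lemma con_core {col : E → Option (Fin 4)} {col' : E → Option (Fin 4)} {l k : E} {cl ck : W}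
    (hG : Good (supE a u v r' c' g) (supE b u v r' c' g) r' col)
    (hlk : (l = hc ∧ k = hd ∧ cl = c ∧ ck = d) ∨ (l = hd ∧ k = hc ∧ cl = d ∧ ck = c))
    (hcon : ∀ Y : Finset (Sup u v), r' ∉ Y → s' ∈ Y → (∃ w, w ∉ Y ∧ w ≠ r') →
      (∀ x, col x ≠ none → Cr (supE a u v r' c' g) (supE b u v r' c' g) Y x →
        ¬ Cr (supE a u v r' c' g) (supE b u v r' c' g) {r'} x → x = hd) →
      (∀ w : Sup u v, w.1 = cl → w ∈ Y) ∧ (∀ w : Sup u v, w.1 = ck → w ∉ Y))
    (cg : col' g ≠ none) (ch : col' h ≠ none) (ck' : col' k = col hd)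
    (cx : ∀ {x : E}, x ≠ g → x ≠ e → x ≠ hc → x ≠ hd → col' x = col x)
    (Y : Finset W) (hY : Y.Nonempty) (hrY : r ∉ Y) (hw : ∃ w, w ∉ Y ∧ w ≠ r) :
    ∃ x, col' x ≠ none ∧ Cr a b Y x ∧ ¬ Cr a b {r} x := by
  classical
  obtain ⟨w0, hw0, hw0r⟩ := hw
  have jh' := jn_h (r' := r') (s' := s') (c' := c') hK hr hs
  have jd' := jn_hd (r' := r') (c' := c') (d' := d') hK hd'
  by_cases h1 : u ∈ Y ↔ v ∈ Y
  swap
  · refine ⟨g, cg, (hK.jg.cr Y).2 h1, ?_⟩
    rw [hK.jg.ncr, Finset.mem_singleton, Finset.mem_singleton]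
    exact ⟨fun h => absurd h.symm hK.ru, fun h => absurd h.symm hK.rv⟩
  by_cases h2 : u ∈ Y ↔ s ∈ Y
  swap
  · refine ⟨h, ch, (hK.jh.cr Y).2 h2, ?_⟩
    rw [hK.jh.ncr, Finset.mem_singleton, Finset.mem_singleton]
    exact ⟨fun h => absurd h.symm hK.ru, fun h => absurd h.symm hK.rs⟩
  have hr'Y : r' ∉ res u v Y := by rw [mem_res, hr]; exact hrY
  have hsr : s' ≠ r' := by
    rintro rfl
    exact hK.rs (hr.symm.trans hs)
  have hne1 : (res u v Y).Nonempty := by
    by_cases hsY : s ∈ Y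
    · exact ⟨s', by rw [mem_res, hs]; exact hsY⟩
    · obtain ⟨w, hw⟩ := hY
      have hu : u ∉ Y := fun h => hsY (h2.1 h)
      have hv : v ∉ Y := fun h => hu (h1.2 h)
      exact ⟨⟨w, fun h => hu (h ▸ hw), fun h => hv (h ▸ hw)⟩, mem_res.2 hw⟩
  have hex1 : ∃ w, w ∉ res u v Y ∧ w ≠ r' := by
    by_cases hsY : s ∈ Y
    · have hu : u ∈ Y := h2.2 hsY
      have hv : v ∈ Y := h1.1 hu
      refine ⟨⟨w0, fun h => hw0 (h ▸ hu), fun h => hw0 (h ▸ hv)⟩, fun h => hw0 (mem_res.1 h), ?_⟩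
      intro h
      apply hw0r
      rw [← hr, ← h]
    · exact ⟨s', by rw [mem_res, hs]; exact hsY, hsr⟩
  have hcr_r : ∀ {x : E}, x ≠ e → x ≠ g → x ≠ h → x ≠ hc → x ≠ hd →
      (Cr (supE a u v r' c' g) (supE b u v r' c' g) {r'} x ↔ Cr a b {r} x) := by
    intro x h1 h2 h3 h4 h5
    have h6 : res u v {r} = {r'} := by
      ext w
      rw [mem_res, Finset.mem_singleton, Finset.mem_singleton]
      constructor
      · intro h7; exact Subtype.ext (h7.trans hr.symm)
      · rintro rfl; exact hr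
    rw [← h6]
    exact cr_other hK h1 h2 h3 h4 h5 {r}
  by_cases hex : ∃ x, col x ≠ none ∧ Cr (supE a u v r' c' g) (supE b u v r' c' g) (res u v Y) x ∧
      ¬ Cr (supE a u v r' c' g) (supE b u v r' c' g) {r'} x ∧ x ≠ hd
  · obtain ⟨x, hx1, hx2, hx3, hx4⟩ := hex
    have k1 : x ≠ e := by rintro rfl; exact ncr_e hK hr _ hx2
    have k2 : x ≠ g := by rintro rfl; exact ncr_g _ hx2
    have k3 : x ≠ hc := by rintro rfl; exact ncr_hc hK hc' _ hx2
    have k4 : x ≠ h := by
      rintro rfl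
      apply hx3
      rw [jh'.cr, Finset.mem_singleton, Finset.mem_singleton]
      intro h
      exact hsr (h.1 rfl)
    refine ⟨x, by rw [cx k2 k1 k3 hx4]; exact hx1, (cr_other hK k1 k2 k4 k3 hx4 Y).1 hx2, ?_⟩
    rw [← hcr_r k1 k2 k4 k3 hx4]; exact hx3
  · push Not at hex
    obtain ⟨x, hx1, hx2, hx3⟩ := hG.con _ hne1 hr'Y hex1
    have hxd := hex x hx1 hx2 hx3
    rw [hxd] at hx1 hx2
    have hlr : ck ≠ r ∧ ck ≠ u ∧ ck ≠ v ∧ cl ≠ u ∧ cl ≠ v := by
      rcases hlk with ⟨-, -, h3, h4⟩ | ⟨-, -, h3, h4⟩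
      · rw [h3, h4]
        exact ⟨Ne.symm hK.rd, Ne.symm hK.ud, Ne.symm hK.vd, Ne.symm hK.uc, Ne.symm hK.vc⟩
      · rw [h3, h4]
        exact ⟨Ne.symm hK.rc, Ne.symm hK.uc, Ne.symm hK.vc, Ne.symm hK.ud, Ne.symm hK.vd⟩
    have jk : Jn a b k v ck := by
      rcases hlk with ⟨-, h2, -, h4⟩ | ⟨-, h2, -, h4⟩
      · rw [h2, h4]; exact hK.jd
      · rw [h2, h4]; exact hK.jc
    have hfin : (ck ∈ Y ↔ s ∉ Y) := by
      by_cases hsY : s ∈ Y
      · have h3 := hcon (res u v Y) hr'Y (by rw [mem_res, hs]; exact hsY) hex1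
          (fun x h1 h2 h3 => hex x h1 h2 h3)
        have h4 := h3.2 ⟨ck, hlr.2.1, hlr.2.2.1⟩ rfl
        rw [mem_res] at h4
        exact ⟨fun h => absurd h h4, fun h => absurd hsY h⟩
      · have h3 := hcon ((res u v Y)ᶜ.erase r') (by simp) (by
            rw [Finset.mem_erase, Finset.mem_compl, mem_res, hs]
            exact ⟨hsr, hsY⟩) (by
            obtain ⟨w, hw⟩ := hne1
            refine ⟨w, ?_, ?_⟩
            · rw [Finset.mem_erase, Finset.mem_compl]
              exact fun h => h.2 hw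
            · rintro rfl
              exact hr'Y hw) (by
            intro x h1 h2 h3
            apply hex x h1 ?_ h3
            unfold Cr at h2 h3 ⊢
            rw [Finset.mem_erase, Finset.mem_erase, Finset.mem_compl, Finset.mem_compl] at h2
            rw [Finset.mem_singleton, Finset.mem_singleton, not_not] at h3
            intro h4
            apply h2
            rw [h4]
            constructor
            · rintro ⟨h5, h6⟩; exact ⟨fun h7 => h5 (h3.2 h7), h6⟩
            · rintro ⟨h5, h6⟩; exact ⟨fun h7 => h5 (h3.1 h7), h6⟩)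
        have h4 := h3.2 ⟨ck, hlr.2.1, hlr.2.2.1⟩ rfl
        rw [Finset.mem_erase, Finset.mem_compl, mem_res] at h4
        constructor
        · intro _; exact hsY
        · intro _
          by_contra h5
          apply h4
          refine ⟨?_, h5⟩
          intro h6
          apply hlr.1
          rw [← hr, ← h6]
    refine ⟨k, by rw [ck']; exact hx1, ?_, ?_⟩
    · rw [jk.cr]
      intro h3
      have h4 : s ∈ Y ↔ s ∉ Y := h2.symm.trans (h1.trans (h3.trans hfin))
      exact (iff_not_self h4)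
    · rw [jk.ncr, Finset.mem_singleton, Finset.mem_singleton]
      exact ⟨fun h => absurd h.symm hK.rv, fun h => absurd h hlr.1⟩

include hK hr hs hc' hd' in
/-- the insertion step, after the choice of the edge `l` which loses its colour -/
lemma core {α β γ : Fin 4} {col : E → Option (Fin 4)}
    (hG : Good (supE a u v r' c' g) (supE b u v r' c' g) r' col) (hγ : col h = some γ)
    (hβγ : γ ≠ β) (hαβ : α ≠ β) (hαγ : α ≠ γ) (hαφ : some α ≠ col hd)
    (hsp : ∀ X : Finset (Sup u v), s' ∈ X → r' ∉ X → (c' ∈ X ∨ d' ∈ X) →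
      Two (fun x => Cr (supE a u v r' c' g) (supE b u v r' c' g) X x ∧ col x ≠ some β ∧ x ≠ h))
    {l k : E} {cl ck : W} (hlk : (l = hc ∧ k = hd ∧ cl = c ∧ ck = d) ∨
      (l = hd ∧ k = hc ∧ cl = d ∧ ck = c))
    (hcon : ∀ Y : Finset (Sup u v), r' ∉ Y → s' ∈ Y → (∃ w, w ∉ Y ∧ w ≠ r') →
      (∀ x, col x ≠ none → Cr (supE a u v r' c' g) (supE b u v r' c' g) Y x →
        ¬ Cr (supE a u v r' c' g) (supE b u v r' c' g) {r'} x → x = hd) →
      (∀ w : Sup u v, w.1 = cl → w ∈ Y) ∧ (∀ w : Sup u v, w.1 = ck → w ∉ Y)) :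
    Strong a b r u v e γ (newcol g e l k α β (col hd) col) := by
  classical
  have hne := ne_facts hK
  obtain ⟨neg', neh, nehc, nehd, ngh, nghc, nghd, nhhc, nhhd, nhchd⟩ := hne
  set a' := supE a u v r' c' g with ha'
  set b' := supE b u v r' c' g with hb'
  have jh' : Jn a' b' h r' s' := jn_h hK hr hs
  have jd' : Jn a' b' hd c' d' := jn_hd hK hd'
  have hother : ∀ {x : E}, x ≠ e → x ≠ g → x ≠ h → x ≠ hc → x ≠ hd → ∀ X : Finset W,
      (Cr a' b' (res u v X) x ↔ Cr a b X x) := fun h1 h2 h3 h4 h5 X => cr_other hK h1 h2 h3 h4 h5 X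
  have hne3 : ∀ {x : E} {X : Finset (Sup u v)}, Cr a' b' X x → x ≠ e ∧ x ≠ g ∧ x ≠ hc := by
    intro x X hx
    refine ⟨?_, ?_, ?_⟩
    · rintro rfl; exact ncr_e hK hr X hx
    · rintro rfl; exact ncr_g X hx
    · rintro rfl; exact ncr_hc hK hc' X hx
  -- the edges `l`, `k`
  have hl_ne : l ≠ g ∧ l ≠ e ∧ l ≠ h ∧ k ≠ g ∧ k ≠ e ∧ k ≠ h ∧ l ≠ k := by
    rcases hlk with ⟨rfl, rfl, -, -⟩ | ⟨rfl, rfl, -, -⟩
    · exact ⟨Ne.symm nghc, Ne.symm nehc, Ne.symm nhhc, Ne.symm nghd, Ne.symm nehd, Ne.symm nhhd,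
        nhchd⟩
    · exact ⟨Ne.symm nghd, Ne.symm nehd, Ne.symm nhhd, Ne.symm nghc, Ne.symm nehc, Ne.symm nhhc,
        Ne.symm nhchd⟩
  obtain ⟨lg, le, lh, kg, ke, kh, lk⟩ := hl_ne
  have jl : Jn a b l v cl := by
    rcases hlk with ⟨rfl, rfl, rfl, rfl⟩ | ⟨rfl, rfl, rfl, rfl⟩
    · exact hK.jc
    · exact hK.jd
  have jk : Jn a b k v ck := by
    rcases hlk with ⟨rfl, rfl, rfl, rfl⟩ | ⟨rfl, rfl, rfl, rfl⟩
    · exact hK.jd
    · exact hK.jc
  have hclne : cl ≠ u ∧ cl ≠ v ∧ cl ≠ r ∧ ck ≠ u ∧ ck ≠ v ∧ ck ≠ r := by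
    rcases hlk with ⟨rfl, rfl, rfl, rfl⟩ | ⟨rfl, rfl, rfl, rfl⟩
    · exact ⟨Ne.symm hK.uc, Ne.symm hK.vc, Ne.symm hK.rc, Ne.symm hK.ud, Ne.symm hK.vd,
        Ne.symm hK.rd⟩
    · exact ⟨Ne.symm hK.ud, Ne.symm hK.vd, Ne.symm hK.rd, Ne.symm hK.uc, Ne.symm hK.vc,
        Ne.symm hK.rc⟩
  obtain ⟨clu, clv, clr, cku, ckv, ckr⟩ := hclne
  have hoth : ∀ {x : E}, x ≠ l → x ≠ k → x ≠ hc ∧ x ≠ hd := by
    intro x h1 h2
    rcases hlk with ⟨rfl, rfl, rfl, rfl⟩ | ⟨rfl, rfl, rfl, rfl⟩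
    · exact ⟨h1, h2⟩
    · exact ⟨h2, h1⟩
  have hoth' : ∀ {x : E}, x ≠ hc → x ≠ hd → x ≠ l ∧ x ≠ k := by
    intro x h1 h2
    rcases hlk with ⟨rfl, rfl, rfl, rfl⟩ | ⟨rfl, rfl, rfl, rfl⟩
    · exact ⟨h1, h2⟩
    · exact ⟨h2, h1⟩
  have hlk_hd : ∀ X : Finset W, Cr a' b' (res u v X) hd ↔ ¬ (cl ∈ X ↔ ck ∈ X) := by
    intro X
    rw [jd'.cr, mem_res, mem_res, hc', hd']
    rcases hlk with ⟨-, -, h3, h4⟩ | ⟨-, -, h3, h4⟩
    · rw [h3, h4]
    · rw [h3, h4, Iff.comm (a := d ∈ X)]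
  -- the colours
  set col' := newcol g e l k α β (col hd) col with hcol'
  have cg : col' g = some α := by rw [hcol']; unfold newcol; rw [if_pos rfl]
  have ce : col' e = some β := by rw [hcol']; unfold newcol; rw [if_neg neg', if_pos rfl]
  have cl' : col' l = none := by
    rw [hcol']; unfold newcol; rw [if_neg lg, if_neg le, if_pos rfl]
  have ck' : col' k = col hd := by
    rw [hcol']; unfold newcol; rw [if_neg kg, if_neg ke, if_neg (Ne.symm lk), if_pos rfl]
  have ch : col' h = some γ := by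
    rw [hcol']; unfold newcol
    rw [if_neg (Ne.symm ngh), if_neg (Ne.symm neh), if_neg (Ne.symm lh), if_neg (Ne.symm kh), hγ]
  have cx : ∀ {x : E}, x ≠ g → x ≠ e → x ≠ hc → x ≠ hd → col' x = col x := by
    intro x h1 h2 h3 h4
    obtain ⟨h5, h6⟩ := hoth' h3 h4
    rw [hcol']; unfold newcol; rw [if_neg h1, if_neg h2, if_neg h5, if_neg h6]
  -- transfer of one edge other than `h`
  have tr1 : ∀ (κ : Fin 4) (X : Finset W) (x : E), Cr a' b' (res u v X) x → col x ≠ some κ → x ≠ h →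
      ∃ y, Cr a b X y ∧ col' y ≠ some κ ∧ y ≠ e ∧ y ≠ g ∧ y ≠ h ∧
        (x ≠ hd → y = x) ∧ (x = hd → y = l ∨ y = k) := by
    intro κ X x hx hκ hxh
    obtain ⟨h1, h2, h3⟩ := hne3 hx
    by_cases h4 : x = hd
    · subst h4
      have h5 := (hlk_hd X).1 hx
      by_cases h6 : v ∈ X ↔ cl ∈ X
      · refine ⟨k, ?_, ?_, ke, kg, kh, fun h => absurd rfl h, fun _ => Or.inr rfl⟩
        · exact (jk.cr X).2 fun h7 => h5 (h6.symm.trans h7)
        · rw [ck']; exact hκ
      · refine ⟨l, ?_, ?_, le, lg, lh, fun h => absurd rfl h, fun _ => Or.inl rfl⟩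
        · rw [jl.cr]; exact h6
        · rw [cl']; simp
    · refine ⟨x, (hother h1 h2 hxh h3 h4 X).1 hx, ?_, h1, h2, hxh, fun _ => rfl,
        fun h => absurd h h4⟩
      rw [cx h2 h1 h3 h4]; exact hκ
  have tr2 : ∀ (κ : Fin 4) (X : Finset W),
      Two (fun x => Cr a' b' (res u v X) x ∧ col x ≠ some κ ∧ x ≠ h) →
      Two (fun x => Cr a b X x ∧ col' x ≠ some κ ∧ x ≠ e ∧ x ≠ g ∧ x ≠ h) := by
    rintro κ X ⟨x, y, hxy, ⟨hx1, hx2, hx3⟩, ⟨hy1, hy2, hy3⟩⟩
    obtain ⟨x2, h1, h2, h3, h4, h5, h6, h7⟩ := tr1 κ X x hx1 hx2 hx3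
    obtain ⟨y2, k1, k2, k3, k4, k5, k6, k7⟩ := tr1 κ X y hy1 hy2 hy3
    refine ⟨x2, y2, ?_, ⟨h1, h2, h3, h4, h5⟩, ⟨k1, k2, k3, k4, k5⟩⟩
    by_cases hxd : x = hd
    · have hyd : y ≠ hd := fun h => hxy (hxd.trans h.symm)
      have h8 := k6 hyd
      have h9 := hne3 hy1
      have h10 := hoth' h9.2.2 hyd
      rcases h7 hxd with h11 | h11
      · rw [h11, h8]; exact Ne.symm h10.1
      · rw [h11, h8]; exact Ne.symm h10.2
    · have h8 := h6 hxd
      by_cases hyd : y = hd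
      · have h9 := hne3 hx1
        have h10 := hoth' h9.2.2 hxd
        rcases k7 hyd with h11 | h11
        · rw [h11, h8]; exact h10.1
        · rw [h11, h8]; exact h10.2
      · rw [h8, k6 hyd]; exact hxy
  have hr'r : ∀ X : Finset W, (r' ∈ res u v X ↔ r ∈ X) := fun X => by rw [mem_res, hr]
  have hs's : ∀ X : Finset W, (s' ∈ res u v X ↔ s ∈ X) := fun X => by rw [mem_res, hs]
  -- the edges at `r` in the small graph
  have hcr_r : ∀ {x : E}, x ≠ e → x ≠ g → x ≠ h → x ≠ hc → x ≠ hd →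
      (Cr a' b' {r'} x ↔ Cr a b {r} x) := by
    intro x h1 h2 h3 h4 h5
    have h6 : res u v {r} = {r'} := by
      ext w
      rw [mem_res, Finset.mem_singleton, Finset.mem_singleton]
      constructor
      · intro h7; exact Subtype.ext (h7.trans hr.symm)
      · rintro rfl; exact hr
    rw [← h6]
    exact hother h1 h2 h3 h4 h5 {r}
  -- the removal property for sets without `r`
  have rem0 : ∀ (κ : Fin 4) (X : Finset W), X.Nonempty → r ∉ X →
      Two (fun x => Cr a b X x ∧ col' x ≠ some κ) := by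
    intro κ X hX hrX
    by_cases hX' : (res u v X).Nonempty
    · have hrX' : r' ∉ res u v X := fun h => hrX ((hr'r X).1 h)
      have hX'u : res u v X ≠ univ := fun h => hrX' (h ▸ Finset.mem_univ _)
      by_cases htwo : Two (fun x => Cr a' b' (res u v X) x ∧ col x ≠ some κ ∧ x ≠ h)
      · obtain ⟨x, y, hxy, hx, hy⟩ := tr2 κ X htwo
        exact ⟨x, y, hxy, ⟨hx.1, hx.2.1⟩, ⟨hy.1, hy.2.1⟩⟩
      · obtain ⟨x, y, hxy, ⟨hx1, hx2⟩, ⟨hy1, hy2⟩⟩ := hG.rem κ _ hX' hX'u
        -- one of them is `h`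
        have hz : ∃ z, Cr a' b' (res u v X) z ∧ col z ≠ some κ ∧ z ≠ h ∧
            Cr a' b' (res u v X) h ∧ col h ≠ some κ := by
          by_cases h1 : x = h
          · subst h1
            exact ⟨y, hy1, hy2, Ne.symm hxy, hx1, hx2⟩
          · by_cases h2 : y = h
            · subst h2
              exact ⟨x, hx1, hx2, h1, hy1, hy2⟩
            · exact absurd ⟨x, y, hxy, ⟨hx1, hx2, h1⟩, ⟨hy1, hy2, h2⟩⟩ htwo
        obtain ⟨z, hz1, hz2, hz3, hh1, hh2⟩ := hz
        have hsX : s ∈ X := by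
          rw [jh'.cr, hr'r, hs's] at hh1
          by_contra h9
          exact hh1 ⟨fun h => absurd h hrX, fun h => absurd h h9⟩
        obtain ⟨y2, k1, k2, k3, k4, k5, k6, k7⟩ := tr1 κ X z hz1 hz2 hz3
        by_cases huX : u ∈ X
        · by_cases hκβ : κ = β
          · subst hκβ
            have hcd : c ∉ X ∧ d ∉ X := by
              by_contra hcon2
              apply htwo
              apply hsp _ ((hs's X).2 hsX) hrX'
              rw [mem_res, mem_res, hc', hd']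
              by_contra h9
              push Not at h9
              exact hcon2 h9
            have hzd : z ≠ hd := by
              rintro rfl
              rw [jd'.cr, mem_res, mem_res, hc', hd'] at hz1
              exact hz1 ⟨fun h => absurd h hcd.1, fun h => absurd h hcd.2⟩
            have h8 := k6 hzd
            obtain ⟨h9, h10, h11⟩ := hne3 hz1
            by_cases hvX : v ∈ X
            · have h12 := hoth' h11 hzd
              refine ⟨y2, l, ?_, ⟨k1, k2⟩, ⟨?_, ?_⟩⟩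
              · rw [h8]; exact h12.1
              · have : cl ∉ X := by
                  rcases hlk with ⟨-, -, h, -⟩ | ⟨-, -, h, -⟩
                  · rw [h]; exact hcd.1
                  · rw [h]; exact hcd.2
                exact cr_of_jn jl hvX this
              · rw [cl']; simp
            · refine ⟨y2, g, k4, ⟨k1, k2⟩, ⟨?_, ?_⟩⟩
              · exact cr_of_jn hK.jg huX hvX
              · rw [cg]
                intro h; exact hαβ (Option.some.inj h)
          · refine ⟨y2, e, k3, ⟨k1, k2⟩, ⟨?_, ?_⟩⟩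
            · exact cr_of_jn hK.je.symm huX hrX
            · rw [ce]
              intro h; exact hκβ (Option.some.inj h).symm
        · refine ⟨y2, h, k5, ⟨k1, k2⟩, ⟨?_, ?_⟩⟩
          · exact cr_of_jn hK.jh.symm hsX huX
          · rw [ch, ← hγ]; exact hh2
    · -- `X` is contained in `{u, v}`
      have hsub : ∀ w ∈ X, w = u ∨ w = v := by
        intro w hw
        by_contra hcon2
        push Not at hcon2
        exact hX' ⟨⟨w, hcon2⟩, mem_res.2 hw⟩
      have hclX : cl ∉ X := fun h => by rcases hsub _ h with h | h <;> contradiction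
      have hckX : ck ∉ X := fun h => by rcases hsub _ h with h | h <;> contradiction
      have hsX : s ∉ X := fun h => by
        rcases hsub _ h with h | h
        · exact hK.us h.symm
        · exact hK.vs h.symm
      by_cases hvX : v ∈ X
      · have hl : Cr a b X l ∧ col' l ≠ some κ := by
          refine ⟨?_, by rw [cl']; simp⟩
          exact cr_of_jn jl hvX hclX
        by_cases huX : u ∈ X
        · by_cases hκβ : κ = β
          · refine ⟨l, h, lh, hl, ?_, ?_⟩
            · exact cr_of_jn hK.jh huX hsX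
            · rw [ch, hκβ]
              intro h; exact hβγ (Option.some.inj h)
          · refine ⟨l, e, le, hl, ?_, ?_⟩
            · exact cr_of_jn hK.je.symm huX hrX
            · rw [ce]
              intro h; exact hκβ (Option.some.inj h).symm
        · by_cases hκα : κ = α
          · refine ⟨l, k, lk, hl, ?_, ?_⟩
            · exact cr_of_jn jk hvX hckX
            · rw [ck', hκα]; exact Ne.symm hαφ
          · refine ⟨l, g, lg, hl, ?_, ?_⟩
            · exact cr_of_jn hK.jg.symm hvX huX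
            · rw [cg]
              intro h; exact hκα (Option.some.inj h).symm
      · have huX : u ∈ X := by
          obtain ⟨w, hw⟩ := hX
          rcases hsub w hw with h | h
          · rw [← h]; exact hw
          · exact absurd (h ▸ hw) hvX
        have h1 : Cr a b X e := cr_of_jn hK.je.symm huX hrX
        have h2 : Cr a b X g := cr_of_jn hK.jg huX hvX
        have h3 : Cr a b X h := cr_of_jn hK.jh huX hsX
        by_cases hκα : κ = α
        · refine ⟨e, h, neh, ⟨h1, ?_⟩, ⟨h3, ?_⟩⟩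
          · rw [ce, hκα]; intro h; exact hαβ (Option.some.inj h).symm
          · rw [ch, hκα]; intro h; exact hαγ (Option.some.inj h).symm
        · by_cases hκβ : κ = β
          · refine ⟨g, h, ngh, ⟨h2, ?_⟩, ⟨h3, ?_⟩⟩
            · rw [cg]; intro h; exact hκα (Option.some.inj h).symm
            · rw [ch, hκβ]; intro h; exact hβγ (Option.some.inj h)
          · refine ⟨g, e, Ne.symm neg', ⟨h2, ?_⟩, ⟨h1, ?_⟩⟩
            · rw [cg]; intro h; exact hκα (Option.some.inj h).symm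
            · rw [ce]; intro h; exact hκβ (Option.some.inj h).symm
  have hcompl : ∀ (X : Finset W) (x : E), Cr a b Xᶜ x ↔ Cr a b X x := by
    intro X x; unfold Cr; simp only [Finset.mem_compl]; tauto
  refine ⟨⟨?_, ?_, ?_⟩, ?_, ?_, ?_, ?_, ?_⟩
  · -- removal
    intro κ X hX1 hX2
    by_cases hrX : r ∈ X
    · have h1 : (Xᶜ).Nonempty := by
        by_contra h2
        rw [Finset.not_nonempty_iff_eq_empty, Finset.compl_eq_empty_iff] at h2
        exact hX2 h2
      have h2 := rem0 κ Xᶜ h1 (by rw [Finset.mem_compl]; exact fun h => h hrX)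
      obtain ⟨x, y, hxy, hx, hy⟩ := h2
      exact ⟨x, y, hxy, ⟨(hcompl X x).1 hx.1, hx.2⟩, ⟨(hcompl X y).1 hy.1, hy.2⟩⟩
    · exact rem0 κ X hX1 hrX
  · -- connectivity
    exact con_core hK hr hs hc' hd' hG hlk hcon (by rw [cg]; simp) (by rw [ch]; simp) ck' cx
  · -- root
    intro x hx
    by_cases h1 : x = e
    · rw [h1, ce]; simp
    · have h2 : x ≠ g := by
        rintro rfl
        rw [hK.jg.cr, Finset.mem_singleton, Finset.mem_singleton] at hx
        exact hx ⟨fun h => absurd h.symm hK.ru, fun h => absurd h.symm hK.rv⟩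
      have h3 : x ≠ h := by
        rintro rfl
        rw [hK.jh.cr, Finset.mem_singleton, Finset.mem_singleton] at hx
        exact hx ⟨fun h => absurd h.symm hK.ru, fun h => absurd h.symm hK.rs⟩
      have h4 : x ≠ hc := by
        rintro rfl
        rw [hK.jc.cr, Finset.mem_singleton, Finset.mem_singleton] at hx
        exact hx ⟨fun h => absurd h.symm hK.rv, fun h => absurd h.symm hK.rc⟩
      have h5 : x ≠ hd := by
        rintro rfl
        rw [hK.jd.cr, Finset.mem_singleton, Finset.mem_singleton] at hx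
        exact hx ⟨fun h => absurd h.symm hK.rv, fun h => absurd h.symm hK.rd⟩
      rw [cx h2 h1 h4 h5]
      exact hG.root x ((hcr_r h1 h2 h3 h4 h5).2 hx)
  · rw [ce]; intro h; exact hβγ (Option.some.inj h).symm
  · -- at `u`
    intro x hx hxe
    rcases hK.eu x hx with h1 | h1 | h1
    · exact absurd h1 hxe
    · left; rw [h1]; exact hK.jg
    · right; rw [h1]; exact ch
  · -- at `v`
    intro x y hx hy hxy hx2 hy2 hxγ
    have h1 : x = hc ∨ x = hd := by
      rcases hK.ev x hx with h1 | h1 | h1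
      · exact absurd (h1 ▸ hK.jg) hx2
      · exact Or.inl h1
      · exact Or.inr h1
    have h2 : y = hc ∨ y = hd := by
      rcases hK.ev y hy with h1 | h1 | h1
      · exact absurd (h1 ▸ hK.jg) hy2
      · exact Or.inl h1
      · exact Or.inr h1
    have h3 : x = l ∨ x = k := by
      by_contra h4
      push Not at h4
      have h5 := hoth h4.1 h4.2
      rcases h1 with h1 | h1
      · exact h5.1 h1
      · exact h5.2 h1
    have h4 : y = l ∨ y = k := by
      by_contra h4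
      push Not at h4
      have h5 := hoth h4.1 h4.2
      rcases h2 with h2 | h2
      · exact h5.1 h2
      · exact h5.2 h2
    rcases h3 with h3 | h3
    · rw [h3, cl'] at hxγ; simp at hxγ
    · rcases h4 with h4 | h4
      · rw [h4]; exact cl'
      · exact absurd (h3.trans h4.symm) hxy
  · -- the cuts
    intro X huX hrX hX
    have hrX' : r' ∉ res u v X := fun h => hrX ((hr'r X).1 h)
    have hX'u : res u v X ≠ univ := fun h => hrX' (h ▸ Finset.mem_univ _)
    have hX' : (res u v X).Nonempty := by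
      by_contra h1
      apply hX
      intro w hw
      rw [Finset.mem_insert, Finset.mem_singleton]
      by_contra h2
      push Not at h2
      exact h1 ⟨⟨w, h2⟩, mem_res.2 hw⟩
    obtain ⟨x, y, hxy, ⟨hx1, hx2⟩, ⟨hy1, hy2⟩⟩ := hG.rem γ _ hX' hX'u
    have h1 : Two (fun x => Cr a' b' (res u v X) x ∧ col x ≠ some γ ∧ x ≠ h) :=
      ⟨x, y, hxy, ⟨hx1, hx2, by rintro rfl; exact hx2 hγ⟩, ⟨hy1, hy2, by rintro rfl; exact hy2 hγ⟩⟩
    obtain ⟨x, y, hxy, hx, hy⟩ := tr2 γ X h1
    exact ⟨x, y, hxy, ⟨hx.1, hx.2.1, hx.2.2.1⟩, ⟨hy.1, hy.2.1, hy.2.2.1⟩⟩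
  · -- four vertices
    intro hcard
    exfalso
    have h1 : ({r, u, v, s, c} : Finset W).card ≤ Fintype.card W := Finset.card_le_univ _
    have h2 : ({r, u, v, s, c} : Finset W).card = 5 := by
      have := hK.ru; have := hK.rv; have := hK.rs; have := hK.rc; have := hK.uv; have := hK.us
      have := hK.uc; have := hK.vs; have := hK.vc; have := hK.sc
      rw [Finset.card_insert_of_notMem, Finset.card_insert_of_notMem,
        Finset.card_insert_of_notMem, Finset.card_insert_of_notMem, Finset.card_singleton] <;>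
      simp [*]
    omega

end Main

end Pool.Agent.H91S.Ins

namespace Pool.Agent.H91S

open Finset
open Pool.Agent.N411.EC (TEC Cr Jn Col cr_of_jn exists_jn_of_cr)
open Ins

/-- the insertion step -/
theorem t_INS : S_INS := by
  intro W E _ _ _ _ a b r u v s c d e g h hc hd hK r' s' c' d' hr hs hc' hd' β col hG hβ hsp
  classical
  have jh' := jn_h (r' := r') (s' := s') (c' := c') hK hr hs
  have jd' := jn_hd (r' := r') (c' := c') (d' := d') hK hd'
  have hsr : s' ≠ r' := by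
    rintro rfl
    exact hK.rs (hr.symm.trans hs)
  have hcr : c' ≠ r' := by
    rintro rfl
    exact hK.rc (hr.symm.trans hc')
  have hdr : d' ≠ r' := by
    rintro rfl
    exact hK.rd (hr.symm.trans hd')
  have hγ0 : col h ≠ none := by
    apply hG.root
    rw [jh'.cr, Finset.mem_singleton, Finset.mem_singleton]
    intro h1
    exact hsr (h1.1 rfl)
  obtain ⟨γ, hγ⟩ := Option.ne_none_iff_exists'.1 hγ0
  have hγβ : γ ≠ β := by
    rintro rfl
    exact hβ hγ
  obtain ⟨α, hα1, hα2, hα3⟩ := exists_alpha β γ (col hd)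
  -- a set crossed only by `hd` separates `c'` and `d'`
  have hsep : ∀ Y : Finset (Sup u v), r' ∉ Y → s' ∈ Y → (∃ w, w ∉ Y ∧ w ≠ r') →
      (∀ x, col x ≠ none → Cr (supE a u v r' c' g) (supE b u v r' c' g) Y x →
        ¬ Cr (supE a u v r' c' g) (supE b u v r' c' g) {r'} x → x = hd) →
      ¬ (c' ∈ Y ↔ d' ∈ Y) := by
    intro Y hY1 hY2 hw hY3 hcd
    obtain ⟨x, hx1, hx2, hx3⟩ := hG.con Y ⟨s', hY2⟩ hY1 hw
    have h1 := hY3 x hx1 hx2 hx3
    rw [h1, jd'.cr] at hx2
    exact hx2 hcd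
  by_cases hP : ∃ Y : Finset (Sup u v), r' ∉ Y ∧ s' ∈ Y ∧ c' ∈ Y ∧ d' ∉ Y ∧
      (∀ x, col x ≠ none → Cr (supE a u v r' c' g) (supE b u v r' c' g) Y x →
        ¬ Cr (supE a u v r' c' g) (supE b u v r' c' g) {r'} x → x = hd)
  · obtain ⟨Y1, hY1r, hY1s, hY1c, hY1d, hY1x⟩ := hP
    refine ⟨γ, _, core hK hr hs hc' hd' hG hγ hγβ hα1 hα2 hα3 hsp
      (l := hc) (k := hd) (cl := c) (ck := d) (Or.inl ⟨rfl, rfl, rfl, rfl⟩) ?_⟩
    intro Y hY1 hY2 hw hY3
    have h1 := hsep Y hY1 hY2 hw hY3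
    have h2 : ¬ (d' ∈ Y ∧ c' ∉ Y) := by
      rintro ⟨h3, h4⟩
      obtain ⟨x, hx1, hx2, hx3⟩ := hG.con (Y ∩ Y1) ⟨s', Finset.mem_inter.2 ⟨hY2, hY1s⟩⟩
        (fun h => hY1 (Finset.mem_inter.1 h).1) ⟨c', fun h => h4 (Finset.mem_inter.1 h).1, hcr⟩
      have h5 : x = hd := by
        by_cases h6 : Cr (supE a u v r' c' g) (supE b u v r' c' g) Y x
        · exact hY3 x hx1 h6 hx3
        · apply hY1x x hx1 ?_ hx3
          intro h7
          apply hx2
          unfold Cr at h6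
          rw [not_not] at h6
          rw [Finset.mem_inter, Finset.mem_inter, h6, h7]
      rw [h5, jd'.cr, Finset.mem_inter, Finset.mem_inter] at hx2
      exact hx2 ⟨fun h => absurd h.1 h4, fun h => absurd h.2 hY1d⟩
    have h3 : c' ∈ Y ∧ d' ∉ Y := by
      by_cases h4 : c' ∈ Y
      · exact ⟨h4, fun h5 => h1 ⟨fun _ => h5, fun _ => h4⟩⟩
      · exact absurd ⟨by by_contra h5; exact h1 ⟨fun h => absurd h h4, fun h => absurd h h5⟩, h4⟩ h2
    refine ⟨?_, ?_⟩
    · intro w hw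
      rw [show w = c' from Subtype.ext (hw.trans hc'.symm)]
      exact h3.1
    · intro w hw
      rw [show w = d' from Subtype.ext (hw.trans hd'.symm)]
      exact h3.2
  · refine ⟨γ, _, core hK hr hs hc' hd' hG hγ hγβ hα1 hα2 hα3 hsp
      (l := hd) (k := hc) (cl := d) (ck := c) (Or.inr ⟨rfl, rfl, rfl, rfl⟩) ?_⟩
    intro Y hY1 hY2 hw hY3
    have h1 := hsep Y hY1 hY2 hw hY3
    have h3 : d' ∈ Y ∧ c' ∉ Y := by
      by_cases h4 : c' ∈ Y
      · exfalso
        by_cases h5 : d' ∈ Y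
        · exact h1 ⟨fun _ => h5, fun _ => h4⟩
        · exact hP ⟨Y, hY1, hY2, h4, h5, hY3⟩
      · refine ⟨?_, h4⟩
        by_contra h5
        exact h1 ⟨fun h => absurd h h4, fun h => absurd h h5⟩
    refine ⟨?_, ?_⟩
    · intro w hw
      rw [show w = d' from Subtype.ext (hw.trans hd'.symm)]
      exact h3.1
    · intro w hw
      rw [show w = c' from Subtype.ext (hw.trans hc'.symm)]
      exact h3.2

end Pool.Agent.H91S
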