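import Pool.Agent.H91S.Stm

/-! # Project SEV, piece MATCH (helper85) -/

set_option autoImplicit false

namespace Pool.Agent.H91S.MATCH

open Finset

theorem core (E : Type) (F : Finset E) (c1 c2 : E → Option (Fin 4))
    (h2 : ∀ x ∈ F, c2 x ≠ none) (h2i : ∀ x ∈ F, ∀ y ∈ F, x ≠ y → c2 x ≠ c2 y)
    (h1i : ∀ x ∈ F, ∀ y ∈ F, x ≠ y → c1 x ≠ none → c1 x ≠ c1 y) :
    ∃ σ : Equiv.Perm (Fin 4), ∀ x ∈ F, c1 x = none ∨ c1 x = (c2 x).map σ := by
  classical
  let f : Fin 4 → Fin 4 := fun c =>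
    if h : ∃ x ∈ F, c2 x = some c ∧ c1 x ≠ none then (c1 h.choose).getD 0 else 0
  have key : ∀ x ∈ F, c1 x ≠ none → ∀ c, c2 x = some c → c1 x = some (f c) := by
    intro x hx h1 c hc
    have h : ∃ x ∈ F, c2 x = some c ∧ c1 x ≠ none := ⟨x, hx, hc, h1⟩
    have h3 : h.choose = x := by
      by_contra hne
      exact h2i _ h.choose_spec.1 x hx hne (h.choose_spec.2.1.trans hc.symm)
    obtain ⟨v, hv⟩ := Option.ne_none_iff_exists'.1 h1
    show c1 x = some (if h : ∃ x ∈ F, c2 x = some c ∧ c1 x ≠ none then (c1 h.choose).getD 0 else 0)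
    rw [dif_pos h, h3, hv]
    rfl
  let s : Finset (Fin 4) := univ.filter fun c => ∃ x ∈ F, c2 x = some c ∧ c1 x ≠ none
  have hinj : Set.InjOn f s := by
    intro c hc c' hc' hcc
    obtain ⟨x, hx, hxc, hx1⟩ := (mem_filter.1 (mem_coe.1 hc)).2
    obtain ⟨y, hy, hyc, hy1⟩ := (mem_filter.1 (mem_coe.1 hc')).2
    have h3 : c1 x = c1 y := by rw [key x hx hx1 c hxc, key y hy hy1 c' hyc, hcc]
    have h4 : x = y := by
      by_contra hne
      exact h1i x hx y hy hne hx1 h3
    rw [h4, hyc] at hxc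
    exact (Option.some.inj hxc).symm
  obtain ⟨g, hg⟩ := Finset.exists_equiv_extend_of_card_eq (α := Fin 4) (β := Fin 4)
    (t := univ) (by simp) (s := s) (f := f) (subset_univ _) hinj
  refine ⟨g.trans (Equiv.subtypeUnivEquiv fun x => mem_univ x), fun x hx => ?_⟩
  by_cases h1 : c1 x = none
  · exact Or.inl h1
  · right
    obtain ⟨c, hc⟩ := Option.ne_none_iff_exists'.1 (h2 x hx)
    rw [key x hx h1 c hc, hc, ← hg c (mem_filter.2 ⟨mem_univ _, x, hx, hc, h1⟩)]
    rfl

end Pool.Agent.H91S.MATCH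

namespace Pool.Agent.H91S

/-- Piece MATCH. -/
theorem t_MATCH : S_MATCH := by
  intro E _ F c1 c2 _ h2 h2i h1i
  refine ⟨MATCH.core E F c1 c2 h2 h2i h1i, fun a0 β ha0 hn hβ => ?_⟩
  obtain ⟨σ, hσ⟩ := MATCH.core E F (Function.update c1 a0 (some β)) c2 h2 h2i (by
    intro x hx y hy hxy hx1
    by_cases hxa : x = a0
    · subst hxa
      rw [Function.update_self, Function.update_of_ne (Ne.symm hxy)]
      exact (hβ y hy).symm
    · rw [Function.update_of_ne hxa] at hx1 ⊢
      by_cases hya : y = a0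
      · subst hya
        rw [Function.update_self]
        exact hβ x hx
      · rw [Function.update_of_ne hya]
        exact h1i x hx y hy hxy hx1)
  refine ⟨σ, fun x hx => ?_, ?_⟩
  · by_cases hxa : x = a0
    · subst hxa
      exact Or.inl hn
    · have h := hσ x hx
      rwa [Function.update_of_ne hxa] at h
  · have h := hσ a0 ha0
    rw [Function.update_self] at h
    rcases h with h | h
    · exact absurd h (by simp)
    · exact h.symm

end Pool.Agent.H91S
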