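import Pool.Agent.H91S.Stm

set_option autoImplicit false

/-!
PAR. The number of vertices of a cubic graph is even.
-/

namespace Pool.Agent.H91S

open Finset
open Pool.Agent.Helper879.ECD (cn)
open Pool.Agent.N411.EC

theorem t_PAR : S_PAR := by
  intro W E _ _ _ _ a b hd
  classical
  have h1 : ∑ v : W, cn a b univ {v} = 3 * Fintype.card W := by
    rw [Finset.sum_congr rfl (fun v _ => hd v), Finset.sum_const, Finset.card_univ, smul_eq_mul,
      mul_comm]
  have h2 : ∑ v : W, cn a b univ {v} = ∑ e : E, (univ.filter (fun v => Cr a b {v} e)).card := by
    simp_rw [cn_eq, Finset.card_filter]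
    exact Finset.sum_comm
  have h3 : ∀ e : E, Even (univ.filter (fun v => Cr a b {v} e)).card := by
    intro e
    by_cases hab : a e = b e
    · have : univ.filter (fun v => Cr a b {v} e) = ∅ := by
        rw [Finset.filter_eq_empty_iff]
        intro v _
        unfold Cr
        rw [hab]
        tauto
      rw [this]
      simp
    · have : univ.filter (fun v => Cr a b {v} e) = {a e, b e} := by
        ext v
        unfold Cr
        simp only [Finset.mem_filter, Finset.mem_univ, true_and, Finset.mem_singleton,
          Finset.mem_insert]
        constructor
        · intro h
          by_contra h4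
          push Not at h4
          apply h
          constructor
          · intro h5; exact absurd h5.symm h4.1
          · intro h5; exact absurd h5.symm h4.2
        · rintro (rfl | rfl) h
          · exact hab (h.1 rfl).symm
          · exact hab (h.2 rfl)
      rw [this, Finset.card_pair hab]
      exact even_two
  have h4 : Even (3 * Fintype.card W) := by
    rw [← h1, h2]
    exact Finset.even_sum _ (fun e _ => h3 e)
  rw [Nat.even_mul] at h4
  rcases h4 with h4 | h4
  · exact absurd h4 (by decide)
  · exact h4

end Pool.Agent.H91S
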