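import Pool.Agent.H91S.SUPCUB

set_option autoImplicit false

/-!
# Piece SUPCUT: the nontrivial 3-cuts of the suppressed graph
-/

namespace Pool.Agent.H91S

open Finset
open Pool.Agent.Helper879.ECD (cn)
open Pool.Agent.N411.EC (TEC Cr Jn cn_eq)
open SUPaux

theorem t_SUPCUT : S_SUPCUT := by
  intro W E _ _ _ _ a b hno r u v s c d e g h hc hd C r' s' c' d' hr hs hc' hd' X hrX hX2 hX2' hcn
  classical
  have k2 := cn_supE C r' s' c' d' hr hs hc' hd' X
  have hbig : ∀ su sv : Prop, 4 ≤ cn a b univ (lft u v X su sv) := by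
    intro su sv
    obtain ⟨h1, h2⟩ := card_lft u v X su sv
    exact hno _ (by omega) (by omega)
  by_cases hsX : s' ∈ X
  · exfalso
    by_cases hcX : c' ∈ X
    · have k1 := cn_lft C r' s' c' d' hr hs hc' hd' X True True
      have h1 := hbig True True
      rw [ind_true (P := ¬ (r' ∈ X ↔ True)) (by tauto), ind_false (P := ¬ (True ↔ True)) (by tauto),
        ind_false (P := ¬ (True ↔ s' ∈ X)) (by tauto),
        ind_false (P := ¬ (True ↔ c' ∈ X)) (by tauto)] at k1
      rw [ind_true (P := ¬ (r' ∈ X ↔ s' ∈ X)) (by tauto),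
        ind_congr (P := ¬ (c' ∈ X ↔ d' ∈ X)) (Q := ¬ (True ↔ d' ∈ X)) (by tauto)] at k2
      omega
    · have k1 := cn_lft C r' s' c' d' hr hs hc' hd' X False False
      have h1 := hbig False False
      rw [ind_false (P := ¬ (r' ∈ X ↔ False)) (by tauto),
        ind_false (P := ¬ (False ↔ False)) (by tauto),
        ind_true (P := ¬ (False ↔ s' ∈ X)) (by tauto),
        ind_false (P := ¬ (False ↔ c' ∈ X)) (by tauto)] at k1
      rw [ind_true (P := ¬ (r' ∈ X ↔ s' ∈ X)) (by tauto),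
        ind_congr (P := ¬ (c' ∈ X ↔ d' ∈ X)) (Q := ¬ (False ↔ d' ∈ X)) (by tauto)] at k2
      omega
  · by_cases hcd : c' ∈ X ∧ d' ∈ X
    · exact ⟨hsX, hcd.1, hcd.2⟩
    · exfalso
      have k1 := cn_lft C r' s' c' d' hr hs hc' hd' X False False
      have h1 := hbig False False
      rw [ind_false (P := ¬ (r' ∈ X ↔ False)) (by tauto),
        ind_false (P := ¬ (False ↔ False)) (by tauto),
        ind_false (P := ¬ (False ↔ s' ∈ X)) (by tauto)] at k1
      rw [ind_false (P := ¬ (r' ∈ X ↔ s' ∈ X)) (by tauto)] at k2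
      by_cases hcX : c' ∈ X
      · have hdX : d' ∉ X := fun h => hcd ⟨hcX, h⟩
        rw [ind_true (P := ¬ (False ↔ c' ∈ X)) (by tauto),
          ind_false (P := ¬ (False ↔ d' ∈ X)) (by tauto)] at k1
        rw [ind_true (P := ¬ (c' ∈ X ↔ d' ∈ X)) (by tauto)] at k2
        omega
      · rw [ind_false (P := ¬ (False ↔ c' ∈ X)) (by tauto)] at k1
        rw [ind_congr (P := ¬ (c' ∈ X ↔ d' ∈ X)) (Q := ¬ (False ↔ d' ∈ X)) (by tauto)] at k2
        omega

end Pool.Agent.H91S
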