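import Pool.Agent.H91S.BaseP
import Pool.Agent.H91S.Match
import Pool.Agent.H91S.SUPCUT
import Pool.Agent.H91S.Ins
import Pool.Agent.H91S.Glue
import Pool.Agent.H91S.Par
import Pool.Agent.H91S.Ctr

set_option autoImplicit false
set_option linter.unusedSectionVars false

/-!
MAIN. Every cubic 3-edge-connected graph with at least three vertices has a good colouring with any
root.
-/

namespace Pool.Agent.H91S

open Finset
open Pool.Agent.Helper879.ECD (cn cn_compl)
open Pool.Agent.N411.EC (TEC Cr Jn cn_eq cr_compl exists_jn_of_cr)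

namespace MP

section

variable {W E : Type} [Fintype W] [DecidableEq W] [Fintype E] [DecidableEq E] {a b : E → W}

lemma nonempty_compl {X : Finset W} (h : X ≠ univ) : Xᶜ.Nonempty := by
  rw [Finset.nonempty_iff_ne_empty]
  intro h2
  exact h (by rw [← compl_compl X, h2, Finset.compl_empty])

lemma ne_univ_of {X : Finset W} {w : W} (h : w ∉ X) : X ≠ univ :=
  fun h2 => h (h2 ▸ Finset.mem_univ w)

/-- two edges of the same colour in a cut with three edges -/
lemma two_distinct {X : Finset W} (h3 : cn a b univ X = 3) {col : E → Option (Fin 4)} {κ : Fin 4}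
    (h : Two (fun x => Cr a b X x ∧ col x ≠ some κ)) {x y : E} (hx : Cr a b X x) (hy : Cr a b X y)
    (hxy : x ≠ y) (hcx : col x = some κ) (hcy : col y = some κ) : False := by
  obtain ⟨z, t, hzt, ⟨hz1, hz2⟩, ht1, ht2⟩ := h
  rw [cn_eq] at h3
  have h4 : ({x, y, z, t} : Finset E) ⊆ univ.filter (fun e => Cr a b X e) := by
    intro e he
    rw [Finset.mem_filter]
    simp only [Finset.mem_insert, Finset.mem_singleton] at he
    rcases he with rfl | rfl | rfl | rfl
    · exact ⟨Finset.mem_univ _, hx⟩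
    · exact ⟨Finset.mem_univ _, hy⟩
    · exact ⟨Finset.mem_univ _, hz1⟩
    · exact ⟨Finset.mem_univ _, ht1⟩
  have h5 : ({x, y, z, t} : Finset E).card = 4 := by
    have hxz : x ≠ z := fun h => hz2 (h ▸ hcx)
    have hxt : x ≠ t := fun h => ht2 (h ▸ hcx)
    have hyz : y ≠ z := fun h => hz2 (h ▸ hcy)
    have hyt : y ≠ t := fun h => ht2 (h ▸ hcy)
    rw [Finset.card_insert_of_notMem (by simp [hxy, hxz, hxt]),
      Finset.card_insert_of_notMem (by simp [hyz, hyt]), Finset.card_pair hzt]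
  have h6 := Finset.card_le_card h4
  omega

/-- permuting the colours -/
lemma good_perm {r : W} {col : E → Option (Fin 4)} (h : Good a b r col) (σ : Equiv.Perm (Fin 4)) :
    Good a b r (fun x => (col x).map σ) := by
  refine ⟨?_, ?_, ?_⟩
  · intro κ X h1 h2
    obtain ⟨x, y, hxy, ⟨hx1, hx2⟩, hy1, hy2⟩ := h.rem (σ.symm κ) X h1 h2
    have key : ∀ x, col x ≠ some (σ.symm κ) → (col x).map σ ≠ some κ := by
      intro x hx hx2
      cases hc : col x with
      | none => rw [hc] at hx2; simp at hx2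
      | some μ =>
        rw [hc] at hx2 hx
        apply hx
        have h5 : σ μ = κ := Option.some.inj hx2
        rw [← h5, Equiv.symm_apply_apply]
    exact ⟨x, y, hxy, ⟨hx1, key x hx2⟩, hy1, key y hy2⟩
  · intro Y h1 h2 h3
    obtain ⟨x, hx1, hx2, hx3⟩ := h.con Y h1 h2 h3
    refine ⟨x, ?_, hx2, hx3⟩
    intro h4
    exact hx1 (Option.map_eq_none_iff.1 h4)
  · intro x hx h4
    exact h.root x hx (Option.map_eq_none_iff.1 h4)

/-- the edges at the contracted vertex -/
lemma cr_none (X : Finset W) (x : E) :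
    Cr (fun x => ctr X (a x)) (fun x => ctr X (b x)) {none} x ↔ Cr a b X x := by
  have h : ∀ w : W, ctr X w ∈ ({none} : Finset (Option {w : W // w ∉ X})) ↔ w ∈ X := by
    intro w
    rw [Finset.mem_singleton]
    constructor
    · intro h1
      by_contra h2
      rw [ctr_out h2] at h1
      simp at h1
    · intro h1; exact ctr_in h1
  unfold Cr
  rw [h, h]

lemma cr_none_compl (X : Finset W) (x : E) :
    Cr (fun x => ctr Xᶜ (a x)) (fun x => ctr Xᶜ (b x)) {none} x ↔ Cr a b X x := by
  rw [cr_none, cr_compl]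

lemma none_ne_univ {X : Finset W} {w : W} (h : w ∉ X) :
    ({none} : Finset (Option {w : W // w ∉ X})) ≠ univ := by
  intro h2
  have : (some ⟨w, h⟩ : Option {w : W // w ∉ X}) ∈
      ({none} : Finset (Option {w : W // w ∉ X})) := by rw [h2]; exact Finset.mem_univ _
  simp at this

/-- good colourings give different colours to the edges at the contracted vertex -/
lemma good_distinct {X : Finset W} {w : W} (hw : w ∉ X) (h3 : cn a b univ X = 3)
    {r : Option {w : W // w ∉ X}} {col : E → Option (Fin 4)}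
    (hg : Good (fun x => ctr X (a x)) (fun x => ctr X (b x)) r col) {x y : E}
    (hx : Cr a b X x) (hy : Cr a b X y) (hxy : x ≠ y) (hn : col x ≠ none) : col x ≠ col y := by
  intro h
  obtain ⟨κ, hκ⟩ := Option.ne_none_iff_exists'.1 hn
  obtain ⟨z, t, hzt, hz, ht⟩ := hg.rem κ {none} ⟨none, Finset.mem_singleton_self _⟩
    (none_ne_univ hw)
  refine two_distinct (a := a) (b := b) h3 (κ := κ) (col := col) ?_ hx hy hxy hκ (h ▸ hκ)
  exact ⟨z, t, hzt, ⟨(cr_none X z).1 hz.1, hz.2⟩, (cr_none X t).1 ht.1, ht.2⟩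

lemma good_distinct' {X : Finset W} (hX : X.Nonempty) (h3 : cn a b univ X = 3)
    {r : Option {w : W // w ∉ Xᶜ}} {col : E → Option (Fin 4)}
    (hg : Good (fun x => ctr Xᶜ (a x)) (fun x => ctr Xᶜ (b x)) r col) {x y : E}
    (hx : Cr a b X x) (hy : Cr a b X y) (hxy : x ≠ y) (hn : col x ≠ none) : col x ≠ col y := by
  obtain ⟨w, hw⟩ := hX
  exact good_distinct (a := a) (b := b) (X := Xᶜ) (w := w)
    (fun h => (Finset.mem_compl.1 h) hw) (by rw [cn_compl]; exact h3) hg (cr_compl.2 hx)
    (cr_compl.2 hy) hxy hn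

/-- matching on the three edges of a cut -/
lemma match_good {X : Finset W} {w : W} (hX : X.Nonempty) (hw : w ∉ X) (h3 : cn a b univ X = 3)
    {r : Option {w : W // w ∉ X}} {col1 col2 : E → Option (Fin 4)}
    (h1 : Good (fun x => ctr X (a x)) (fun x => ctr X (b x)) r col1)
    (h2 : Good (fun x => ctr Xᶜ (a x)) (fun x => ctr Xᶜ (b x)) none col2) :
    (∃ σ : Equiv.Perm (Fin 4), ∀ x, Cr a b X x → col1 x = none ∨ col1 x = (col2 x).map σ) ∧
    ∀ (a0 : E) (β : Fin 4), Cr a b X a0 → col1 a0 = none →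
      (∀ x, Cr a b X x → col1 x ≠ some β) →
      ∃ σ : Equiv.Perm (Fin 4), (∀ x, Cr a b X x → col1 x = none ∨ col1 x = (col2 x).map σ) ∧
        (col2 a0).map σ = some β := by
  have hm : ∀ x, x ∈ univ.filter (fun e => Cr a b X e) ↔ Cr a b X x := by
    intro x; simp
  obtain ⟨g1, g2⟩ := t_MATCH E (univ.filter (fun e => Cr a b X e)) col1 col2
    (by rw [← cn_eq]; exact h3)
    (by
      intro x hx
      exact h2.root x ((cr_none_compl X x).2 ((hm x).1 hx)))
    (by
      intro x hx y hy hxy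
      exact good_distinct' hX h3 h2 ((hm x).1 hx) ((hm y).1 hy) hxy
        (h2.root x ((cr_none_compl X x).2 ((hm x).1 hx))))
    (by
      intro x hx y hy hxy hn
      exact good_distinct hw h3 h1 ((hm x).1 hx) ((hm y).1 hy) hxy hn)
  refine ⟨?_, ?_⟩
  · obtain ⟨σ, hσ⟩ := g1
    exact ⟨σ, fun x hx => hσ x ((hm x).2 hx)⟩
  · intro a0 β ha0 hn hβ
    obtain ⟨σ, hσ, hσ2⟩ := g2 a0 β ((hm a0).2 ha0) hn (fun x hx => hβ x ((hm x).1 hx))
    exact ⟨σ, fun x hx => hσ x ((hm x).2 hx), hσ2⟩

/-- two further edges at a vertex -/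
lemma two_more (hc : Cub a b) (hcard : 3 ≤ Fintype.card W) {r s : W} (hrs : r ≠ s) {h : E}
    (hh : Jn a b h r s) : ∃ (y1 y2 : E) (w1 w2 : W), Jn a b y1 s w1 ∧ Jn a b y2 s w2 ∧ w1 ≠ w2 ∧
      w1 ≠ s ∧ w2 ≠ s ∧ w1 ≠ r ∧ w2 ≠ r := by
  have hhs : Cr a b {s} h := Pool.Agent.N411.EC.cr_single hh.symm hrs.symm
  obtain ⟨y1, hy1, hy1h⟩ : ∃ x, Cr a b {s} x ∧ x ≠ h := by
    by_contra hcon
    push Not at hcon
    have h4 := hc.deg s
    rw [cn_eq] at h4
    have h5 : univ.filter (fun e => Cr a b {s} e) ⊆ {h} := by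
      intro x hx
      rw [Finset.mem_filter] at hx
      rw [Finset.mem_singleton]
      exact hcon x hx.2
    have h6 := Finset.card_le_card h5
    rw [Finset.card_singleton] at h6
    omega
  obtain ⟨y2, hy2, hy2h, hy21, -⟩ := Pool.Agent.N411.EC.third_edge (hc.deg s) hhs hy1 hy1h.symm
  obtain ⟨w1, hw1, hj1⟩ := CB.other hy1
  obtain ⟨w2, hw2, hj2⟩ := CB.other hy2
  refine ⟨y1, y2, w1, w2, hj1, hj2, ?_, hw1, hw2, ?_, ?_⟩
  · rintro rfl
    exact hy21 (CB.no_par hc hcard hw1.symm hj2 hj1)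
  · rintro rfl
    exact hy1h (CB.no_par hc hcard hw1.symm hj1 hh.symm)
  · rintro rfl
    exact hy2h (CB.no_par hc hcard hw2.symm hj2 hh.symm)

end

/-- good colourings for `n` vertices -/
def PG (n : ℕ) : Prop := ∀ (W E : Type) [Fintype W] [DecidableEq W] [Fintype E] [DecidableEq E]
  (a b : E → W), Cub a b → Fintype.card W = n → 3 ≤ n → ∀ r, ∃ col, Good a b r col

/-- strong colourings for `n` vertices -/
def PS (n : ℕ) : Prop := ∀ (W E : Type) [Fintype W] [DecidableEq W] [Fintype E] [DecidableEq E]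
  (a b : E → W), Cub a b → NoCut a b → Fintype.card W = n → 4 ≤ n → ∀ (r u v : W) (e g : E),
    Jn a b e r u → Jn a b g u v → r ≠ u → r ≠ v → u ≠ v → ∃ β col, Strong a b r u v e β col

/-- good colourings from strong colourings -/
lemma good_of {n : ℕ} (ih : ∀ m < n, PG m) (hS : PS n) : PG n := by
  intro W E _ _ _ _ a b hc hn h3n r
  by_cases hcut : NoCut a b
  · have heven := t_PAR W E a b hc.deg
    have h4 : 4 ≤ n := by
      rw [hn] at heven
      obtain ⟨k, hk⟩ := heven
      omega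
    have hdr := hc.deg r
    rw [cn_eq] at hdr
    obtain ⟨e, he⟩ := Finset.card_pos.1
      (show 0 < (univ.filter (fun e => Cr a b {r} e)).card by omega)
    rw [Finset.mem_filter] at he
    obtain ⟨u, hur, hju⟩ := CB.other he.2
    obtain ⟨y1, -, v, -, hj1, -, -, hvu, -, hvr, -⟩ := two_more hc (by omega) hur.symm hju
    obtain ⟨β, col, hst⟩ := hS W E a b hc hcut hn h4 r u v e y1 hju hj1 hur.symm hvr.symm hvu.symm
    exact ⟨col, hst.good⟩
  · unfold NoCut at hcut
    push Not at hcut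
    obtain ⟨X0, hX1, hX2, hX3⟩ := hcut
    obtain ⟨X, hrX, hXc, hXcc, hXn⟩ : ∃ X : Finset W, r ∉ X ∧ 2 ≤ X.card ∧ 2 ≤ Xᶜ.card ∧
        cn a b univ X ≤ 3 := by
      by_cases hr : r ∈ X0
      · exact ⟨X0ᶜ, fun h => (Finset.mem_compl.1 h) hr, hX2, by rw [compl_compl]; exact hX1,
          by rw [cn_compl]; omega⟩
      · exact ⟨X0, hr, hX1, hX2, by omega⟩
    have hXne : X.Nonempty := Finset.card_pos.1 (by omega)
    have h3 : cn a b univ X = 3 := by
      have := hc.tec X hXne (ne_univ_of hrX)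
      omega
    have hcc : X.card + Xᶜ.card = n := by rw [← hn]; exact Finset.card_add_card_compl X
    obtain ⟨hc1, hn1⟩ := t_CTR W E a b hc X hXne h3
    obtain ⟨hc2, hn2⟩ := t_CTR W E a b hc Xᶜ ⟨r, Finset.mem_compl.2 hrX⟩ (by rw [cn_compl]; exact h3)
    rw [compl_compl] at hn2
    obtain ⟨col1, hg1⟩ := ih (Xᶜ.card + 1) (by omega) _ _ _ _ hc1 hn1 (by omega) (ctr X r)
    obtain ⟨col2, hg2⟩ := ih (X.card + 1) (by omega) _ _ _ _ hc2 hn2 (by omega) none
    obtain ⟨⟨σ, hσ⟩, -⟩ := match_good hXne hrX h3 hg1 hg2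
    exact ⟨_, t_GLUE W E a b X r hrX hXne h3 col1 _ hg1 (good_perm hg2 σ) hσ⟩

/-- the inductive step for strong colourings -/
lemma strong_step (hG2 : S_GLUE2) {n : ℕ} (ihG : ∀ m < n, PG m) (ihS : ∀ m < n, PS m) : PS n := by
  intro W E _ _ _ _ a b hc hnc hn h4n r u v e g he hg hru hrv huv
  have heven := t_PAR W E a b hc.deg
  rw [hn] at heven
  rcases Nat.lt_or_ge 4 n with h5 | h5
  swap
  · exact t_BASE W E a b hc (by omega) r u v e g he hg hru hrv huv
  have h6 : 6 ≤ n := by
    obtain ⟨k, hk⟩ := heven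
    omega
  obtain ⟨s, c, d, h, hcc, hd, hK⟩ := t_CFG W E a b hc hnc (by omega) r u v e g he hg hru hrv huv
  let r' : Sup u v := ⟨r, hru, hrv⟩
  let s' : Sup u v := ⟨s, hK.us.symm, hK.vs.symm⟩
  let c' : Sup u v := ⟨c, hK.uc.symm, hK.vc.symm⟩
  let d' : Sup u v := ⟨d, hK.ud.symm, hK.vd.symm⟩
  have hcub := t_SUPCUB W E a b hc hnc r u v s c d e g h hcc hd hK r' c' rfl rfl
  have hrs' : r' ≠ s' := fun h => hK.rs (congrArg Subtype.val h)
  have hsc' : s' ≠ c' := fun h => hK.sc (congrArg Subtype.val h)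
  have hsd' : s' ≠ d' := fun h => hK.sd (congrArg Subtype.val h)
  have hcd' : c' ≠ d' := fun h => hK.cd (congrArg Subtype.val h)
  have hrc' : r' ≠ c' := fun h => hK.rc (congrArg Subtype.val h)
  have hjh : Jn (supE a u v r' c' g) (supE b u v r' c' g) h r' s' := Ins.jn_h hK rfl rfl
  have hjd : Jn (supE a u v r' c' g) (supE b u v r' c' g) hd c' d' := Ins.jn_hd hK rfl
  have hcard : Fintype.card (Sup u v) = n - 2 := by
    have h7 : Fintype.card (Sup u v) = (({u, v} : Finset W)ᶜ).card := by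
      rw [Fintype.card_subtype]
      congr 1
      ext w
      simp
    rw [h7, Finset.card_compl, Finset.card_pair huv, hn]
  generalize hA : supE a u v r' c' g = A at hcub hjh hjd
  generalize hB : supE b u v r' c' g = B at hcub hjh hjd
  -- the insertion
  have hins : ∀ (β : Fin 4) (col : E → Option (Fin 4)), Good A B r' col → col h ≠ some β →
      (∀ X : Finset (Sup u v), s' ∈ X → r' ∉ X → (c' ∈ X ∨ d' ∈ X) →
        Two (fun x => Cr A B X x ∧ col x ≠ some β ∧ x ≠ h)) →
      ∃ β' col', Strong a b r u v e β' col' := by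
    intro β col h1 h2 h3
    subst hA hB
    exact t_INS W E a b r u v s c d e g h hcc hd hK r' s' c' d' rfl rfl rfl rfl β col h1 h2 h3
  have hsupcut : ∀ X : Finset (Sup u v), r' ∉ X → 2 ≤ X.card → 2 ≤ Xᶜ.card →
      cn A B univ X ≤ 3 → s' ∉ X ∧ c' ∈ X ∧ d' ∈ X := by
    intro X h1 h2 h3 h4
    subst hA hB
    exact t_SUPCUT W E a b hnc r u v s c d e g h hcc hd hK r' s' c' d' rfl rfl rfl rfl X h1 h2 h3 h4
  by_cases hcut : NoCut A B
  · -- no nontrivial cuts in the small graph
    by_cases hcard4 : Fintype.card (Sup u v) = 4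
    · obtain ⟨y, hy⟩ := CB.joined hcub hcard4 hsc'
      obtain ⟨β, col, hst⟩ := t_BASE _ _ _ _ hcub hcard4 r' s' c' h y hjh hy hrs' hrc' hsc'
      refine hins β col hst.good hst.root_ne ?_
      intro X hsX hrX hcd
      apply hst.cut4 hcard4 X hsX hrX
      rintro rfl
      rw [Finset.mem_singleton, Finset.mem_singleton] at hcd
      rcases hcd with h7 | h7
      · exact hsc' h7.symm
      · exact hsd' h7.symm
    · obtain ⟨y1, y2, w1, w2, hj1, hj2, hw12, hw1s, hw2s, hw1r, hw2r⟩ :=
        two_more hcub (by omega) hrs' hjh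
      obtain ⟨y, w, hj, hws, hwr, hwc, hwd⟩ : ∃ (y : E) (w : Sup u v), Jn A B y s' w ∧ w ≠ s' ∧
          w ≠ r' ∧ w ≠ c' ∧ w ≠ d' := by
        by_cases h7 : w1 = c' ∨ w1 = d'
        · by_cases h8 : w2 = c' ∨ w2 = d'
          · exfalso
            rcases h7 with rfl | rfl
            · rcases h8 with h8 | rfl
              · exact hw12 h8.symm
              · exact CB.no_tri hcub hcut (by omega) hw1s.symm hw12 hw2s.symm hj1 hjd hj2
            · rcases h8 with rfl | h8
              · exact CB.no_tri hcub hcut (by omega) hw1s.symm hw12 hw2s.symm hj1 hjd.symm hj2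
              · exact hw12 h8.symm
          · push Not at h8
            exact ⟨y2, w2, hj2, hw2s, hw2r, h8.1, h8.2⟩
        · push Not at h7
          exact ⟨y1, w1, hj1, hw1s, hw1r, h7.1, h7.2⟩
      obtain ⟨β, col, hst⟩ := ihS (n - 2) (by omega) _ _ _ _ hcub hcut hcard (by omega) r' s' w h y
        hjh hj hrs' hwr.symm hws.symm
      refine hins β col hst.good hst.root_ne ?_
      intro X hsX hrX hcd
      apply hst.cut X hsX hrX
      intro hsub
      rcases hcd with h7 | h7
      · have h8 := hsub h7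
        rw [Finset.mem_insert, Finset.mem_singleton] at h8
        rcases h8 with h8 | h8
        · exact hsc' h8.symm
        · exact hwc h8.symm
      · have h8 := hsub h7
        rw [Finset.mem_insert, Finset.mem_singleton] at h8
        rcases h8 with h8 | h8
        · exact hsd' h8.symm
        · exact hwd h8.symm
  · -- a maximal nontrivial 3-cut of the small graph
    unfold NoCut at hcut
    push Not at hcut
    obtain ⟨X0, hX1, hX2, hX3⟩ := hcut
    let P : Finset (Finset (Sup u v)) := univ.filter (fun X => r' ∉ X ∧ 2 ≤ X.card ∧ 2 ≤ Xᶜ.card ∧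
      cn A B univ X ≤ 3)
    have hmemP : ∀ X, X ∈ P ↔ r' ∉ X ∧ 2 ≤ X.card ∧ 2 ≤ Xᶜ.card ∧ cn A B univ X ≤ 3 := by
      intro X; simp [P]
    have hP : P.Nonempty := by
      by_cases hr : r' ∈ X0
      · exact ⟨X0ᶜ, (hmemP _).2 ⟨fun h => (Finset.mem_compl.1 h) hr, hX2,
          by rw [compl_compl]; exact hX1, by rw [cn_compl]; omega⟩⟩
      · exact ⟨X0, (hmemP _).2 ⟨hr, hX1, hX2, by omega⟩⟩
    obtain ⟨X, hXP, hmax⟩ := Finset.exists_max_image P Finset.card hP
    rw [hmemP] at hXP
    obtain ⟨hrX, hXc, hXcc, hXn⟩ := hXP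
    obtain ⟨hsX, hcX, hdX⟩ := hsupcut X hrX hXc hXcc hXn
    have hXne : X.Nonempty := ⟨c', hcX⟩
    have h3 : cn A B univ X = 3 := by
      have := hcub.tec X hXne (ne_univ_of hrX)
      omega
    have hccard : X.card + Xᶜ.card = n - 2 := by rw [← hcard]; exact Finset.card_add_card_compl X
    obtain ⟨hc1, hn1⟩ := t_CTR _ _ _ _ hcub X hXne h3
    obtain ⟨hc2, hn2⟩ := t_CTR _ _ _ _ hcub Xᶜ ⟨r', Finset.mem_compl.2 hrX⟩
      (by rw [cn_compl]; exact h3)
    rw [compl_compl] at hn2
    have hcard1 : 4 ≤ Xᶜ.card + 1 := by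
      have h7 := t_PAR _ _ _ _ hc1.deg
      rw [hn1] at h7
      obtain ⟨k, hk⟩ := h7
      omega
    -- the contracted graph has no nontrivial 3-cut
    have hnc1 : NoCut (fun x => ctr X (A x)) (fun x => ctr X (B x)) := by
      have key : ∀ Y : Finset (Option {w : Sup u v // w ∉ X}), ctr X r' ∉ Y → 2 ≤ Y.card →
          2 ≤ Yᶜ.card → 4 ≤ cn (fun x => ctr X (A x)) (fun x => ctr X (B x)) univ Y := by
        intro Y hrY hY1 hY2
        by_contra hlt
        have hmZ : ∀ w, w ∈ univ.filter (fun w => ctr X w ∈ Y) ↔ ctr X w ∈ Y := by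
          intro w; simp
        set Z := univ.filter (fun w => ctr X w ∈ Y) with hZ
        have hcnZ := ctr_cn (a := A) (b := B) X Y Z hmZ
        have himg : Y ⊆ Z.image (ctr X) := by
          intro y hy
          obtain ⟨w, hw⟩ := ctr_surj hXne y
          rw [Finset.mem_image]
          exact ⟨w, (hmZ w).2 (hw ▸ hy), hw⟩
        have himg2 : Yᶜ ⊆ Zᶜ.image (ctr X) := by
          intro y hy
          obtain ⟨w, hw⟩ := ctr_surj hXne y
          rw [Finset.mem_image]
          refine ⟨w, ?_, hw⟩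
          rw [Finset.mem_compl] at hy ⊢
          intro h9
          exact hy (hw ▸ (hmZ w).1 h9)
        have hZ1 : 2 ≤ Z.card := by
          have h7 := Finset.card_le_card himg
          have h8 := Finset.card_image_le (s := Z) (f := ctr X)
          omega
        have hZ2 : 2 ≤ Zᶜ.card := by
          have h7 := Finset.card_le_card himg2
          have h8 := Finset.card_image_le (s := Zᶜ) (f := ctr X)
          omega
        have hrZ : r' ∉ Z := fun h7 => hrY ((hmZ _).1 h7)
        have hZn : cn A B univ Z ≤ 3 := by omega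
        obtain ⟨-, hcZ, -⟩ := hsupcut Z hrZ hZ1 hZ2 hZn
        have hnone : (none : Option {w : Sup u v // w ∉ X}) ∈ Y := by
          have := (hmZ _).1 hcZ
          rwa [ctr_in hcX] at this
        have hsub : X ⊆ Z := by
          intro w hw
          rw [hmZ, ctr_in hw]
          exact hnone
        have hle := hmax Z ((hmemP _).2 ⟨hrZ, hZ1, hZ2, hZn⟩)
        have heq : X = Z := Finset.eq_of_subset_of_card_le hsub hle
        have hY : Y ⊆ {none} := by
          intro y hy
          have h7 := himg hy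
          rw [Finset.mem_image] at h7
          obtain ⟨w, hw, rfl⟩ := h7
          rw [← heq] at hw
          rw [ctr_in hw]
          exact Finset.mem_singleton_self _
        have h7 := Finset.card_le_card hY
        rw [Finset.card_singleton] at h7
        omega
      intro Y hY1 hY2
      by_cases hrY : ctr X r' ∈ Y
      · have h7 := key Yᶜ (fun h => (Finset.mem_compl.1 h) hrY) hY2
          (by rw [compl_compl]; exact hY1)
        rwa [cn_compl] at h7
      · exact key Y hrY hY1 hY2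
    -- the neighbour
    have hRS : ctr X r' ≠ ctr X s' := fun h => hrs' (Glue.ctr_inj hsX h)
    have hjh1 : Jn (fun x => ctr X (A x)) (fun x => ctr X (B x)) h (ctr X r') (ctr X s') :=
      (Glue.jn_ctr hrX hsX h).2 hjh
    obtain ⟨y, w, hwX, hj, hws, hwr⟩ : ∃ (y : E) (w : Sup u v), w ∉ X ∧
        Jn (fun x => ctr X (A x)) (fun x => ctr X (B x)) y (ctr X s') (ctr X w) ∧ w ≠ s' ∧
        w ≠ r' := by
      obtain ⟨y1, y2, w1, w2, hj1, hj2, hw12, hw1s, hw2s, hw1r, hw2r⟩ :=
        two_more hc1 (by omega) hRS hjh1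
      have key : ∀ (y : E) (w0 : Option {w : Sup u v // w ∉ X}), w0 ≠ none →
          Jn (fun x => ctr X (A x)) (fun x => ctr X (B x)) y (ctr X s') w0 → w0 ≠ ctr X s' →
          w0 ≠ ctr X r' → ∃ (y : E) (w : Sup u v), w ∉ X ∧
            Jn (fun x => ctr X (A x)) (fun x => ctr X (B x)) y (ctr X s') (ctr X w) ∧ w ≠ s' ∧
            w ≠ r' := by
        intro y w0 h0 hj0 hs0 hr0
        cases w0 with
        | none => exact absurd rfl h0
        | some w =>
          refine ⟨y, w.1, w.2, ?_, ?_, ?_⟩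
          · rw [ctr_out w.2]; exact hj0
          · intro h9
            apply hs0
            rw [← h9, ctr_out w.2]
          · intro h9
            apply hr0
            rw [← h9, ctr_out w.2]
      by_cases h7 : w1 = none
      · have h8 : w2 ≠ none := fun h8 => hw12 (h7.trans h8.symm)
        exact key y2 w2 h8 hj2 hw2s hw2r
      · exact key y1 w1 h7 hj1 hw1s hw1r
    have hRW : ctr X r' ≠ ctr X w := fun h => hwr (Glue.ctr_inj hwX h).symm
    have hSW : ctr X s' ≠ ctr X w := fun h => hws (Glue.ctr_inj hwX h).symm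
    obtain ⟨β, col1, hst⟩ := ihS (Xᶜ.card + 1) (by omega) _ _ _ _ hc1 hnc1 hn1 hcard1
      (ctr X r') (ctr X s') (ctr X w) h y hjh1 hj hRS hRW hSW
    obtain ⟨col20, hg20⟩ := ihG (X.card + 1) (by omega) _ _ _ _ hc2 hn2 (by omega) none
    obtain ⟨m1, m2⟩ := match_good hXne hrX h3 hst.good hg20
    -- uniqueness of the edge from `w` into `X`
    have huniq : ∀ x x0, Cr A B X x → Cr A B {w} x → Cr A B X x0 → Cr A B {w} x0 → x = x0 := by
      have key : ∀ x, Cr A B X x → Cr A B {w} x →
          Jn (fun x => ctr X (A x)) (fun x => ctr X (B x)) x (ctr X w) none := by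
        intro x hx1 hx2
        obtain ⟨p, q, hp, hq, hj⟩ := exists_jn_of_cr hx1
        have hwq : w = q := by
          rw [hj.cr, Finset.mem_singleton, Finset.mem_singleton] at hx2
          by_contra h9
          apply hx2
          constructor
          · intro h10; exact absurd (h10 ▸ hp) hwX
          · intro h10; exact absurd h10.symm h9
        subst hwq
        rcases hj with ⟨h9, h10⟩ | ⟨h9, h10⟩
        · right
          simp only [h9, h10, ctr_in hp, and_self]
        · left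
          simp only [h9, h10, ctr_in hp, and_self]
      intro x x0 h7 h8 h9 h10
      refine CB.no_par hc1 (by omega) (x := ctr X w) (y := none) ?_ (key x h7 h8) (key x0 h9 h10)
      rw [ctr_out hwX]
      simp
    obtain ⟨σ, hσ, hσ2⟩ : ∃ σ : Equiv.Perm (Fin 4),
        (∀ x, Cr A B X x → col1 x = none ∨ col1 x = (col20 x).map σ) ∧
        (∀ x, Cr A B X x → Cr A B {w} x → col1 x = none →
          (∀ y, Cr A B X y → col1 y ≠ some β) → (col20 x).map σ = some β) := by
      by_cases h7 : ∃ a0, Cr A B X a0 ∧ Cr A B {w} a0 ∧ col1 a0 = none ∧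
          ∀ y, Cr A B X y → col1 y ≠ some β
      · obtain ⟨a0, ha1, ha2, ha3, ha4⟩ := h7
        obtain ⟨σ, hσ, hσ2⟩ := m2 a0 β ha1 ha3 ha4
        refine ⟨σ, hσ, ?_⟩
        intro x hx1 hx2 _ _
        rw [huniq x a0 hx1 hx2 ha1 ha2]
        exact hσ2
      · obtain ⟨σ, hσ⟩ := m1
        refine ⟨σ, hσ, ?_⟩
        intro x hx1 hx2 hx3 hx4
        exact absurd ⟨x, hx1, hx2, hx3, hx4⟩ h7
    have hg2 := good_perm hg20 σ
    have hgl := t_GLUE _ _ A B X r' hrX hXne h3 col1 _ hst.good hg2 hσ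
    have hcut2 := hG2 _ _ A B hcub X r' s' w hrX hsX hwX hrs' hws hwr hXne h3 h hjh β col1 _ hst
      hg2 hσ hσ2
    refine hins β _ hgl ?_ ?_
    · have h7 : ¬ (A h ∈ X ∧ B h ∈ X) := by
        rintro ⟨h8, h9⟩
        rcases hjh with ⟨h10, -⟩ | ⟨-, h10⟩
        · exact hrX (h10 ▸ h8)
        · exact hrX (h10 ▸ h9)
      simp only [if_neg h7]
      exact hst.root_ne
    · intro Y hsY hrY hcd
      apply hcut2 Y hsY hrY
      rcases hcd with h7 | h7
      · exact ⟨c', hcX, h7⟩
      · exact ⟨d', hdX, h7⟩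

end MP

/-- MAIN, assuming GLUE2 -/
theorem good_exists_of (hG2 : S_GLUE2) (W E : Type) [Fintype W] [DecidableEq W] [Fintype E]
    [DecidableEq E] (a b : E → W) (hc : Cub a b) (h3 : 3 ≤ Fintype.card W) (r : W) :
    ∃ col, Good a b r col := by
  have key : ∀ n, MP.PG n ∧ MP.PS n := by
    intro n
    induction n using Nat.strong_induction_on with
    | _ n ih =>
      have hS := MP.strong_step hG2 (fun m hm => (ih m hm).1) (fun m hm => (ih m hm).2)
      exact ⟨MP.good_of (fun m hm => (ih m hm).1) hS, hS⟩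
  exact (key _).1 W E a b hc rfl h3 r

end Pool.Agent.H91S
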