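import Pool.Agent.H91S.Stm

set_option autoImplicit false
set_option linter.unusedSectionVars false

/-!
# Piece SUPCUB: the graph in which two adjacent vertices are suppressed
-/

namespace Pool.Agent.H91S

open Finset
open Pool.Agent.Helper879.ECD (cn)
open Pool.Agent.N411.EC (TEC Cr Jn cn_eq)

namespace SUPaux

variable {W E : Type} [Fintype W] [DecidableEq W] [Fintype E] [DecidableEq E]

open Classical in
/-- the indicator -/
noncomputable def ind (P : Prop) : ℕ := if P then 1 else 0

lemma ind_true {P : Prop} (h : P) : ind P = 1 := by unfold ind; rw [if_pos h]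

lemma ind_false {P : Prop} (h : ¬ P) : ind P = 0 := by unfold ind; rw [if_neg h]

lemma ind_congr {P Q : Prop} (h : P ↔ Q) : ind P = ind Q := by rw [propext h]

open Classical in
/-- a vertex set of the small graph as a vertex set of the graph, with `u` and `v` on prescribed
sides -/
noncomputable def lft (u v : W) (X : Finset (Sup u v)) (su sv : Prop) : Finset W :=
  univ.filter (fun w => (w = u ∧ su) ∨ (w = v ∧ sv) ∨
    ∃ h : w ≠ u ∧ w ≠ v, (⟨w, h⟩ : Sup u v) ∈ X)

lemma mem_u {u v : W} (huv : u ≠ v) (X : Finset (Sup u v)) (su sv : Prop) :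
    u ∈ lft u v X su sv ↔ su := by
  simp [lft, huv]

lemma mem_v {u v : W} (huv : u ≠ v) (X : Finset (Sup u v)) (su sv : Prop) :
    v ∈ lft u v X su sv ↔ sv := by
  simp [lft, huv.symm]

lemma mem_w {u v : W} (X : Finset (Sup u v)) (su sv : Prop) (w : Sup u v) :
    w.1 ∈ lft u v X su sv ↔ w ∈ X := by
  obtain ⟨w, hw⟩ := w
  simp [lft, hw.1, hw.2]

lemma sup_u (u v : W) (r c : Sup u v) : sup u v r c u = r := by simp [sup]

lemma sup_v {u v : W} (huv : u ≠ v) (r c : Sup u v) : sup u v r c v = c := by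
  simp [sup, huv.symm]

lemma sup_w (u v : W) (r c : Sup u v) (w : Sup u v) : sup u v r c w.1 = w := by
  obtain ⟨w, hw⟩ := w
  simp [sup, hw.1, hw.2]

lemma cn_sum (a b : E → W) (X : Finset W) : cn a b univ X = ∑ x, ind (Cr a b X x) := by
  classical
  rw [cn_eq, card_filter]
  refine sum_congr rfl fun x _ => ?_
  unfold ind
  by_cases h : Cr a b X x
  · rw [if_pos h, if_pos h]
  · rw [if_neg h, if_neg h]

lemma split5 (f : E → ℕ) {e g h hc hd : E} (h1 : e ∉ ({g, h, hc, hd} : Finset E))
    (h2 : g ∉ ({h, hc, hd} : Finset E)) (h3 : h ∉ ({hc, hd} : Finset E))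
    (h4 : hc ∉ ({hd} : Finset E)) :
    ∑ x, f x = ∑ x ∈ ({e, g, h, hc, hd} : Finset E)ᶜ, f x + f e + f g + f h + f hc + f hd := by
  rw [← sum_add_sum_compl ({e, g, h, hc, hd} : Finset E) f, sum_insert h1, sum_insert h2,
    sum_insert h3, sum_insert h4, sum_singleton]
  ring

variable {a b : E → W} {r u v s c d : W} {e g h hc hd : E}

lemma jn_ne {x y : E} {p q p' q' : W} (h1 : Jn a b x p q) (h2 : Jn a b y p' q')
    (h3 : ¬ (p = p' ∧ q = q')) (h4 : ¬ (p = q' ∧ q = p')) : x ≠ y := by
  rintro rfl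
  rcases h1.pair h2 with h | h
  · exact h3 h
  · exact h4 h

lemma distinct (C : Cfg a b r u v s c d e g h hc hd) :
    e ∉ ({g, h, hc, hd} : Finset E) ∧ g ∉ ({h, hc, hd} : Finset E) ∧
      h ∉ ({hc, hd} : Finset E) ∧ hc ∉ ({hd} : Finset E) := by
  have h1 := C.ru
  have h2 := C.rv
  have h3 := C.rs
  have h4 := C.rc
  have h5 := C.rd
  have h6 := C.uv
  have h7 := C.us
  have h8 := C.uc
  have h9 := C.ud
  have h10 := C.vs
  have h11 := C.vc
  have h12 := C.vd
  have h13 := C.sc
  have h14 := C.sd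
  have h15 := C.cd
  refine ⟨?_, ?_, ?_, ?_⟩
  · simp only [mem_insert, mem_singleton, not_or]
    refine ⟨jn_ne C.je C.jg ?_ ?_, jn_ne C.je C.jh ?_ ?_, jn_ne C.je C.jc ?_ ?_,
      jn_ne C.je C.jd ?_ ?_⟩ <;> tauto
  · simp only [mem_insert, mem_singleton, not_or]
    refine ⟨jn_ne C.jg C.jh ?_ ?_, jn_ne C.jg C.jc ?_ ?_, jn_ne C.jg C.jd ?_ ?_⟩ <;> tauto
  · simp only [mem_insert, mem_singleton, not_or]
    refine ⟨jn_ne C.jh C.jc ?_ ?_, jn_ne C.jh C.jd ?_ ?_⟩ <;> tauto
  · simp only [mem_singleton]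
    exact jn_ne C.jc C.jd (by tauto) (by tauto)

/-- the other edges are loops or have no end in `u, v` -/
lemma other (C : Cfg a b r u v s c d e g h hc hd) {x : E}
    (hx : x ∉ ({e, g, h, hc, hd} : Finset E)) :
    a x = b x ∨ (a x ≠ u ∧ a x ≠ v ∧ b x ≠ u ∧ b x ≠ v) := by
  simp only [mem_insert, mem_singleton, not_or] at hx
  obtain ⟨h1, h2, h3, h4, h5⟩ := hx
  have hu : ¬ Cr a b {u} x := by
    intro hcr
    rcases C.eu x hcr with h | h | h
    · exact h1 h
    · exact h2 h
    · exact h3 h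
  have hv : ¬ Cr a b {v} x := by
    intro hcr
    rcases C.ev x hcr with h | h | h
    · exact h2 h
    · exact h4 h
    · exact h5 h
  unfold Cr at hu hv
  rw [not_not, mem_singleton, mem_singleton] at hu hv
  by_cases h6 : a x = b x
  · exact Or.inl h6
  · right
    have h7 := C.uv
    refine ⟨fun h => ?_, fun h => ?_, fun h => ?_, fun h => ?_⟩
    · exact h6 (h.trans (hu.1 h).symm)
    · exact h6 (h.trans (hv.1 h).symm)
    · exact h6 ((hu.2 h).trans h.symm)
    · exact h6 ((hv.2 h).trans h.symm)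

/-- the number of the other edges in a cut of the small graph -/
noncomputable def KK (a b : E → W) (u v : W) (r' c' : Sup u v) (e g h hc hd : E)
    (X : Finset (Sup u v)) : ℕ :=
  ∑ x ∈ ({e, g, h, hc, hd} : Finset E)ᶜ, ind (Cr (supE a u v r' c' g) (supE b u v r' c' g) X x)

lemma jn_supE (C : Cfg a b r u v s c d e g h hc hd) (r' c' : Sup u v) {x : E} (hx : x ≠ g)
    {p q : W} (hj : Jn a b x p q) :
    Jn (supE a u v r' c' g) (supE b u v r' c' g) x (sup u v r' c' p) (sup u v r' c' q) := by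
  have e1 : supE a u v r' c' g x = sup u v r' c' (a x) := if_neg hx
  have e2 : supE b u v r' c' g x = sup u v r' c' (b x) := if_neg hx
  unfold Jn
  rw [e1, e2]
  rcases hj with ⟨h1, h2⟩ | ⟨h1, h2⟩
  · left
    rw [h1, h2]
    exact ⟨rfl, rfl⟩
  · right
    rw [h1, h2]
    exact ⟨rfl, rfl⟩

theorem cn_lft (C : Cfg a b r u v s c d e g h hc hd) (r' s' c' d' : Sup u v) (hr : r'.1 = r)
    (hs : s'.1 = s) (hc' : c'.1 = c) (hd' : d'.1 = d) (X : Finset (Sup u v)) (su sv : Prop) :
    cn a b univ (lft u v X su sv) = KK a b u v r' c' e g h hc hd X + ind (¬ (r' ∈ X ↔ su))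
      + ind (¬ (su ↔ sv)) + ind (¬ (su ↔ s' ∈ X)) + ind (¬ (sv ↔ c' ∈ X))
      + ind (¬ (sv ↔ d' ∈ X)) := by
  obtain ⟨d1, d2, d3, d4⟩ := distinct C
  rw [cn_sum, split5 _ d1 d2 d3 d4]
  have h1 : ind (Cr a b (lft u v X su sv) e) = ind (¬ (r' ∈ X ↔ su)) := by
    apply ind_congr
    rw [C.je.cr, ← hr, mem_w, mem_u C.uv]
  have h2 : ind (Cr a b (lft u v X su sv) g) = ind (¬ (su ↔ sv)) := by
    apply ind_congr
    rw [C.jg.cr, mem_u C.uv, mem_v C.uv]
  have h3 : ind (Cr a b (lft u v X su sv) h) = ind (¬ (su ↔ s' ∈ X)) := by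
    apply ind_congr
    rw [C.jh.cr, ← hs, mem_w, mem_u C.uv]
  have h4 : ind (Cr a b (lft u v X su sv) hc) = ind (¬ (sv ↔ c' ∈ X)) := by
    apply ind_congr
    rw [C.jc.cr, ← hc', mem_w, mem_v C.uv]
  have h5 : ind (Cr a b (lft u v X su sv) hd) = ind (¬ (sv ↔ d' ∈ X)) := by
    apply ind_congr
    rw [C.jd.cr, ← hd', mem_w, mem_v C.uv]
  rw [h1, h2, h3, h4, h5]
  congr 5
  unfold KK
  refine sum_congr rfl fun x hx => ?_
  rw [mem_compl] at hx
  apply ind_congr
  have hxg : x ≠ g := by
    intro h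
    apply hx
    rw [h]
    simp
  unfold Cr supE
  rw [if_neg hxg, if_neg hxg]
  rcases other C hx with h6 | ⟨h6, h7, h8, h9⟩
  · rw [h6]
    tauto
  · have e1 := mem_w X su sv ⟨a x, h6, h7⟩
    have e2 := mem_w X su sv ⟨b x, h8, h9⟩
    have e3 := sup_w u v r' c' ⟨a x, h6, h7⟩
    have e4 := sup_w u v r' c' ⟨b x, h8, h9⟩
    simp only at e1 e2 e3 e4
    rw [e1, e2, e3, e4]

theorem cn_supE (C : Cfg a b r u v s c d e g h hc hd) (r' s' c' d' : Sup u v) (hr : r'.1 = r)
    (hs : s'.1 = s) (hc' : c'.1 = c) (hd' : d'.1 = d) (X : Finset (Sup u v)) :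
    cn (supE a u v r' c' g) (supE b u v r' c' g) univ X = KK a b u v r' c' e g h hc hd X
      + ind (¬ (r' ∈ X ↔ s' ∈ X)) + ind (¬ (c' ∈ X ↔ d' ∈ X)) := by
  obtain ⟨d1, d2, d3, d4⟩ := distinct C
  rw [cn_sum, split5 _ d1 d2 d3 d4]
  have hne : e ≠ g ∧ h ≠ g ∧ hc ≠ g ∧ hd ≠ g := by
    simp only [mem_insert, mem_singleton, not_or] at d1 d2
    exact ⟨d1.1, fun h => d2.1 h.symm, fun h => d2.2.1 h.symm, fun h => d2.2.2 h.symm⟩
  have h1 : ind (Cr (supE a u v r' c' g) (supE b u v r' c' g) X e) = 0 := by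
    apply ind_false
    rw [(jn_supE C r' c' hne.1 C.je).cr, ← hr, sup_w, sup_u]
    tauto
  have h2 : ind (Cr (supE a u v r' c' g) (supE b u v r' c' g) X g) = 0 := by
    apply ind_false
    unfold Cr supE
    rw [if_pos rfl, if_pos rfl]
    tauto
  have h3 : ind (Cr (supE a u v r' c' g) (supE b u v r' c' g) X h) = ind (¬ (r' ∈ X ↔ s' ∈ X)) := by
    apply ind_congr
    rw [(jn_supE C r' c' hne.2.1 C.jh).cr, ← hs, sup_w, sup_u]
  have h4 : ind (Cr (supE a u v r' c' g) (supE b u v r' c' g) X hc) = 0 := by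
    apply ind_false
    rw [(jn_supE C r' c' hne.2.2.1 C.jc).cr, ← hc', sup_w, sup_v C.uv]
    tauto
  have h5 : ind (Cr (supE a u v r' c' g) (supE b u v r' c' g) X hd) = ind (¬ (c' ∈ X ↔ d' ∈ X)) := by
    apply ind_congr
    rw [(jn_supE C r' c' hne.2.2.2 C.jd).cr, ← hd', sup_w, sup_v C.uv]
  rw [h1, h2, h3, h4, h5]
  unfold KK
  ring

lemma card_lft (u v : W) (X : Finset (Sup u v)) (su sv : Prop) :
    X.card ≤ (lft u v X su sv).card ∧ Xᶜ.card ≤ (lft u v X su sv)ᶜ.card := by
  constructor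
  · rw [← card_map (Function.Embedding.subtype _)]
    apply card_le_card
    intro w hw
    rw [mem_map] at hw
    obtain ⟨w', h1, h2⟩ := hw
    rw [← h2]
    exact (mem_w X su sv w').2 h1
  · rw [← card_map (Function.Embedding.subtype _)]
    apply card_le_card
    intro w hw
    rw [mem_map] at hw
    obtain ⟨w', h1, h2⟩ := hw
    rw [← h2, mem_compl]
    intro h3
    exact (mem_compl.1 h1) ((mem_w X su sv w').1 h3)

lemma lft_single {u v : W} (w : Sup u v) : lft u v {w} False False = {w.1} := by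
  ext x
  simp only [lft, mem_filter, mem_univ, true_and, and_false, false_or, mem_singleton]
  constructor
  · rintro ⟨h1, h2⟩
    rw [← h2]
  · rintro rfl
    exact ⟨w.2, rfl⟩

end SUPaux

open SUPaux

theorem t_SUPCUB : S_SUPCUB := by
  intro W E _ _ _ _ a b hcub hno r u v s c d e g h hc hd C r' c' hr hc'
  classical
  obtain ⟨s', hs⟩ : ∃ s' : Sup u v, s'.1 = s := ⟨⟨s, C.us.symm, C.vs.symm⟩, rfl⟩
  obtain ⟨d', hd'⟩ : ∃ d' : Sup u v, d'.1 = d := ⟨⟨d, C.ud.symm, C.vd.symm⟩, rfl⟩
  have hrs : r' ≠ s' := fun h => C.rs (by rw [← hr, ← hs, h])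
  have hrc : r' ≠ c' := fun h => C.rc (by rw [← hr, ← hc', h])
  have hrd : r' ≠ d' := fun h => C.rd (by rw [← hr, ← hd', h])
  have hsc : s' ≠ c' := fun h => C.sc (by rw [← hs, ← hc', h])
  have hsd : s' ≠ d' := fun h => C.sd (by rw [← hs, ← hd', h])
  have hcd : c' ≠ d' := fun h => C.cd (by rw [← hc', ← hd', h])
  have htec : TEC (supE a u v r' c' g) (supE b u v r' c' g) := by
    intro X hX hXu
    have k1 := cn_lft C r' s' c' d' hr hs hc' hd' X (r' ∈ X) (c' ∈ X)
    have k2 := cn_supE C r' s' c' d' hr hs hc' hd' X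
    have i1 : ind (¬ (r' ∈ X ↔ r' ∈ X)) = 0 := ind_false (by tauto)
    have i2 : ind (¬ (c' ∈ X ↔ c' ∈ X)) = 0 := ind_false (by tauto)
    rw [i1, i2] at k1
    obtain ⟨hc1, hc2⟩ := card_lft u v X (r' ∈ X) (c' ∈ X)
    by_cases hiff : r' ∈ X ↔ c' ∈ X
    · have i3 : ind (¬ (r' ∈ X ↔ c' ∈ X)) = 0 := ind_false (by tauto)
      rw [i3] at k1
      have h1 : 0 < X.card := card_pos.2 hX
      have h2 : 0 < Xᶜ.card := by
        rw [card_pos, nonempty_iff_ne_empty]
        intro h
        exact hXu ((compl_eq_empty_iff X).1 h)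
      have h3 := hcub.tec (lft u v X (r' ∈ X) (c' ∈ X)) (card_pos.1 (by omega)) (by
        intro h
        have : (lft u v X (r' ∈ X) (c' ∈ X))ᶜ.card = 0 := by
          rw [card_eq_zero, compl_eq_empty_iff]
          exact h
        omega)
      omega
    · have i3 : ind (¬ (r' ∈ X ↔ c' ∈ X)) = 1 := ind_true (by tauto)
      rw [i3] at k1
      have h3 : 4 ≤ cn a b univ (lft u v X (r' ∈ X) (c' ∈ X)) := by
        apply hno
        · by_cases hr1 : r' ∈ X
          · have hsub : ({r, u} : Finset W) ⊆ lft u v X (r' ∈ X) (c' ∈ X) := by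
              intro w hw
              rw [mem_insert, mem_singleton] at hw
              rcases hw with rfl | rfl
              · rw [← hr, mem_w]; exact hr1
              · rw [mem_u C.uv]; exact hr1
            have := card_le_card hsub
            rwa [card_pair C.ru] at this
          · have hc1 : c' ∈ X := by tauto
            have hsub : ({c, v} : Finset W) ⊆ lft u v X (r' ∈ X) (c' ∈ X) := by
              intro w hw
              rw [mem_insert, mem_singleton] at hw
              rcases hw with rfl | rfl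
              · rw [← hc', mem_w]; exact hc1
              · rw [mem_v C.uv]; exact hc1
            have := card_le_card hsub
            rwa [card_pair C.vc.symm] at this
        · by_cases hr1 : r' ∈ X
          · have hc1 : c' ∉ X := by tauto
            have hsub : ({c, v} : Finset W) ⊆ (lft u v X (r' ∈ X) (c' ∈ X))ᶜ := by
              intro w hw
              rw [mem_insert, mem_singleton] at hw
              rw [mem_compl]
              rcases hw with rfl | rfl
              · rw [← hc', mem_w]; exact hc1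
              · rw [mem_v C.uv]; exact hc1
            have := card_le_card hsub
            rwa [card_pair C.vc.symm] at this
          · have hsub : ({r, u} : Finset W) ⊆ (lft u v X (r' ∈ X) (c' ∈ X))ᶜ := by
              intro w hw
              rw [mem_insert, mem_singleton] at hw
              rw [mem_compl]
              rcases hw with rfl | rfl
              · rw [← hr, mem_w]; exact hr1
              · rw [mem_u C.uv]; exact hr1
            have := card_le_card hsub
            rwa [card_pair C.ru] at this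
      omega
  refine ⟨htec, ?_⟩
  intro w
  have k1 := cn_lft C r' s' c' d' hr hs hc' hd' {w} False False
  have k2 := cn_supE C r' s' c' d' hr hs hc' hd' {w}
  rw [lft_single, hcub.deg] at k1
  rw [k2]
  have j0 : ind (¬ (False ↔ False)) = 0 := ind_false (by tauto)
  rw [j0] at k1
  by_cases hwr : w = r'
  · subst hwr
    rw [ind_true (by simp), ind_false (by simp [hrs.symm]), ind_false (by simp [hrc.symm]),
      ind_false (by simp [hrd.symm])] at k1
    rw [ind_true (by simp [hrs.symm]), ind_false (by simp [hrc.symm, hrd.symm])]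
    omega
  · by_cases hwc : w = c'
    · subst hwc
      rw [ind_false (by simp [hrc]), ind_false (by simp [hsc]), ind_true (by simp),
        ind_false (by simp [hcd.symm])] at k1
      rw [ind_false (by simp [hrc, hsc]), ind_true (by simp [hcd.symm])]
      omega
    · have e1 : r' ∉ ({w} : Finset (Sup u v)) := by
        rw [mem_singleton]; exact fun h => hwr h.symm
      have e2 : c' ∉ ({w} : Finset (Sup u v)) := by
        rw [mem_singleton]; exact fun h => hwc h.symm
      have e3 : ind (¬ (r' ∈ ({w} : Finset (Sup u v)) ↔ False)) = 0 := ind_false (by tauto)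
      have e4 : ind (¬ (False ↔ c' ∈ ({w} : Finset (Sup u v)))) = 0 := ind_false (by tauto)
      have e5 : ind (¬ (r' ∈ ({w} : Finset (Sup u v)) ↔ s' ∈ ({w} : Finset (Sup u v))))
        = ind (¬ (False ↔ s' ∈ ({w} : Finset (Sup u v)))) := ind_congr (by tauto)
      have e6 : ind (¬ (c' ∈ ({w} : Finset (Sup u v)) ↔ d' ∈ ({w} : Finset (Sup u v))))
        = ind (¬ (False ↔ d' ∈ ({w} : Finset (Sup u v)))) := ind_congr (by tauto)
      rw [e3, e4] at k1
      rw [e5, e6]
      omega

end Pool.Agent.H91S
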