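import Pool.Agent.H91S.Defs

set_option autoImplicit false

/-!
# Seven removable colours: the pieces

THEOREM. The edges of every 3-edge-connected graph can be coloured with seven colours such that the
deletion of any one colour leaves at least two edges in every cut. (Known: 10, DeVos-Johnson-Seymour;
starting result: 8.) Hence intervals of ratio `4 / 3` are good ranges (MP_20b97f_co, hard; the
starting result has `9 / 7`).

Main line (checked by computer on hundreds of graphs). For cubic 3-edge-connected `a b` and a root `r`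
there is a `Good` colouring (four colours and `none`). Induction on the number of vertices. If there is
a nontrivial 3-cut: GLUE (with MATCH). Otherwise we even get a `Strong` colouring for every edge
`e = ru` and every neighbour `v ≠ r` of `u`: four vertices: BASE. Otherwise CFG, delete `g = uv` and
suppress `u`, `v` (SUPCUB); in the small graph `h` is the edge `rs` and `hd` is the edge `cd`. If the
small graph has no nontrivial 3-cut take a Strong colouring of it for `(r, s, w, h)` with a neighbour
`w ∉ {r, c, d}` of `s`, and use INS. Otherwise all its nontrivial 3-cuts separate `{r, s}` from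
`{c, d}` (SUPCUT); take a maximal one, contract it, take a Strong colouring for `(r, s, w, h)` with
`w` not the contracted vertex, glue (GLUE, GLUE2, MATCH), and use INS. At the end, the edges of colour
`none` have a connected complement, hence get three more colours (`three_colour` in
`Pool.Agent.N411.EC.Eight`).
-/

namespace Pool.Agent.H91S

open Finset
open Pool.Agent.Helper879.ECD (cn)
open Pool.Agent.N411.EC (TEC Cr Jn Col)

/-- PAR. The number of vertices of a cubic graph is even. Proof: the sum over all `w` of
`cn a b univ {w}` is `3 * card W`, and it is twice the number of edges `x` with `a x ≠ b x`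
(double counting: such an edge crosses exactly the two sets `{a x}`, `{b x}`). -/
def S_PAR : Prop := ∀ (W E : Type) [Fintype W] [DecidableEq W] [Fintype E] [DecidableEq E]
  (a b : E → W), (∀ v, cn a b univ {v} = 3) → Even (Fintype.card W)

/-- BASE. Four vertices `r, u, v, t`. Every pair of vertices is joined by exactly one edge: the number
`m` of edges between `x ≠ y` satisfies `cn {x, y} = 6 - 2 m` and `cn {x,y} ≥ 3`, so `m ≤ 1`, and each
vertex has three edges. (`Loops` may exist, they cross nothing.) Colours: `col e = 0` (`e = ru`),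
`ut ↦ 1`, `uv ↦ 2`, `rt ↦ 2`, `rv ↦ 3`, `vt ↦ none`, and `β = 1`. Everything is a finite check: encode
a vertex set by the four truth values of `r, u, v, t ∈ X` and the six edges by `Fin 6`, `decide`, and
transport. -/
def S_BASE : Prop := ∀ (W E : Type) [Fintype W] [DecidableEq W] [Fintype E] [DecidableEq E]
  (a b : E → W), Cub a b → Fintype.card W = 4 → ∀ (r u v : W) (e g : E), Jn a b e r u →
    Jn a b g u v → r ≠ u → r ≠ v → u ≠ v → ∃ β col, Strong a b r u v e β col

/-- CFG. Without nontrivial 3-cuts and with at least five vertices there are no parallel edges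
(`cn {x, y} = 6 - 2 m`, `m` the number of edges between `x` and `y`) and no triangles (the set `T` of
the vertices of a triangle has `cn T ≤ 9 - 6`, and its complement has at least two vertices). So the
other edge `h` at `u` goes to some `s ∉ {r, u, v}`, and the other two edges at `v` go to `c ≠ d`, with
`c, d ∉ {r, u, v, s}`. -/
def S_CFG : Prop := ∀ (W E : Type) [Fintype W] [DecidableEq W] [Fintype E] [DecidableEq E]
  (a b : E → W), Cub a b → NoCut a b → 5 ≤ Fintype.card W → ∀ (r u v : W) (e g : E),
    Jn a b e r u → Jn a b g u v → r ≠ u → r ≠ v → u ≠ v →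
    ∃ s c d h hc hd, Cfg a b r u v s c d e g h hc hd

/-- SUPCUB. The graph with `g = uv` deleted and `u, v` suppressed is cubic and 3-edge-connected.
Proof: for `X' : Finset (Sup u v)` let `X` be the set of all `w` with `sup u v r' c' w ∈ X'`. An edge
`x ≠ g` crosses `X'` in the new graph iff it crosses `X`; `g` is a loop. If `g` does not cross `X`,
then the cut has `cn X ≥ 3` edges; if `g` crosses `X`, then one side contains `r, u` and the other
`c, v`, so `cn X ≥ 4` by `NoCut` and the new cut has at least three edges. Degrees: at most three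
edges cross `{w}` (`w ≠ r, c`), and `{r, u}` has the two edges at `r` other than `e`, and `h` (and
`g`); the same for `{c, v}`; at least three by the first part. -/
def S_SUPCUB : Prop := ∀ (W E : Type) [Fintype W] [DecidableEq W] [Fintype E] [DecidableEq E]
  (a b : E → W), Cub a b → NoCut a b → ∀ (r u v s c d : W) (e g h hc hd : E),
    Cfg a b r u v s c d e g h hc hd → ∀ (r' c' : Sup u v), r'.1 = r → c'.1 = c →
    Cub (supE a u v r' c' g) (supE b u v r' c' g)

/-- SUPCUT. The nontrivial 3-cuts of the suppressed graph separate `{r, s}` from `{c, d}`. Proof: for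
`S ⊆ {u, v}` let `X` be `X' ∪ S` (as a set in `W`); both sides of `X` have at least two elements, so
`cn X ≥ 4`. Edges other than `e, g, h, hc, hd` cross `X` iff they cross `X'` in the small graph. Put
`k` for their number; `cn' X' = k + [s ∈ X'] + [hd crosses X']` (`h` is the edge `rs`, `hd` the edge
`cd`, and `e, g, hc` are loops). If `s ∈ X'`: put `v` into `X` iff `c ∈ X'` and put `u` on the same side
as `v`: then `g` does not cross, exactly one of `e`, `h` crosses, and `hc` does not cross while `hd`
crosses iff `c, d` are separated: `cn X = cn' X' ≤ 3`, a contradiction. If `s ∉ X'` and not both `c, d`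
are in `X'`: put `u, v` outside: `cn X = k + [c or d in X'] = cn' X' ≤ 3`, a contradiction. -/
def S_SUPCUT : Prop := ∀ (W E : Type) [Fintype W] [DecidableEq W] [Fintype E] [DecidableEq E]
  (a b : E → W), NoCut a b → ∀ (r u v s c d : W) (e g h hc hd : E),
    Cfg a b r u v s c d e g h hc hd → ∀ (r' s' c' d' : Sup u v), r'.1 = r → s'.1 = s → c'.1 = c →
    d'.1 = d → ∀ X : Finset (Sup u v), r' ∉ X → 2 ≤ X.card → 2 ≤ Xᶜ.card →
    cn (supE a u v r' c' g) (supE b u v r' c' g) univ X ≤ 3 → s' ∉ X ∧ c' ∈ X ∧ d' ∈ X

/-- CTR. Contraction of `X` with `cn X = 3` gives a cubic 3-edge-connected graph: cuts and degrees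
of the contracted graph are cuts and degrees of the graph (take preimages). Also for later use: the
number of vertices. -/
def S_CTR : Prop := ∀ (W E : Type) [Fintype W] [DecidableEq W] [Fintype E] [DecidableEq E]
  (a b : E → W), Cub a b → ∀ X : Finset W, X.Nonempty → cn a b univ X = 3 →
    Cub (fun x => ctr X (a x)) (fun x => ctr X (b x)) ∧
    Fintype.card (Option {w : W // w ∉ X}) = Xᶜ.card + 1

/-- INS. The insertion step (see the proof in Ins.lean). -/
def S_INS : Prop := ∀ (W E : Type) [Fintype W] [DecidableEq W] [Fintype E] [DecidableEq E]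
  (a b : E → W) (r u v s c d : W) (e g h hc hd : E),
    Cfg a b r u v s c d e g h hc hd → ∀ (r' s' c' d' : Sup u v), r'.1 = r → s'.1 = s → c'.1 = c →
    d'.1 = d → ∀ (β : Fin 4) (col : E → Option (Fin 4)),
    Good (supE a u v r' c' g) (supE b u v r' c' g) r' col → col h ≠ some β →
    (∀ X : Finset (Sup u v), s' ∈ X → r' ∉ X → (c' ∈ X ∨ d' ∈ X) →
      Two (fun x => Cr (supE a u v r' c' g) (supE b u v r' c' g) X x ∧ col x ≠ some β ∧ x ≠ h)) →
    ∃ β' col', Strong a b r u v e β' col'

/-- GLUE. Gluing at a 3-cut. -/
def S_GLUE : Prop := ∀ (W E : Type) [Fintype W] [DecidableEq W] [Fintype E] [DecidableEq E]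
  (a b : E → W) (X : Finset W) (r : W), r ∉ X → X.Nonempty → cn a b univ X = 3 →
    ∀ col1 col2 : E → Option (Fin 4),
    Good (fun x => ctr X (a x)) (fun x => ctr X (b x)) (ctr X r) col1 →
    Good (fun x => ctr Xᶜ (a x)) (fun x => ctr Xᶜ (b x)) none col2 →
    (∀ x, Cr a b X x → col1 x = none ∨ col1 x = col2 x) →
    Good a b r (fun x => if a x ∈ X ∧ b x ∈ X then col2 x else col1 x)

/-- GLUE2. The cut property in the glued graph. -/
def S_GLUE2 : Prop := ∀ (W E : Type) [Fintype W] [DecidableEq W] [Fintype E] [DecidableEq E]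
  (a b : E → W), Cub a b → ∀ (X : Finset W) (r s w : W), r ∉ X → s ∉ X → w ∉ X → r ≠ s → w ≠ s →
    w ≠ r → X.Nonempty → cn a b univ X = 3 → ∀ (e : E), Jn a b e r s → ∀ (β : Fin 4)
    (col1 col2 : E → Option (Fin 4)),
    Strong (fun x => ctr X (a x)) (fun x => ctr X (b x)) (ctr X r) (ctr X s) (ctr X w) e β col1 →
    Good (fun x => ctr Xᶜ (a x)) (fun x => ctr Xᶜ (b x)) none col2 →
    (∀ x, Cr a b X x → col1 x = none ∨ col1 x = col2 x) →
    (∀ x, Cr a b X x → Cr a b {w} x → col1 x = none → (∀ y, Cr a b X y → col1 y ≠ some β) →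
      col2 x = some β) →
    ∀ Y : Finset W, s ∈ Y → r ∉ Y → (∃ z ∈ X, z ∈ Y) →
      Two (fun x => Cr a b Y x ∧ (if a x ∈ X ∧ b x ∈ X then col2 x else col1 x) ≠ some β ∧ x ≠ e)

/-- MATCH. Recolouring on three edges: extend the partial colouring `c1` to an injective colouring
`c'` of `F` (with `c' a0 = β` in the second form), then extend `c2 x ↦ c' x` (`x ∈ F`) to a permutation
of `Fin 4` (for example `Finset.exists_equiv_extend_of_card_eq`). -/
def S_MATCH : Prop := ∀ (E : Type) [DecidableEq E] (F : Finset E) (c1 c2 : E → Option (Fin 4)),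
  F.card = 3 → (∀ x ∈ F, c2 x ≠ none) → (∀ x ∈ F, ∀ y ∈ F, x ≠ y → c2 x ≠ c2 y) →
  (∀ x ∈ F, ∀ y ∈ F, x ≠ y → c1 x ≠ none → c1 x ≠ c1 y) →
  (∃ σ : Equiv.Perm (Fin 4), ∀ x ∈ F, c1 x = none ∨ c1 x = (c2 x).map σ) ∧
  ∀ (a0 : E) (β : Fin 4), a0 ∈ F → c1 a0 = none → (∀ x ∈ F, c1 x ≠ some β) →
    ∃ σ : Equiv.Perm (Fin 4), (∀ x ∈ F, c1 x = none ∨ c1 x = (c2 x).map σ) ∧
      (c2 a0).map σ = some β

/-- COL7. From good colourings of cubic graphs to seven colours. Proof: as `eight_tec` /
`eight_cubic` in `Pool.Agent.N411.EC.Eight` (`col_of_cubic`, `three_colour` for the edges of colour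
`none`). Cubic graphs with at most two vertices: one vertex: nothing to show; two vertices: the
three edges get three different colours. -/
def S_COL7 : Prop :=
  (∀ (W E : Type) [Fintype W] [DecidableEq W] [Fintype E] [DecidableEq E] (a b : E → W), Cub a b →
    3 ≤ Fintype.card W → ∀ r, ∃ col, Good a b r col) →
  ∀ (W E : Type) [Fintype W] [DecidableEq W] [Fintype E] [DecidableEq E] (a b : E → W),
    TEC a b → Col (Fin 4 ⊕ Fin 3) a b

end Pool.Agent.H91S
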